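import Pool.Agent.Mg.F32357ea.G55a923

set_option linter.all false

/-! Capping the tract: the mean along the radius to a point near the corner tends to `-∞`. -/

set_option autoImplicit false

open Complex Set Filter Topology Metric MeasureTheory
open scoped ComplexConjugate

noncomputable section

namespace Pool.Agent.MP_32357e_an.Sec

lemma van2_Cap {φ : ℂ → ℂ} {ζ : ℂ} {r : ℝ} (hr : 0 < r) (hφ : DifferentiableOn ℂ φ (ball ζ r))
    (h0 : φ ζ = 0) (h1 : deriv φ ζ = 0) :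
    ∃ C : ℝ, 0 < C ∧ ∀ᶠ z in 𝓝 ζ, ‖φ z‖ ≤ C * ‖z - ζ‖ ^ 2 := by
  have hb := ball_mem_nhds ζ hr
  have hd : DifferentiableAt ℂ (dslope φ ζ) ζ :=
    ((Complex.differentiableOn_dslope hb).mpr hφ).differentiableAt hb
  obtain ⟨C, hC, h⟩ := hd.hasFDerivAt.isBigO_sub.exists_pos
  refine ⟨C, hC, ?_⟩
  filter_upwards [h.bound] with z hz
  rw [dslope_same, h1, sub_zero] at hz
  have e : φ z = (z - ζ) * dslope φ ζ z := by
    have := sub_smul_dslope φ ζ z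
    rw [h0, sub_zero, smul_eq_mul] at this
    exact this.symm
  rw [e, norm_mul]
  calc ‖z - ζ‖ * ‖dslope φ ζ z‖ ≤ ‖z - ζ‖ * (C * ‖z - ζ‖) := by gcongr
    _ = C * ‖z - ζ‖ ^ 2 := by ring

lemma low_Cap {Y : ℂ → ℂ} {ζ : ℂ} (hY : DifferentiableAt ℂ Y ζ) (h0 : Y ζ = 0)
    (h1 : deriv Y ζ ≠ 0) : ∃ c : ℝ, 0 < c ∧ ∀ᶠ z in 𝓝 ζ, c * ‖z - ζ‖ ≤ ‖Y z‖ := by
  have hp : 0 < ‖deriv Y ζ‖ := norm_pos_iff.mpr h1
  refine ⟨‖deriv Y ζ‖ / 2, by positivity, ?_⟩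
  have hc : ContinuousAt (dslope Y ζ) ζ := continuousAt_dslope_same.mpr hY
  have h2 : ∀ᶠ z in 𝓝 ζ, ‖deriv Y ζ‖ / 2 < ‖dslope Y ζ z‖ :=
    hc.norm.eventually (lt_mem_nhds (by simp only [dslope_same]; linarith))
  filter_upwards [h2] with z hz
  have e : Y z = (z - ζ) * dslope Y ζ z := by
    have := sub_smul_dslope Y ζ z
    rw [h0, sub_zero, smul_eq_mul] at this
    exact this.symm
  rw [e, norm_mul, mul_comm]
  gcongr

/-- The comparison primitive. -/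
def prA_Cap (s0 R : ℝ) (β h : ℂ) : ℂ := s0 * R * (h + h ^ 3 / 3) + β * (-log h + h ^ 4 / 4)

lemma prA_deriv_Cap (s0 R : ℝ) (β : ℂ) {x : ℂ} (hx : x ∈ SS) :
    HasDerivAt (fun x => prA_Cap s0 R β (hh x))
      (hh x ^ 2 * (-(2 * s0 * R) + 4 * β * x)) x := by
  have hh1 := hasDerivAt_hh hx
  have hsl : hh x ∈ slitPlane := Or.inl (hh_re_pos hx)
  have h1 := (hh1.add ((hh1.pow 3).div_const 3)).const_mul ((s0 : ℂ) * R)
  have h2 := ((hh1.clog hsl).neg.add ((hh1.pow 4).div_const 4)).const_mul β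
  refine HasDerivAt.congr_deriv (h1.add h2) ?_
  have e1 := one_add_hh_sq hx
  have e2 := hh_quad hx
  have n1 : rt x ≠ 0 := exp_ne_zero _
  have n2 := hh_ne hx
  generalize hh x = h at *
  generalize rt x = q at *
  have k1 : (1 + h ^ 2) * q⁻¹ = 2 * h := by rw [e1]; field_simp
  have k2 : -(h / q) / h = -q⁻¹ := by field_simp
  simp only [Nat.cast_ofNat, Nat.add_one_sub_one, k2]
  rw [div_eq_mul_inv h q]
  linear_combination (-(s0 : ℂ) * R * h + β * (1 - h ^ 2)) * k1 - 2 * β * h * e2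

lemma corner_Cap {η R : ℝ} (hR : 1 ≤ R) (h0 : 0 ≤ η) (h1 : η ^ 2 = 1 - 1 / R ^ 2) :
    η < 1 ∧ ‖hh (η * I)‖ = 1 ∧ (hh (η * I) + hh (η * I) ^ 3 / 3).re = 4 / 3 * (1 / R) ^ 3 := by
  have hR2 : 0 < 1 / R ^ 2 := by positivity
  have hlt : η < 1 := by nlinarith
  have hm : (η : ℂ) * I ∈ SS := Or.inr (by simpa [abs_of_nonneg h0] using hlt)
  have hre : ((η : ℂ) * I).re = 0 := by simp
  have hn : ‖hh (η * I)‖ = 1 := le_antisymm (norm_hh_le hm hre.ge) (one_le_norm_hh hm hre.le)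
  refine ⟨hlt, hn, ?_⟩
  have hp := hh_re_pos hm
  have hq := hh_quad hm
  generalize hh (η * I) = h at *
  have q1 := congrArg Complex.re hq
  have q2 := congrArg Complex.im hq
  simp [pow_two] at q1 q2
  have e1 : h.im = -η := by
    have : h.re * (h.im + η) = 0 := by linarith
    linarith [(mul_eq_zero.mp this).resolve_left hp.ne']
  have e2 : h.re ^ 2 = (1 / R) ^ 2 := by
    rw [e1] at q1
    rw [div_pow, one_pow]
    nlinarith
  have e3 : h.re = 1 / R := by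
    have hR' : 0 < 1 / R := by positivity
    exact (pow_left_inj₀ hp.le hR'.le two_ne_zero).mp e2
  have e4 : (h + h ^ 3 / 3).re = h.re + (h.re ^ 3 - 3 * h.re * h.im ^ 2) / 3 := by
    simp [pow_succ]; ring
  rw [e4, e1, neg_sq, h1, e3]
  field_simp
  ring

lemma pt_Cap {y Y : ℂ → ℂ} {ζ : ℂ} {r : ℝ} (h : Arc y Y ζ r) {ρ : ℝ} (hρ : 0 < ρ) (hρr : ρ ≤ r) :
    ∀ᶠ v : ℝ in 𝓝 0, ∃ ζ' : ℂ, ‖ζ'‖ = 1 ∧ ζ' ∈ ball ζ ρ ∧ Y ζ' = v * I := by
  have hb := ball_mem_nhds ζ h.rp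
  have hc : HasDerivAt (fun θ : ℝ => ζ * exp (θ * I)) (ζ * I) 0 := by
    have h := (((hasDerivAt_id ((0 : ℝ) : ℂ)).mul_const I).cexp.const_mul ζ).comp_ofReal
    simpa using h
  have hz0 : ζ * exp (((0 : ℝ) : ℂ) * I) = ζ := by simp
  have hYz : HasDerivAt Y (deriv Y ζ) (ζ * exp (((0 : ℝ) : ℂ) * I)) := by
    rw [hz0]; exact (h.hY.differentiableAt hb).hasDerivAt
  have h2 : HasDerivAt (fun θ : ℝ => Y (ζ * exp (θ * I))) (deriv Y ζ * (ζ * I)) 0 :=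
    hYz.comp_of_eq (x := (0 : ℝ)) hc rfl |> fun t => t
  have h3 : HasDerivAt (fun θ : ℝ => (Y (ζ * exp (θ * I))).im) (deriv Y ζ * (ζ * I)).im 0 :=
    imCLM.hasFDerivAt.comp_hasDerivAt (0 : ℝ) h2
  have hc1 : ContDiffAt ℝ 1 (fun θ : ℝ => ζ * exp (θ * I)) 0 := by
    have : ContDiff ℝ 1 (fun θ : ℝ => (θ : ℂ)) := ofRealCLM.contDiff
    exact (contDiff_const.mul ((this.mul contDiff_const).cexp)).contDiffAt
  have hY1 : ContDiffAt ℝ 1 Y (ζ * exp (((0 : ℝ) : ℂ) * I)) := by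
    rw [hz0]
    exact ((h.hY.analyticAt hb).contDiffAt (n := 1)).restrict_scalars ℝ
  have h4 : ContDiffAt ℝ 1 (fun θ : ℝ => (Y (ζ * exp (θ * I))).im) 0 :=
    imCLM.contDiff.contDiffAt.comp (0 : ℝ) (hY1.comp (0 : ℝ) hc1)
  have hne : (deriv Y ζ * (ζ * I)).im ≠ 0 := by
    intro h0
    have h1 := arc_deriv h.hY h.im ζ (mem_ball_self h.rp) h.nz
    have e : I * ζ * deriv Y ζ = deriv Y ζ * (ζ * I) := by ring
    rw [e] at h1
    have : deriv Y ζ * (ζ * I) = 0 := Complex.ext h1 h0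
    have hζ : ζ ≠ 0 := by intro h0; have := h.nz; rw [h0] at this; simp at this
    exact mul_ne_zero h.der (mul_ne_zero hζ I_ne_zero) this
  have h5 := (h4.hasStrictDerivAt' h3 one_ne_zero).map_nhds_eq hne
  have h6 : ∀ᶠ θ : ℝ in 𝓝 0, ζ * exp (θ * I) ∈ ball ζ ρ :=
    hc.continuousAt.preimage_mem_nhds (by rw [hz0]; exact ball_mem_nhds ζ hρ)
  have h7 := image_mem_map (m := fun θ : ℝ => (Y (ζ * exp (θ * I))).im) h6
  rw [h5, hz0, h.zero, zero_im] at h7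
  filter_upwards [h7] with v hv
  obtain ⟨θ, hθ, e⟩ := hv
  have hn : ‖ζ * exp (θ * I)‖ = 1 := by rw [norm_mul, h.nz, norm_exp_ofReal_mul_I, one_mul]
  refine ⟨_, hn, hθ, Complex.ext ?_ ?_⟩
  · rw [h.im _ (ball_subset_ball hρr hθ) hn]; simp
  · simpa using e

lemma loc_Cap {y Y : ℂ → ℂ} {ζ : ℂ} {r : ℝ} (h : Arc y Y ζ r) :
    ∃ (s0 c C ρ : ℝ) (β : ℂ), 0 < β.re ∧ 0 < c ∧ 0 < C ∧ 0 < ρ ∧ ρ ≤ r ∧ ρ ≤ 1 ∧
      ∀ z ∈ ball ζ ρ, deriv Y z ≠ 0 ∧ c * ‖z - ζ‖ ≤ ‖Y z‖ ∧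
        ‖1 - (-s0 + β * Y z) * ζ * deriv Y z‖ ≤ C * ‖Y z‖ ^ 2 := by
  have hb := ball_mem_nhds ζ h.rp
  have hζ : ζ ≠ 0 := by intro h0; have := h.nz; rw [h0] at this; simp at this
  have hY1 : DifferentiableOn ℂ (deriv Y) (ball ζ r) := h.hY.deriv isOpen_ball
  have a1 := arc_deriv h.hY h.im
  have hZ : DifferentiableOn ℂ (fun z => I * z * deriv Y z) (ball ζ r) :=
    (differentiableOn_id.const_mul I).mul hY1
  have a2 := arc_deriv hZ a1 ζ (mem_ball_self h.rp) h.nz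
  have dY := (h.hY.differentiableAt hb).hasDerivAt
  have dY1 := (hY1.differentiableAt hb).hasDerivAt
  have dZ : HasDerivAt (fun z => I * z * deriv Y z)
      (I * 1 * deriv Y ζ + I * ζ * deriv (deriv Y) ζ) ζ :=
    ((hasDerivAt_id ζ).const_mul I).mul dY1
  rw [dZ.deriv] at a2
  obtain ⟨μ, hμ⟩ : ∃ μ : ℝ, ζ * deriv Y ζ = μ := by
    refine ⟨(ζ * deriv Y ζ).re, Complex.ext (by simp) ?_⟩
    have := a1 ζ (mem_ball_self h.rp) h.nz
    rw [mul_assoc, I_mul_re, neg_eq_zero] at this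
    rw [this, ofReal_im]
  have hμ0 : μ ≠ 0 := by
    intro h0
    rw [h0] at hμ
    exact mul_ne_zero hζ h.der (by simpa using hμ)
  have hμ1 : (μ : ℂ) ≠ 0 := ofReal_ne_zero.mpr hμ0
  set n : ℂ := ζ ^ 2 * deriv (deriv Y) ζ with hn
  have hnre : n.re = -μ := by
    have e : I * ζ * (I * 1 * deriv Y ζ + I * ζ * deriv (deriv Y) ζ) = -(μ + n) := by
      rw [← hμ, hn]; linear_combination (ζ * deriv Y ζ + ζ ^ 2 * deriv (deriv Y) ζ) * I_mul_I
    rw [e] at a2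
    simp only [neg_re, add_re, ofReal_re] at a2
    linarith
  set β : ℂ := ((-1 / μ ^ 3 : ℝ) : ℂ) * n with hβ
  have hβre : 0 < β.re := by
    rw [hβ, re_ofReal_mul, hnre]
    have : -1 / μ ^ 3 * -μ = 1 / μ ^ 2 := by field_simp
    rw [this]; positivity
  have hφ : DifferentiableOn ℂ (fun z => 1 - (-((-1 / μ : ℝ) : ℂ) + β * Y z) * ζ * deriv Y z)
      (ball ζ r) :=
    ((((h.hY.const_mul β).const_add _).mul_const ζ).mul hY1).const_sub 1
  have dφ : HasDerivAt (fun z => 1 - (-((-1 / μ : ℝ) : ℂ) + β * Y z) * ζ * deriv Y z)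
      (-(β * deriv Y ζ * ζ * deriv Y ζ +
        (-((-1 / μ : ℝ) : ℂ) + β * Y ζ) * ζ * deriv (deriv Y) ζ)) ζ :=
    ((((dY.const_mul β).const_add _).mul_const ζ).mul dY1).const_sub 1
  have eY : deriv Y ζ = μ / ζ := by rw [← hμ]; field_simp
  obtain ⟨C, hC, h1⟩ := van2_Cap h.rp hφ (by
      simp only [h.zero, mul_zero, add_zero]
      rw [mul_assoc, hμ]; push_cast; field_simp; ring) (by
      rw [dφ.deriv, h.zero, hβ, hn, eY]; push_cast; field_simp; ring)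
  obtain ⟨c, hc, h2⟩ := low_Cap dY.differentiableAt h.zero h.der
  have h3 : ∀ᶠ z in 𝓝 ζ, deriv Y z ≠ 0 := dY1.continuousAt.eventually_ne h.der
  obtain ⟨ρ, hρ, h4⟩ := Metric.eventually_nhds_iff_ball.mp (h1.and (h2.and h3))
  refine ⟨-1 / μ, c, C / c ^ 2, min ρ (min r 1), β, hβre, hc, by positivity,
    lt_min hρ (lt_min h.rp one_pos), (min_le_right _ _).trans (min_le_left _ _),
    (min_le_right _ _).trans (min_le_right _ _), fun z hz => ?_⟩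
  obtain ⟨b1, b2, b3⟩ := h4 z (ball_subset_ball (min_le_left _ _) hz)
  refine ⟨b3, b2, b1.trans ?_⟩
  have : (c * ‖z - ζ‖) ^ 2 ≤ ‖Y z‖ ^ 2 := by gcongr
  calc C * ‖z - ζ‖ ^ 2 = C / c ^ 2 * (c * ‖z - ζ‖) ^ 2 := by field_simp
    _ ≤ C / c ^ 2 * ‖Y z‖ ^ 2 := by gcongr

lemma cube_Cap {h : ℂ} (hn : ‖h‖ ≤ 1) : ‖h + h ^ 3 / 3‖ ≤ 2 * ‖h‖ := by
  have h1 : ‖h ^ 3 / 3‖ ≤ ‖h‖ := by
    rw [norm_div, norm_pow]
    simp only [Complex.norm_ofNat]
    have := norm_nonneg h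
    have h2 : ‖h‖ ^ 2 ≤ 1 := by nlinarith
    nlinarith
  linarith [norm_add_le h (h ^ 3 / 3)]

lemma four_Cap {h : ℂ} (hn : ‖h‖ ≤ 1) : ‖h ^ 4 / 4‖ ≤ 1 := by
  rw [norm_div, norm_pow]
  simp only [Complex.norm_ofNat]
  have : ‖h‖ ^ 4 ≤ 1 := pow_le_one₀ (norm_nonneg h) hn
  linarith

lemma endA_Cap {s0 R κ : ℝ} {β ω h : ℂ} (hR : 1 ≤ R) (hω : ‖ω‖ = 1) (hκ : R * ‖ω - 1‖ ≤ κ)
    (hn : ‖h‖ = 1) (hre : (h + h ^ 3 / 3).re = 4 / 3 * (1 / R) ^ 3) :
    (ω * prA_Cap s0 R β h).re ≤ |s0| * (2 * κ + 2) + ‖β‖ * 5 := by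
  have e : ω * prA_Cap s0 R β h = ((s0 * R : ℝ) : ℂ) * (h + h ^ 3 / 3) +
      (ω - 1) * (s0 * R * (h + h ^ 3 / 3)) + ω * (β * (-log h + h ^ 4 / 4)) := by
    simp only [prA_Cap]; push_cast; ring
  have hR0 : 0 < R := by linarith
  have b1 : (((s0 * R : ℝ) : ℂ) * (h + h ^ 3 / 3)).re ≤ |s0| * 2 := by
    rw [re_ofReal_mul, hre]
    have e1 : s0 * R * (4 / 3 * (1 / R) ^ 3) = s0 * (4 / 3 * (1 / R) ^ 2) := by field_simp
    have h1 : (1 / R) ^ 2 ≤ 1 := pow_le_one₀ (by positivity) (by rw [div_le_one hR0]; exact hR)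
    rw [e1]
    calc s0 * (4 / 3 * (1 / R) ^ 2) ≤ |s0| * (4 / 3 * (1 / R) ^ 2) := by
          gcongr; exact le_abs_self _
      _ ≤ |s0| * 2 := by gcongr; linarith
  have b2 : ((ω - 1) * (s0 * R * (h + h ^ 3 / 3))).re ≤ |s0| * (2 * κ) := by
    refine (re_le_norm _).trans ?_
    rw [norm_mul, norm_mul, norm_mul, Complex.norm_real, Complex.norm_real, Real.norm_eq_abs,
      Real.norm_eq_abs, abs_of_pos hR0]
    have h1 := cube_Cap hn.le
    rw [hn] at h1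
    calc ‖ω - 1‖ * (|s0| * R * ‖h + h ^ 3 / 3‖) ≤ ‖ω - 1‖ * (|s0| * R * (2 * 1)) := by gcongr
      _ = |s0| * (2 * (R * ‖ω - 1‖)) := by ring
      _ ≤ |s0| * (2 * κ) := by gcongr
  have b3 : (ω * (β * (-log h + h ^ 4 / 4))).re ≤ ‖β‖ * 5 := by
    refine (re_le_norm _).trans ?_
    rw [norm_mul, norm_mul, hω, one_mul]
    have h1 : ‖log h‖ ≤ 4 := by
      refine (norm_le_abs_re_add_abs_im _).trans ?_
      rw [log_re, log_im, hn, Real.log_one, abs_zero, zero_add]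
      linarith [abs_arg_le_pi h, Real.pi_le_four]
    have h2 := four_Cap hn.le
    have h3 := norm_add_le (-log h) (h ^ 4 / 4)
    rw [norm_neg] at h3
    gcongr
    linarith
  rw [e, add_re, add_re]
  linarith

lemma begA_Cap {s0 R b : ℝ} {β ω h : ℂ} (hR : 0 < R) (hω : ‖ω‖ = 1) (hn : ‖h‖ ≤ 1) (h0 : h ≠ 0)
    (hb : R * ‖h‖ ≤ b) (hbR : b ≤ R) (hβ : β.re / 2 ≤ (ω * β).re) (hβ0 : 0 ≤ β.re) :
    -(ω * prA_Cap s0 R β h).re ≤ |s0| * (2 * b) + ‖β‖ * 5 + β.re / 2 * Real.log (b / R) := by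
  have e : -(ω * prA_Cap s0 R β h) = -(ω * (s0 * R * (h + h ^ 3 / 3))) + ω * β * log h +
      -(ω * β * (h ^ 4 / 4)) := by
    simp only [prA_Cap]; ring
  have hp : 0 < ‖h‖ := norm_pos_iff.mpr h0
  have b1 : (-(ω * (s0 * R * (h + h ^ 3 / 3)))).re ≤ |s0| * (2 * b) := by
    refine (re_le_norm _).trans ?_
    rw [norm_neg, norm_mul, norm_mul, norm_mul, Complex.norm_real, Complex.norm_real,
      Real.norm_eq_abs, Real.norm_eq_abs, abs_of_pos hR, hω, one_mul]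
    have h1 := cube_Cap hn
    calc |s0| * R * ‖h + h ^ 3 / 3‖ ≤ |s0| * R * (2 * ‖h‖) := by gcongr
      _ = |s0| * (2 * (R * ‖h‖)) := by ring
      _ ≤ |s0| * (2 * b) := by gcongr
  have hωβ : ‖ω * β‖ = ‖β‖ := by rw [norm_mul, hω, one_mul]
  have b2 : (ω * β * log h).re ≤ ‖β‖ * 4 + β.re / 2 * Real.log (b / R) := by
    rw [mul_re (ω * β), log_re, log_im]
    have l1 : Real.log ‖h‖ ≤ Real.log (b / R) :=
      Real.log_le_log hp (by rw [le_div_iff₀ hR]; linarith)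
    have hb0 : 0 < b := lt_of_lt_of_le (mul_pos hR hp) hb
    have l2 : Real.log (b / R) ≤ 0 :=
      Real.log_nonpos (by positivity) (by rw [div_le_one hR]; exact hbR)
    have l3 : (ω * β).re * Real.log ‖h‖ ≤ β.re / 2 * Real.log (b / R) := by nlinarith
    have l4 : |(ω * β).im * arg h| ≤ ‖β‖ * 4 := by
      rw [abs_mul]
      exact mul_le_mul (hωβ ▸ abs_im_le_norm _) ((abs_arg_le_pi h).trans Real.pi_le_four)
        (abs_nonneg _) (norm_nonneg _)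
    linarith [neg_abs_le ((ω * β).im * arg h)]
  have b3 : (-(ω * β * (h ^ 4 / 4))).re ≤ ‖β‖ * 1 := by
    refine (re_le_norm _).trans ?_
    rw [norm_neg, norm_mul, hωβ]
    gcongr
    exact four_Cap hn
  rw [← neg_re, e, add_re, add_re]
  linarith

lemma int_Cap {y Y : ℂ → ℂ} {ζ : ℂ} {r : ℝ} (h : Arc y Y ζ r) {s0 C ρ R η : ℝ} {β ζ' : ℂ}
    (hC : 0 < C) (hρ : 0 < ρ) (hρr : ρ ≤ r) (hρ1 : ρ ≤ 1)
    (hφ : ∀ z ∈ ball ζ ρ, ‖1 - (-s0 + β * Y z) * ζ * deriv Y z‖ ≤ C * ‖Y z‖ ^ 2)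
    (hn : ‖ζ'‖ = 1) (hb : ζ' ∈ ball ζ (ρ / 2)) (hR : 0 < R) (h0 : 0 ≤ η) (h1 : η < 1)
    (he : R * Y ζ' / 2 = η * I) :
    IntervalIntegrable (fun t : ℝ => (R * hh (R * y (t * ζ') / 2)) ^ 2) volume (1 - ρ / 2) 1 ∧
    ‖(∫ t in (1 - ρ / 2 : ℝ)..1, (R * hh (R * y (t * ζ') / 2)) ^ 2) -
      (ζ / ζ' * prA_Cap s0 R β (hh (η * I)) -
        ζ / ζ' * prA_Cap s0 R β (hh (R * y (((1 - ρ / 2 : ℝ) : ℂ) * ζ') / 2)))‖ ≤ 4 * C := by
  have hle : 1 - ρ / 2 ≤ 1 := by linarith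
  have hζ' : ζ' ≠ 0 := by intro h0; rw [h0] at hn; simp at hn
  have hmem : ∀ t ∈ Icc (1 - ρ / 2) 1, (t : ℂ) * ζ' ∈ ball ζ ρ := by
    intro t ht
    rw [mem_ball_iff_norm] at hb ⊢
    have e : (t : ℂ) * ζ' - ζ = (ζ' - ζ) - ((1 - t : ℝ) : ℂ) * ζ' := by push_cast; ring
    rw [e]
    refine (norm_sub_le _ _).trans_lt ?_
    rw [norm_mul, hn, Complex.norm_real, Real.norm_eq_abs, abs_of_nonneg (by linarith [ht.2])]
    linarith [ht.1]
  have hin : ∀ t ∈ Ico (1 - ρ / 2) 1, ‖(t : ℂ) * ζ'‖ < 1 := by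
    intro t ht
    rw [norm_mul, hn, Complex.norm_real, Real.norm_eq_abs, abs_of_nonneg (by linarith [ht.1])]
    linarith [ht.2]
  have hYy : ∀ t ∈ Ico (1 - ρ / 2) 1, Y (t * ζ') = y (t * ζ') := fun t ht =>
    h.eq _ (ball_subset_ball hρr (hmem t (Ico_subset_Icc_self ht))) (hin t ht)
  have hS : ∀ t ∈ Icc (1 - ρ / 2) 1,
      R * Y (t * ζ') / 2 ∈ SS ∧ 0 ≤ (R * Y (t * ζ') / 2).re := by
    intro t ht
    rcases ht.2.lt_or_eq with h2 | h2
    · have h3 : 0 < (R * Y (t * ζ') / 2).re := by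
        rw [hYy t ⟨ht.1, h2⟩, div_ofNat_re, re_ofReal_mul]
        have := h.pos _ (mem_ball_zero_iff.mpr (hin t ⟨ht.1, h2⟩))
        positivity
      exact ⟨mem_SS_of_re h3.ne', h3.le⟩
    · rw [h2, ofReal_one, one_mul, he]
      exact ⟨Or.inr (by simpa [abs_of_nonneg h0] using h1), by simp⟩
  have hdY : ∀ t ∈ Icc (1 - ρ / 2) 1, HasDerivAt (fun t : ℝ => R * Y (t * ζ') / 2)
      (R * (deriv Y (t * ζ') * ζ') / 2) t := by
    intro t ht
    have d1 := (h.hY.differentiableAt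
      (isOpen_ball.mem_nhds (ball_subset_ball hρr (hmem t ht)))).hasDerivAt
    have d2 : HasDerivAt (fun w : ℂ => w * ζ') ζ' (t : ℂ) := by
      simpa using (hasDerivAt_id (t : ℂ)).mul_const ζ'
    exact (((d1.comp (t : ℂ) d2).const_mul (R : ℂ)).div_const 2).comp_ofReal
  set G : ℝ → ℂ := fun t => (R * hh (R * Y (t * ζ') / 2)) ^ 2 with hG
  set φ : ℝ → ℂ := fun t => 1 - (-s0 + β * Y (t * ζ')) * ζ * deriv Y (t * ζ') with hφd
  have cl : Continuous fun t : ℝ => (t : ℂ) * ζ' := by fun_prop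
  have cY : ContinuousOn (fun t : ℝ => Y (t * ζ')) (Icc (1 - ρ / 2) 1) :=
    h.hY.continuousOn.comp cl.continuousOn fun t ht => ball_subset_ball hρr (hmem t ht)
  have cY1 : ContinuousOn (fun t : ℝ => deriv Y (t * ζ')) (Icc (1 - ρ / 2) 1) :=
    (h.hY.deriv isOpen_ball).continuousOn.comp cl.continuousOn
      fun t ht => ball_subset_ball hρr (hmem t ht)
  have cG : ContinuousOn G (Icc (1 - ρ / 2) 1) := by
    intro t ht
    have := ((differentiableAt_hh (hS t ht).1).continuousAt.comp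
      (f := fun t : ℝ => R * Y (t * ζ') / 2) (hdY t ht).continuousAt)
    exact ((continuousAt_const.mul this).pow 2).continuousWithinAt
  have cφ : ContinuousOn φ (Icc (1 - ρ / 2) 1) :=
    continuousOn_const.sub ((((continuousOn_const.mul cY).const_add _).mul continuousOn_const).mul
      cY1)
  have iG : IntervalIntegrable G volume (1 - ρ / 2) 1 := cG.intervalIntegrable_of_Icc hle
  have iφ : IntervalIntegrable (fun t => G t * φ t) volume (1 - ρ / 2) 1 :=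
    (cG.mul cφ).intervalIntegrable_of_Icc hle
  have hae : ∀ᵐ t : ℝ, t ∈ uIoc (1 - ρ / 2) 1 → G t = (R * hh (R * y (t * ζ') / 2)) ^ 2 := by
    filter_upwards [Measure.ae_ne volume (1 : ℝ)] with t ht h2
    rw [uIoc_of_le hle] at h2
    simp only [hG]
    rw [hYy t ⟨h2.1.le, lt_of_le_of_ne h2.2 ht⟩]
  have dA : ∀ t ∈ uIcc (1 - ρ / 2) 1,
      HasDerivAt (fun t : ℝ => ζ / ζ' * prA_Cap s0 R β (hh (R * Y (t * ζ') / 2)))
        (G t - G t * φ t) t := by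
    intro t ht
    rw [uIcc_of_le hle] at ht
    have d := ((prA_deriv_Cap s0 R β (hS t ht).1).scomp t (hdY t ht)).const_mul (ζ / ζ')
    refine HasDerivAt.congr_deriv d ?_
    simp only [hG, hφd, smul_eq_mul]
    field_simp
    ring
  have ftc := intervalIntegral.integral_eq_sub_of_hasDerivAt dA (iG.sub iφ)
  rw [intervalIntegral.integral_sub iG iφ] at ftc
  simp only [ofReal_one, one_mul, he] at ftc
  rw [hYy _ ⟨le_rfl, by linarith⟩] at ftc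
  refine ⟨iG.congr_ae ((ae_restrict_iff' measurableSet_uIoc).mpr hae), ?_⟩
  rw [← intervalIntegral.integral_congr_ae hae, ← ftc, sub_sub_cancel]
  have hbd : ∀ t ∈ uIoc (1 - ρ / 2) 1, ‖G t * φ t‖ ≤ 4 * C := by
    intro t ht
    rw [uIoc_of_le hle] at ht
    have ht' := Ioc_subset_Icc_self ht
    have k1 := norm_mul_hh_le (hS t ht').1 (hS t ht').2
    have k2 := hφ _ (hmem t ht')
    have e : ‖G t‖ * (C * ‖Y (t * ζ')‖ ^ 2) =
        4 * C * ‖R * Y (t * ζ') / 2 * hh (R * Y (t * ζ') / 2)‖ ^ 2 := by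
      simp only [hG, norm_pow, norm_mul, norm_div, Complex.norm_ofNat]
      ring
    rw [norm_mul]
    calc ‖G t‖ * ‖φ t‖ ≤ ‖G t‖ * (C * ‖Y (t * ζ')‖ ^ 2) := by gcongr
      _ = _ := e
      _ ≤ 4 * C * 1 := by
        gcongr
        exact pow_le_one₀ (norm_nonneg _) k1
      _ = 4 * C := mul_one _
  refine (intervalIntegral.norm_integral_le_of_norm_le_const hbd).trans ?_
  have : |1 - (1 - ρ / 2)| ≤ 1 := by rw [abs_le]; constructor <;> linarith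
  calc 4 * C * |1 - (1 - ρ / 2)| ≤ 4 * C * 1 := by gcongr
    _ = 4 * C := mul_one _

theorem cap_pf : CapStmt := by
  intro y Y ζ r h M
  obtain ⟨s0, c, C, ρ, β, hβ, hc, hC, hρ, hρr, hρ1, hloc⟩ := loc_Cap h
  have hsub : closedBall (0 : ℂ) (1 - ρ / 2) ⊆ ball 0 1 := closedBall_subset_ball (by linarith)
  have hyne : ∀ z ∈ ball (0 : ℂ) 1, y z ≠ 0 := fun z hz h0 => by
    have := h.pos z hz
    rw [h0] at this
    simp at this
  obtain ⟨c1, hc1, hlow⟩ := (isCompact_closedBall (0 : ℂ) (1 - ρ / 2)).exists_forall_le'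
    (f := fun z => ‖y z‖) (a := 0) (h.hd.continuousOn.mono hsub).norm
    (fun z hz => norm_pos_iff.mpr (hyne z (hsub hz)))
  set b : ℝ := 2 / c1 with hb
  have hb0 : 0 < b := by positivity
  have t1 : Tendsto (fun R : ℝ => 2 * Real.sqrt (1 - 1 / R ^ 2) / R) atTop (𝓝 0) := by
    refine squeeze_zero' ?_ ?_ (tendsto_const_nhds (x := (2 : ℝ)).div_atTop tendsto_id)
    · filter_upwards [eventually_gt_atTop 0] with R hR
      positivity
    · filter_upwards [eventually_gt_atTop 0] with R hR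
      have : Real.sqrt (1 - 1 / R ^ 2) ≤ 1 := Real.sqrt_le_one.mpr (by
        have : 0 < 1 / R ^ 2 := by positivity
        linarith)
      simp only [id]
      gcongr
      linarith
  have t2 : Tendsto (fun R : ℝ => ‖β‖ * (2 / c) / R) atTop (𝓝 0) :=
    tendsto_const_nhds.div_atTop tendsto_id
  set K : ℝ := b ^ 2 + 4 * C + (|s0| * (2 * (2 / c) + 2) + ‖β‖ * 5) + (|s0| * (2 * b) + ‖β‖ * 5)
    with hK
  have t3 : ∀ᶠ R : ℝ in atTop, (K + M) / (β.re / 2) + Real.log b < Real.log R :=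
    Real.tendsto_log_atTop.eventually (eventually_gt_atTop _)
  filter_upwards [t1.eventually (pt_Cap h (half_pos hρ) (by linarith)),
    t2.eventually (gt_mem_nhds (half_pos hβ)), t3, eventually_ge_atTop 1, eventually_ge_atTop b]
    with R h1 h2 h3 hR hbR
  obtain ⟨ζ', hn, hball, hY⟩ := h1
  have hR0 : 0 < R := by linarith
  have hRc : (R : ℂ) ≠ 0 := ofReal_ne_zero.mpr hR0.ne'
  set η : ℝ := Real.sqrt (1 - 1 / R ^ 2) with hη
  have h0 : 0 ≤ η := Real.sqrt_nonneg _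
  have hsq : η ^ 2 = 1 - 1 / R ^ 2 := Real.sq_sqrt (by
    have : 1 / R ^ 2 ≤ 1 := by rw [div_le_one (by positivity)]; nlinarith
    linarith)
  obtain ⟨hlt, hn1, hre1⟩ := corner_Cap hR h0 hsq
  have he : R * Y ζ' / 2 = η * I := by rw [hY]; push_cast; field_simp
  have hball' : ζ' ∈ ball ζ ρ := ball_subset_ball (by linarith) hball
  have hζ' : ζ' ≠ 0 := by intro h0; rw [h0] at hn; simp at hn
  refine ⟨ζ', η, hn, ball_subset_ball hρr hball', h0, hlt, he, (hloc ζ' hball').1, ?_⟩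
  obtain ⟨i2, k2⟩ := int_Cap h hC hρ hρr hρ1 (fun z hz => (hloc z hz).2.2) hn hball hR0 h0 hlt he
  have hcl : ∀ t ∈ Icc (0 : ℝ) (1 - ρ / 2), (t : ℂ) * ζ' ∈ closedBall (0 : ℂ) (1 - ρ / 2) := by
    intro t ht
    rw [mem_closedBall_zero_iff, norm_mul, hn, Complex.norm_real, Real.norm_eq_abs,
      abs_of_nonneg ht.1, mul_one]
    exact ht.2
  have hS : ∀ z ∈ ball (0 : ℂ) 1, 0 < (R * y z / 2).re := fun z hz => by
    rw [div_ofNat_re, re_ofReal_mul]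
    have := h.pos _ hz
    positivity
  have hbd : ∀ z ∈ closedBall (0 : ℂ) (1 - ρ / 2), R * ‖hh (R * y z / 2)‖ ≤ b := by
    intro z hz
    have k := norm_mul_hh_le (mem_SS_of_re (hS z (hsub hz)).ne') (hS z (hsub hz)).le
    rw [norm_mul, norm_div, norm_mul, Complex.norm_real, Real.norm_eq_abs, abs_of_pos hR0,
      Complex.norm_ofNat] at k
    rw [hb, le_div_iff₀ hc1]
    have := hlow z hz
    have k' : R * ‖hh (R * y z / 2)‖ * c1 ≤ R * ‖hh (R * y z / 2)‖ * ‖y z‖ := by gcongr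
    linarith
  have hσ : (0 : ℝ) ≤ 1 - ρ / 2 := by linarith
  have c1' : ContinuousOn (fun t : ℝ => (R * hh (R * y (t * ζ') / 2)) ^ 2) (Icc 0 (1 - ρ / 2)) := by
    intro t ht
    have hz := hsub (hcl t ht)
    have a1 : ContinuousAt (fun t : ℝ => y (t * ζ')) t :=
      (h.hd.differentiableAt (isOpen_ball.mem_nhds hz)).continuousAt.comp
        (f := fun t : ℝ => (t : ℂ) * ζ') (by fun_prop)
    have a2 := (differentiableAt_hh (mem_SS_of_re (hS _ hz).ne')).continuousAt.comp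
      (f := fun t : ℝ => R * y (t * ζ') / 2) ((continuousAt_const.mul a1).div_const 2)
    exact ((continuousAt_const.mul a2).pow 2).continuousWithinAt
  have i1 := c1'.intervalIntegrable_of_Icc (μ := volume) hσ
  have k1 : ‖∫ t in (0 : ℝ)..(1 - ρ / 2), (R * hh (R * y (t * ζ') / 2)) ^ 2‖ ≤ b ^ 2 := by
    refine (intervalIntegral.norm_integral_le_of_norm_le_const (C := b ^ 2) ?_).trans ?_
    · intro t ht
      rw [uIoc_of_le hσ] at ht
      rw [norm_pow, norm_mul, Complex.norm_real, Real.norm_eq_abs, abs_of_pos hR0]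
      have := hbd _ (hcl t (Ioc_subset_Icc_self ht))
      gcongr
    · have : |1 - ρ / 2 - 0| ≤ 1 := by rw [abs_le]; constructor <;> linarith
      calc b ^ 2 * |1 - ρ / 2 - 0| ≤ b ^ 2 * 1 := by gcongr
        _ = b ^ 2 := mul_one _
  have hω : ‖ζ / ζ'‖ = 1 := by rw [norm_div, h.nz, hn, div_one]
  have hκ : R * ‖ζ / ζ' - 1‖ ≤ 2 / c := by
    have e : ζ / ζ' - 1 = -(ζ' - ζ) / ζ' := by field_simp; ring
    rw [e, norm_div, norm_neg, hn, div_one, le_div_iff₀ hc]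
    have a1 := (hloc ζ' hball').2.1
    have a2 := congrArg norm he
    rw [norm_div, norm_mul, norm_mul, Complex.norm_real, Complex.norm_real, Real.norm_eq_abs,
      Real.norm_eq_abs, abs_of_pos hR0, abs_of_nonneg h0, norm_I, Complex.norm_ofNat] at a2
    have a3 : R * (c * ‖ζ' - ζ‖) ≤ R * ‖Y ζ'‖ := by gcongr
    linarith
  have hωβ : β.re / 2 ≤ (ζ / ζ' * β).re := by
    have e : ζ / ζ' * β = β + (ζ / ζ' - 1) * β := by ring
    have a1 : ‖(ζ / ζ' - 1) * β‖ ≤ ‖β‖ * (2 / c) / R := by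
      rw [norm_mul, le_div_iff₀ hR0]
      calc ‖ζ / ζ' - 1‖ * ‖β‖ * R = ‖β‖ * (R * ‖ζ / ζ' - 1‖) := by ring
        _ ≤ ‖β‖ * (2 / c) := by gcongr
    have a2 := (abs_le.mp (abs_re_le_norm ((ζ / ζ' - 1) * β))).1
    rw [e, add_re]
    linarith
  have hz1 := hcl _ ⟨hσ, le_rfl⟩
  have hS1 := hS _ (hsub hz1)
  have e1 := endA_Cap (s0 := s0) (β := β) hR hω hκ hn1 hre1
  have e2 := begA_Cap (s0 := s0) hR0 hω (norm_hh_le (mem_SS_of_re hS1.ne') hS1.le)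
    (hh_ne (mem_SS_of_re hS1.ne')) (hbd _ hz1) hbR hωβ hβ.le
  have e3 := (re_le_norm _).trans k2
  have e4 := (re_le_norm _).trans k1
  rw [sub_re, sub_re] at e3
  rw [Real.log_div hb0.ne' hR0.ne'] at e2
  have e5 : K + M < β.re / 2 * (Real.log R - Real.log b) := by
    have : (K + M) / (β.re / 2) < Real.log R - Real.log b := by linarith
    rwa [div_lt_iff₀ (half_pos hβ), mul_comm] at this
  simp only [Av]
  rw [← intervalIntegral.integral_add_adjacent_intervals i1 i2, add_re]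
  nlinarith

end Pool.Agent.MP_32357e_an.Sec
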