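import Pool.Agent.MP_1a2790_an.Normal

set_option linter.all false

section

/-! Primitives of univalent functions with values in a spiral sector: definitions, statements of
the steps, and the elementary properties of the inverse Joukowski map. -/

set_option autoImplicit false

open Complex Set Filter Topology Metric MeasureTheory
open scoped ComplexConjugate

noncomputable section

namespace Pool.Agent.MP_32357e_an.Sec

/-- The mean of `f` along the radius ending at `z`. -/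
def Av (f : ℂ → ℂ) (z : ℂ) : ℂ := ∫ t in (0 : ℝ)..1, f (t * z)

/-- The normality bound for `F` with derivative `f`. -/
def Nrm (f F : ℂ → ℂ) : Prop :=
  ∃ C : ℝ, ∀ z ∈ ball (0 : ℂ) 1, (1 - ‖z‖ ^ 2) * ‖f z‖ / (1 + ‖F z‖ ^ 2) ≤ C

/-- The square root of `1 + x ^ 2`. -/
def rt (x : ℂ) : ℂ := exp (log (1 + x ^ 2) / 2)

def hh (x : ℂ) : ℂ := rt x - x

def gg (x : ℂ) : ℂ := rt x + x

/-- The plane without two vertical rays. -/
def SS : Set ℂ := {x | x.re ≠ 0 ∨ |x.im| < 1}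

/-- The Joukowski map with pole at `η i`, in the variable `u = x - η i`. -/
def JJ (η s : ℝ) (u : ℂ) : ℂ := η * I + u - s / u

/-- `y` maps the disc into the right half-plane, continues as `Y` across an arc at `ζ`, is
imaginary on the arc and has a simple zero at `ζ`. -/
structure Arc (y Y : ℂ → ℂ) (ζ : ℂ) (r : ℝ) : Prop where
  hd : DifferentiableOn ℂ y (ball 0 1)
  pos : ∀ z ∈ ball (0 : ℂ) 1, 0 < (y z).re
  nz : ‖ζ‖ = 1
  rp : 0 < r
  hY : DifferentiableOn ℂ Y (ball ζ r)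
  eq : ∀ z ∈ ball ζ r, ‖z‖ < 1 → Y z = y z
  zero : Y ζ = 0
  der : deriv Y ζ ≠ 0
  im : ∀ z ∈ ball ζ r, ‖z‖ = 1 → (Y z).re = 0

/-- Positivity of the bilinear kernel. -/
def KerStmt : Prop :=
  ∀ q : ℂ → ℂ, DifferentiableOn ℂ q (ball 0 1) → (∀ z ∈ ball (0 : ℂ) 1, 0 < (q z).re) →
    ∀ z ∈ ball (0 : ℂ) 1, 0 ≤ (Av (fun w => (q w + conj (q 0)) ^ 2) z).re

/-- Growth of functions with positive real part. -/
def GrowStmt : Prop :=
  ∀ p : ℂ → ℂ, DifferentiableOn ℂ p (ball 0 1) → (∀ z ∈ ball (0 : ℂ) 1, 0 < (p z).re) →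
    ∀ z ∈ ball (0 : ℂ) 1,
      (1 - ‖z‖) * ‖p z‖ ≤ 2 * ‖p 0‖ ∧ (1 - ‖z‖) * ‖deriv p z‖ ≤ 2 * (p z).re

/-- Primitives. -/
def PrimStmt : Prop :=
  ∀ f : ℂ → ℂ, DifferentiableOn ℂ f (ball 0 1) →
    (∃ F : ℂ → ℂ, F 0 = 0 ∧ ∀ z ∈ ball (0 : ℂ) 1, HasDerivAt F (f z) z) ∧
    ∀ F : ℂ → ℂ, F 0 = 0 → (∀ z ∈ ball (0 : ℂ) 1, HasDerivAt F (f z) z) →
      ∀ z ∈ ball (0 : ℂ) 1, F z = z * Av f z

/-- Lifting through the power map. -/
def LiftStmt : Prop :=
  ∀ c : ℂ, ‖c - 1‖ ≤ 1 → c ≠ 0 → ∀ g : ℂ → ℂ, DifferentiableOn ℂ g (ball 0 1) →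
    (∀ z ∈ ball (0 : ℂ) 1, ∃ w : ℂ, 0 < w.re ∧ g z = w ^ c) →
    ∃ p : ℂ → ℂ, DifferentiableOn ℂ p (ball 0 1) ∧
      ∀ z ∈ ball (0 : ℂ) 1, 0 < (p z).re ∧ g z = p z ^ c

/-- Straight sectors of opening less than a full turn. -/
def RealStmt : Prop :=
  ∀ (γ : ℝ) (p G : ℂ → ℂ), 1 < γ → γ < 2 → DifferentiableOn ℂ p (ball 0 1) →
    (∀ z ∈ ball (0 : ℂ) 1, 0 < (p z).re) → G 0 = 0 →
    (∀ z ∈ ball (0 : ℂ) 1, HasDerivAt G (p z ^ (γ : ℂ)) z) →
    ∃ C : ℝ, ∀ z ∈ ball (0 : ℂ) 1, (1 - ‖z‖) * ‖p z ^ (γ : ℂ)‖ ≤ C * (1 + ‖G z‖)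

/-- The positive half of the theorem. -/
def PosStmt : Prop :=
  ∀ c : ℂ, ‖c - 1‖ ≤ 1 → (c.re ≤ 1 ∨ (c.im = 0 ∧ c.re < 2)) →
    ∀ (f F : ℂ → ℂ) (a b : ℂ), DifferentiableOn ℂ f (ball 0 1) →
      (∀ z ∈ ball (0 : ℂ) 1, ∃ w : ℂ, 0 < w.re ∧ f z = a + b * w ^ c) → F 0 = 0 →
      (∀ z ∈ ball (0 : ℂ) 1, HasDerivAt F (f z) z) → Nrm f F

/-- The spiral example. -/
def SpirStmt : Prop :=
  ∀ c : ℂ, ‖c - 1‖ ≤ 1 → 1 < c.re → c.im ≠ 0 →
    ∃ f F : ℂ → ℂ, DifferentiableOn ℂ f (ball 0 1) ∧ InjOn f (ball 0 1) ∧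
      (∀ z ∈ ball (0 : ℂ) 1, ∃ w : ℂ, 0 < w.re ∧ f z = w ^ c) ∧ F 0 = 0 ∧
      (∀ z ∈ ball (0 : ℂ) 1, HasDerivAt F (f z) z) ∧ ¬ Nrm f F

/-- Iteration. -/
def IterStmt : Prop :=
  ∀ (P : (ℂ → ℂ) → Prop) (E : Set ℂ),
    (∀ f, P f → DifferentiableOn ℂ f (ball 0 1) ∧ InjOn f (ball 0 1) ∧
      ∀ z ∈ ball (0 : ℂ) 1, f z ∉ E) → (∃ f, P f) →
    (∀ f, P f → ∀ r δ M : ℝ, r < 1 → 0 < δ → ∃ g, P g ∧ (∀ z : ℂ, ‖z‖ ≤ r → ‖g z - f z‖ ≤ δ) ∧
      ∃ z ∈ ball (0 : ℂ) 1, ‖Av g z‖ ≤ 1 ∧ M ≤ (1 - ‖z‖ ^ 2) * ‖g z‖) →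
    ∃ f : ℂ → ℂ, DifferentiableOn ℂ f (ball 0 1) ∧ InjOn f (ball 0 1) ∧
      (∀ z ∈ ball (0 : ℂ) 1, f z ∉ E) ∧
      ∀ M : ℝ, ∃ z ∈ ball (0 : ℂ) 1, ‖Av f z‖ ≤ 2 ∧ M ≤ (1 - ‖z‖ ^ 2) * ‖f z‖

/-- Capping the tract makes the mean at a point near the corner very negative. -/
def CapStmt : Prop :=
  ∀ (y Y : ℂ → ℂ) (ζ : ℂ) (r : ℝ), Arc y Y ζ r → ∀ M : ℝ, ∀ᶠ R : ℝ in atTop,
    ∃ (ζ' : ℂ) (η : ℝ), ‖ζ'‖ = 1 ∧ ζ' ∈ ball ζ r ∧ 0 ≤ η ∧ η < 1 ∧ R * Y ζ' / 2 = η * I ∧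
      deriv Y ζ' ≠ 0 ∧ (Av (fun z => (R * hh (R * y z / 2)) ^ 2) ζ').re < -M

/-- The spike. -/
def SpikeStmt : Prop :=
  ∀ (u U : ℂ → ℂ) (ζ : ℂ) (r η : ℝ), Arc u U ζ r → 0 ≤ η → η < 1 →
    (Av (fun z => hh (η * I + u z) ^ 2) ζ).re < 0 → ∀ ε : ℝ, 0 < ε →
    ∀ᶠ s : ℝ in 𝓝[>] 0, ∃ z ∈ ball (0 : ℂ) 1, ‖Av (fun w => hh (JJ η s (u w)) ^ 2) z‖ ≤ ε ∧
      -(Av (fun z => hh (η * I + u z) ^ 2) ζ).re ≤ (1 - ‖z‖ ^ 2) * ‖hh (JJ η s (u z)) ^ 2‖

/-- The invariant after one step. -/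
def NewStmt : Prop :=
  ∀ (u U : ℂ → ℂ) (ζ : ℂ) (r η s R : ℝ), Arc u U ζ r → InjOn u (ball 0 1) → 0 ≤ η → 0 < s →
    η + 2 * Real.sqrt s < 1 → 0 < R →
    InjOn (fun z => gg (JJ η s (u z)) / R) (ball 0 1) ∧
      ∃ (Y : ℂ → ℂ) (r' : ℝ), Arc (fun z => gg (JJ η s (u z)) / R) Y ζ r'

/-- One step changes little on a compact set. -/
def CloseStmt : Prop :=
  ∀ y : ℂ → ℂ, DifferentiableOn ℂ y (ball 0 1) → (∀ z ∈ ball (0 : ℂ) 1, 0 < (y z).re) →
    ∀ r δ : ℝ, r < 1 → 0 < δ → ∀ᶠ R : ℝ in atTop, ∀ η s : ℝ, 0 ≤ η → η < 1 → 0 < s → s ≤ 1 →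
      η + 2 * Real.sqrt s < 1 → ∀ z : ℂ, ‖z‖ ≤ r →
        ‖((gg (JJ η s (R * y z / 2 - η * I)) / R) ^ 2)⁻¹ - (y z ^ 2)⁻¹‖ ≤ δ

/-! The inverse Joukowski map. -/

lemma mem_SS_of_re {x : ℂ} (h : x.re ≠ 0) : x ∈ SS := Or.inl h

lemma isOpen_SS : IsOpen SS :=
  (isOpen_ne_fun continuous_re continuous_const).union
    (isOpen_lt (continuous_abs.comp continuous_im) continuous_const)

lemma slit_of_SS {x : ℂ} (h : x ∈ SS) : 1 + x ^ 2 ∈ slitPlane := by
  rw [mem_slitPlane_iff]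
  have e1 : (1 + x ^ 2).re = 1 + x.re ^ 2 - x.im ^ 2 := by simp [pow_two]; ring
  have e2 : (1 + x ^ 2).im = 2 * x.re * x.im := by simp [pow_two]; ring
  rw [e1, e2]
  by_cases hi : x.im = 0
  · left; rw [hi]; nlinarith [sq_nonneg x.re]
  rcases h with h | h
  · right; exact mul_ne_zero (mul_ne_zero two_ne_zero h) hi
  · left
    have := abs_lt.mp h
    nlinarith [sq_nonneg x.re]

lemma rt_sq {x : ℂ} (h : x ∈ SS) : rt x ^ 2 = 1 + x ^ 2 := by
  rw [rt, ← Complex.exp_nat_mul]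
  have : ((2 : ℕ) : ℂ) * (log (1 + x ^ 2) / 2) = log (1 + x ^ 2) := by push_cast; ring
  rw [this, exp_log (slitPlane_ne_zero (slit_of_SS h))]

lemma rt_re_pos {x : ℂ} (h : x ∈ SS) : 0 < (rt x).re := by
  rw [rt, exp_re]
  apply mul_pos (Real.exp_pos _)
  have e : (log (1 + x ^ 2) / 2).im = arg (1 + x ^ 2) / 2 := by
    rw [← log_im]; simp
  rw [e]
  have h1 := neg_pi_lt_arg (1 + x ^ 2)
  have h2 : arg (1 + x ^ 2) < Real.pi :=
    lt_of_le_of_ne (arg_le_pi _) (slitPlane_arg_ne_pi (slit_of_SS h))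
  exact Real.cos_pos_of_mem_Ioo ⟨by linarith, by linarith⟩

lemma gg_mul_hh {x : ℂ} (h : x ∈ SS) : gg x * hh x = 1 := by
  have := rt_sq h
  simp only [gg, hh]
  linear_combination this

lemma hh_ne {x : ℂ} (h : x ∈ SS) : hh x ≠ 0 := right_ne_zero_of_mul_eq_one (gg_mul_hh h)

lemma gg_ne {x : ℂ} (h : x ∈ SS) : gg x ≠ 0 := left_ne_zero_of_mul_eq_one (gg_mul_hh h)

lemma gg_eq_inv {x : ℂ} (h : x ∈ SS) : gg x = (hh x)⁻¹ := eq_inv_of_mul_eq_one_left (gg_mul_hh h)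

lemma gg_eq (x : ℂ) : gg x = hh x + 2 * x := by simp only [gg, hh]; ring

lemma hh_quad {x : ℂ} (h : x ∈ SS) : hh x ^ 2 + 2 * x * hh x = 1 := by
  have := gg_mul_hh h
  rw [gg_eq] at this
  linear_combination this

lemma gg_re {x : ℂ} (h : x ∈ SS) : (gg x).re = (hh x).re / ‖hh x‖ ^ 2 := by
  rw [gg_eq_inv h, inv_re, normSq_eq_norm_sq]

lemma hh_re_pos {x : ℂ} (h : x ∈ SS) : 0 < (hh x).re := by
  have h1 : (gg x).re + (hh x).re = 2 * (rt x).re := by simp [gg, hh]; ring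
  have h2 := rt_re_pos h
  have h3 : 0 < ‖hh x‖ ^ 2 := pow_pos (norm_pos_iff.mpr (hh_ne h)) 2
  by_contra hn
  have hn' : (hh x).re ≤ 0 := not_lt.mp hn
  have : (gg x).re ≤ 0 := by rw [gg_re h]; exact div_nonpos_of_nonpos_of_nonneg hn' h3.le
  linarith

lemma gg_re_pos {x : ℂ} (h : x ∈ SS) : 0 < (gg x).re := by
  rw [gg_re h]
  exact div_pos (hh_re_pos h) (pow_pos (norm_pos_iff.mpr (hh_ne h)) 2)

lemma two_re_eq {x : ℂ} (h : x ∈ SS) :
    2 * x.re * ‖hh x‖ ^ 2 = (hh x).re * (1 - ‖hh x‖ ^ 2) := by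
  have h3 : ‖hh x‖ ^ 2 ≠ 0 := (pow_pos (norm_pos_iff.mpr (hh_ne h)) 2).ne'
  have h1 : (gg x).re = (hh x).re + 2 * x.re := by rw [gg_eq]; simp
  rw [gg_re h, div_eq_iff h3] at h1
  linear_combination (-1 : ℝ) * h1

lemma norm_hh_le {x : ℂ} (h : x ∈ SS) (hx : 0 ≤ x.re) : ‖hh x‖ ≤ 1 := by
  have h1 := two_re_eq h
  have h2 := hh_re_pos h
  have h3 : 0 ≤ (hh x).re * (1 - ‖hh x‖ ^ 2) := by rw [← h1]; positivity
  have h4 : 0 ≤ 1 - ‖hh x‖ ^ 2 := nonneg_of_mul_nonneg_right h3 h2 |> fun t => t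
  nlinarith [norm_nonneg (hh x)]

lemma one_le_norm_hh {x : ℂ} (h : x ∈ SS) (hx : x.re ≤ 0) : 1 ≤ ‖hh x‖ := by
  have h1 := two_re_eq h
  have h2 := hh_re_pos h
  have h3 : (hh x).re * (1 - ‖hh x‖ ^ 2) ≤ 0 := by
    rw [← h1]; nlinarith [sq_nonneg ‖hh x‖]
  by_contra hn
  have hn' : ‖hh x‖ < 1 := not_le.mp hn
  have : 0 < 1 - ‖hh x‖ ^ 2 := by nlinarith [norm_nonneg (hh x)]
  nlinarith [mul_pos h2 this]

lemma norm_mul_hh_le {x : ℂ} (h : x ∈ SS) (hx : 0 ≤ x.re) : ‖x * hh x‖ ≤ 1 := by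
  have h1 : x * hh x = (1 - hh x ^ 2) / 2 := by linear_combination (hh_quad h) / 2
  have h2 := norm_hh_le h hx
  rw [h1, norm_div]
  have h3 : ‖1 - hh x ^ 2‖ ≤ 2 := by
    calc ‖1 - hh x ^ 2‖ ≤ ‖(1 : ℂ)‖ + ‖hh x ^ 2‖ := norm_sub_le _ _
      _ ≤ 2 := by
        rw [norm_one, norm_pow]
        nlinarith [norm_nonneg (hh x)]
  simp only [Complex.norm_ofNat]
  linarith

lemma hasDerivAt_rt {x : ℂ} (h : x ∈ SS) : HasDerivAt rt (x / rt x) x := by
  have h1 : HasDerivAt (fun x : ℂ => 1 + x ^ 2) (2 * x) x := by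
    simpa using (hasDerivAt_pow 2 x).const_add 1
  have h2 := ((h1.clog (slit_of_SS h)).div_const 2).cexp
  refine HasDerivAt.congr_deriv h2 ?_
  have h3 : rt x ≠ 0 := exp_ne_zero _
  have h4 := rt_sq h
  change rt x * (2 * x / (1 + x ^ 2) / 2) = x / rt x
  rw [← h4]
  field_simp

lemma one_add_hh_sq {x : ℂ} (h : x ∈ SS) : 1 + hh x ^ 2 = 2 * rt x * hh x := by
  have := hh_quad h
  have e : rt x = hh x + x := by simp [hh]
  rw [e]
  linear_combination (-1 : ℂ) * this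

lemma hasDerivAt_hh {x : ℂ} (h : x ∈ SS) : HasDerivAt hh (-(hh x / rt x)) x := by
  refine HasDerivAt.congr_deriv ((hasDerivAt_rt h).sub (hasDerivAt_id x)) ?_
  have h3 : rt x ≠ 0 := exp_ne_zero _
  simp only [hh]
  field_simp
  ring

lemma differentiableAt_hh {x : ℂ} (h : x ∈ SS) : DifferentiableAt ℂ hh x :=
  (hasDerivAt_hh h).differentiableAt

lemma differentiableAt_gg {x : ℂ} (h : x ∈ SS) : DifferentiableAt ℂ gg x :=
  (hasDerivAt_rt h).differentiableAt.add differentiableAt_id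

lemma injOn_gg : InjOn gg SS := by
  intro x hx x' hx' e
  have h1 : hh x = hh x' := inv_injective (by rw [← gg_eq_inv hx, ← gg_eq_inv hx', e])
  rw [gg_eq, gg_eq, h1] at e
  linear_combination e / 2

lemma JJ_re (η s : ℝ) (u : ℂ) : (JJ η s u).re = u.re * (1 - s / ‖u‖ ^ 2) := by
  simp only [JJ, div_eq_mul_inv, sub_re, add_re, mul_re, ofReal_re, ofReal_im, I_re, I_im, inv_re,
    normSq_eq_norm_sq]
  ring

lemma JJ_mem {η s : ℝ} {u : ℂ} (h0 : 0 ≤ η) (hs : 0 < s) (h1 : η + 2 * Real.sqrt s < 1)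
    (hu : 0 < u.re) : JJ η s u ∈ SS := by
  by_cases hr : (JJ η s u).re = 0
  · right
    have hu0 : 0 < ‖u‖ := norm_pos_iff.mpr (fun h => by rw [h] at hu; simp at hu)
    rw [JJ_re] at hr
    have h2 : 1 - s / ‖u‖ ^ 2 = 0 := (mul_eq_zero.mp hr).resolve_left hu.ne'
    have h3 : ‖u‖ ^ 2 = s := by field_simp at h2; linarith
    have h4 : Real.sqrt s = ‖u‖ := by rw [← h3, Real.sqrt_sq hu0.le]
    have h5 : ‖(s : ℂ) / u‖ = ‖u‖ := by
      rw [norm_div, Complex.norm_real, Real.norm_eq_abs, abs_of_pos hs, ← h3]; field_simp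
    calc |(JJ η s u).im| ≤ ‖JJ η s u‖ := abs_im_le_norm _
      _ ≤ ‖(η : ℂ) * I + u‖ + ‖(s : ℂ) / u‖ := norm_sub_le _ _
      _ ≤ ‖(η : ℂ) * I‖ + ‖u‖ + ‖(s : ℂ) / u‖ := by gcongr; exact norm_add_le _ _
      _ = η + 2 * Real.sqrt s := by
        rw [h5, h4, norm_mul, norm_I, Complex.norm_real, Real.norm_eq_abs, abs_of_nonneg h0]; ring
      _ < 1 := h1
  · exact Or.inl hr

lemma JJ_inj {η s : ℝ} (hs : 0 < s) {u v : ℂ} (hu : 0 < u.re) (hv : 0 < v.re)
    (e : JJ η s u = JJ η s v) : u = v := by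
  have hu0 : u ≠ 0 := fun h => by rw [h] at hu; simp at hu
  have hv0 : v ≠ 0 := fun h => by rw [h] at hv; simp at hv
  by_contra hne
  have h1 : (u - v) * (u * v + s) = 0 := by
    simp only [JJ] at e
    field_simp at e
    linear_combination e
  have h2 : u * v + s = 0 := (mul_eq_zero.mp h1).resolve_left (sub_ne_zero.mpr hne)
  have h3 : v = -(s * u⁻¹) := by field_simp; linear_combination h2
  have h4 : v.re = -(s * (u.re / normSq u)) := by rw [h3]; simp [inv_re]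
  have h5 : 0 < s * (u.re / normSq u) := mul_pos hs (div_pos hu (normSq_pos.mpr hu0))
  linarith

/-- The tangential derivative of a function that is imaginary on an arc. -/
lemma arc_deriv {Y : ℂ → ℂ} {ζ : ℂ} {r : ℝ} (hY : DifferentiableOn ℂ Y (ball ζ r))
    (him : ∀ z ∈ ball ζ r, ‖z‖ = 1 → (Y z).re = 0) :
    ∀ z ∈ ball ζ r, ‖z‖ = 1 → (I * z * deriv Y z).re = 0 := by
  intro z hz h1
  have hc : HasDerivAt (fun θ : ℝ => z * exp (θ * I)) (z * I) 0 := by
    have h := (((hasDerivAt_id ((0 : ℝ) : ℂ)).mul_const I).cexp.const_mul z).comp_ofReal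
    simpa using h
  have hz0 : z * exp (((0 : ℝ) : ℂ) * I) = z := by simp
  have hYz : HasDerivAt Y (deriv Y z) (z * exp (((0 : ℝ) : ℂ) * I)) := by
    rw [hz0]; exact (hY.differentiableAt (isOpen_ball.mem_nhds hz)).hasDerivAt
  have h2 : HasDerivAt (fun θ : ℝ => Y (z * exp (θ * I))) (deriv Y z * (z * I)) 0 :=
    hYz.comp_of_eq (x := (0 : ℝ)) hc rfl |> fun t => t
  have h3 : HasDerivAt (fun θ : ℝ => (Y (z * exp (θ * I))).re) (deriv Y z * (z * I)).re 0 :=
    reCLM.hasFDerivAt.comp_hasDerivAt (0 : ℝ) h2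
  have h4 : (fun θ : ℝ => (Y (z * exp (θ * I))).re) =ᶠ[𝓝 0] fun _ => 0 := by
    have : ∀ᶠ θ : ℝ in 𝓝 0, z * exp (θ * I) ∈ ball ζ r :=
      hc.continuousAt.preimage_mem_nhds (by rw [hz0]; exact isOpen_ball.mem_nhds hz)
    filter_upwards [this] with θ hθ
    exact him _ hθ (by rw [norm_mul, h1, norm_exp_ofReal_mul_I, one_mul])
  have h5 := (h3.congr_of_eventuallyEq h4.symm).unique (hasDerivAt_const (0 : ℝ) (0 : ℝ))
  rw [← h5]
  congr 1
  ring

end Pool.Agent.MP_32357e_an.Sec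

end
end

section

/-! Iteration of the one step construction. -/

set_option autoImplicit false

open Complex Set Filter Topology Metric MeasureTheory
open scoped ComplexConjugate

namespace Pool.Agent.MP_32357e_an.Sec

lemma limit_Iter (F : ℕ → ℂ → ℂ) (r η : ℕ → ℝ) (hr : ∀ n, r n < 1) (hη : ∀ n, 0 < η n)
    (h1 : ∀ n, r n ≤ r (n + 1)) (h2 : ∀ n : ℕ, 1 - 1 / ((n : ℝ) + 1) ≤ r (n + 1))
    (h3 : ∀ n, η (n + 1) ≤ η n / 2)
    (h4 : ∀ n, ∀ z : ℂ, ‖z‖ ≤ r n → ‖F (n + 1) z - F n z‖ ≤ η n / 2) :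
    ∃ f : ℂ → ℂ, TendstoLocallyUniformlyOn F f atTop (ball 0 1) ∧
      ∀ k, ∀ z : ℂ, ‖z‖ ≤ r k → ‖f z - F k z‖ ≤ η k := by
  have hmono : Monotone r := monotone_nat_of_le_succ h1
  have hdiff : ∀ k, ∀ z : ℂ, ‖z‖ ≤ r k → ∀ m, k ≤ m → ‖F m z - F k z‖ ≤ η k - η m := by
    intro k z hz m hm
    induction m, hm using Nat.le_induction with
    | base => simp
    | succ m hm ih =>
      have a1 := h4 m z (hz.trans (hmono hm))
      have a2 := h3 m
      have a3 := norm_sub_le_norm_sub_add_norm_sub (F (m + 1) z) (F m z) (F k z)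
      linarith
  have hηle : ∀ n, η n ≤ η 0 * (1 / 2) ^ n := by
    intro n
    induction n with
    | zero => simp
    | succ n ih =>
      have := h3 n
      rw [pow_succ]
      linarith
  have hη0 : Tendsto η atTop (𝓝 0) := by
    have t1 : Tendsto (fun n : ℕ => η 0 * (1 / 2 : ℝ) ^ n) atTop (𝓝 0) := by
      have := (tendsto_pow_atTop_nhds_zero_of_lt_one (r := (1 / 2 : ℝ)) (by norm_num)
        (by norm_num)).const_mul (η 0)
      simpa using this
    exact squeeze_zero (fun n => (hη n).le) hηle t1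
  have hrk : ∀ ρ : ℝ, ρ < 1 → ∀ᶠ k in atTop, ρ ≤ r k := by
    intro ρ hρ
    obtain ⟨n, hn⟩ := exists_nat_one_div_lt (K := ℝ) (sub_pos.2 hρ)
    filter_upwards [eventually_ge_atTop (n + 1)] with k hk
    have a1 := h2 n
    have a2 : r (n + 1) ≤ r k := hmono hk
    linarith
  have hpt : ∀ z : ℂ, ∃ b : ℂ, ‖z‖ < 1 → Tendsto (fun n => F n z) atTop (𝓝 b) := by
    intro z
    by_cases hz : ‖z‖ < 1
    · have hc : CauchySeq fun n => F n z := by
        rw [Metric.cauchySeq_iff']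
        intro e he
        obtain ⟨N, hN1, hN2⟩ := ((hrk _ hz).and (hη0.eventually (gt_mem_nhds he))).exists
        refine ⟨N, fun n hn => ?_⟩
        rw [dist_eq_norm]
        have a1 := hdiff N z hN1 n hn
        have a2 := hη n
        linarith
      obtain ⟨b, hb⟩ := cauchySeq_tendsto_of_complete hc
      exact ⟨b, fun _ => hb⟩
    · exact ⟨0, fun h => absurd h hz⟩
  choose f hf using hpt
  have hclose : ∀ k, ∀ z : ℂ, ‖z‖ ≤ r k → ‖f z - F k z‖ ≤ η k := by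
    intro k z hz
    have t1 : Tendsto (fun m => ‖F m z - F k z‖) atTop (𝓝 ‖f z - F k z‖) :=
      ((hf z (hz.trans_lt (hr k))).sub_const _).norm
    refine le_of_tendsto t1 ?_
    filter_upwards [eventually_ge_atTop k] with m hm
    have a1 := hdiff k z hz m hm
    have a2 := hη m
    linarith
  refine ⟨f, ?_, hclose⟩
  rw [Metric.tendstoLocallyUniformlyOn_iff]
  intro e he x hx
  have hx1 : ‖x‖ < 1 := by simpa using hx
  refine ⟨ball 0 ((‖x‖ + 1) / 2), mem_nhdsWithin_of_mem_nhds (isOpen_ball.mem_nhds ?_), ?_⟩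
  · rw [mem_ball_zero_iff]
    linarith
  · filter_upwards [hrk ((‖x‖ + 1) / 2) (by linarith), hη0.eventually (gt_mem_nhds he)]
      with k hk1 hk2 y hy
    rw [mem_ball_zero_iff] at hy
    rw [dist_eq_norm]
    exact (hclose k y (hy.le.trans hk1)).trans_lt hk2

lemma av_Iter {f g : ℂ → ℂ} (hf : DifferentiableOn ℂ f (ball 0 1))
    (hg : DifferentiableOn ℂ g (ball 0 1)) {z : ℂ} (hz : ‖z‖ < 1) {η : ℝ}
    (h : ∀ x : ℂ, ‖x‖ ≤ ‖z‖ → ‖f x - g x‖ ≤ η) : ‖Av f z - Av g z‖ ≤ η := by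
  have hn : ∀ t ∈ uIcc (0 : ℝ) 1, ‖(t : ℂ) * z‖ ≤ ‖z‖ := by
    intro t ht
    rw [uIcc_of_le zero_le_one] at ht
    rw [norm_mul, Complex.norm_real, Real.norm_eq_abs, abs_of_nonneg ht.1]
    exact mul_le_of_le_one_left (norm_nonneg _) ht.2
  have hi : ∀ u : ℂ → ℂ, DifferentiableOn ℂ u (ball 0 1) →
      IntervalIntegrable (fun t : ℝ => u (t * z)) volume 0 1 := fun u hu =>
    (hu.continuousOn.comp (by fun_prop : Continuous fun t : ℝ => (t : ℂ) * z).continuousOn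
      fun t ht => mem_ball_zero_iff.2 ((hn t ht).trans_lt hz)).intervalIntegrable
  rw [Av, Av, ← intervalIntegral.integral_sub (hi f hf) (hi g hg)]
  have := intervalIntegral.norm_integral_le_of_norm_le_const (a := 0) (b := 1) (C := η)
    (f := fun t : ℝ => f (t * z) - g (t * z)) fun t ht => h _ (hn t (uIoc_subset_uIcc ht))
  simpa using this

theorem iter_pf : IterStmt := by
  rintro P E hP ⟨f₀, h₀⟩ hstep
  have hhalf : ((1 / 2 : ℝ) : ℂ) ∈ ball (0 : ℂ) 1 := by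
    rw [mem_ball_zero_iff, Complex.norm_real, Real.norm_eq_abs, abs_of_pos (by norm_num)]
    norm_num
  have hzero : (0 : ℂ) ∈ ball (0 : ℂ) 1 := mem_ball_self one_pos
  have hne : f₀ ((1 / 2 : ℝ) : ℂ) ≠ f₀ 0 := by
    intro e
    have := (hP f₀ h₀).2.1 hhalf hzero e
    have h2 := congrArg Complex.re this
    simp at h2
  have hδ : 0 < ‖f₀ ((1 / 2 : ℝ) : ℂ) - f₀ 0‖ := norm_pos_iff.2 (sub_ne_zero.2 hne)
  set δ := ‖f₀ ((1 / 2 : ℝ) : ℂ) - f₀ 0‖ with hδdef
  let η : ℕ → ℝ := fun n => min 1 (δ / 3) * (1 / 2) ^ n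
  have hη : ∀ n, 0 < η n := fun n => by positivity
  have hη1 : ∀ n, η n ≤ 1 := fun n =>
    mul_le_one₀ (min_le_left _ _) (by positivity) (pow_le_one₀ (by norm_num) (by norm_num))
  have step : ∀ (n : ℕ) (s : {s : (ℂ → ℂ) × ℝ // P s.1 ∧ s.2 < 1}),
      ∃ t : {s : (ℂ → ℂ) × ℝ // P s.1 ∧ s.2 < 1}, s.1.2 ≤ t.1.2 ∧ 1 - 1 / ((n : ℝ) + 1) ≤ t.1.2 ∧
        (∀ z : ℂ, ‖z‖ ≤ s.1.2 → ‖t.1.1 z - s.1.1 z‖ ≤ η n / 2) ∧
        ∃ z : ℂ, ‖z‖ ≤ t.1.2 ∧ ‖Av t.1.1 z‖ ≤ 1 ∧ (n : ℝ) + 1 ≤ (1 - ‖z‖ ^ 2) * ‖t.1.1 z‖ := by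
    intro n s
    obtain ⟨g, hg, hc, z, hz, h1, h2⟩ := hstep _ s.2.1 s.1.2 (η n / 2) (n + 1) s.2.2
      (half_pos (hη n))
    have h3 : (0 : ℝ) < 1 / ((n : ℝ) + 1) := by positivity
    exact ⟨⟨(g, max (max s.1.2 ‖z‖) (1 - 1 / ((n : ℝ) + 1))), hg,
      max_lt (max_lt s.2.2 (mem_ball_zero_iff.1 hz)) (by linarith)⟩,
      (le_max_left _ _).trans (le_max_left _ _), le_max_right _ _, hc, z,
      (le_max_right _ _).trans (le_max_left _ _), h1, h2⟩
  choose T hT using step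
  let s : ℕ → {s : (ℂ → ℂ) × ℝ // P s.1 ∧ s.2 < 1} := fun n =>
    Nat.rec ⟨(f₀, 1 / 2), h₀, by norm_num⟩ (fun n s => T n s) n
  obtain ⟨f, hlim, hclose⟩ := limit_Iter (fun n => (s n).1.1) (fun n => (s n).1.2) η
    (fun n => (s n).2.2) hη (fun n => (hT n (s n)).1) (fun n => (hT n (s n)).2.1)
    (fun n => by simp only [η, pow_succ]; linarith) (fun n => (hT n (s n)).2.2.1)
  have hd : ∀ n, DifferentiableOn ℂ (s n).1.1 (ball 0 1) := fun n => (hP _ (s n).2.1).1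
  have hfd : DifferentiableOn ℂ f (ball 0 1) :=
    hlim.differentiableOn (Eventually.of_forall hd) isOpen_ball
  have hc0 : ∀ z : ℂ, ‖z‖ ≤ 1 / 2 → ‖f z - f₀ z‖ ≤ δ / 3 := fun z hz =>
    (hclose 0 z hz).trans (by simp only [η, pow_zero, mul_one]; exact min_le_right _ _)
  have hfne : f ((1 / 2 : ℝ) : ℂ) ≠ f 0 := by
    intro e
    have a1 := hc0 ((1 / 2 : ℝ) : ℂ) (by
      rw [Complex.norm_real, Real.norm_eq_abs, abs_of_pos (by norm_num)])
    have a2 := hc0 0 (by rw [norm_zero]; norm_num)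
    have a3 := norm_sub_le_norm_sub_add_norm_sub (f₀ ((1 / 2 : ℝ) : ℂ)) (f 0) (f₀ 0)
    rw [e, norm_sub_rev] at a1
    rw [← hδdef] at a3
    linarith
  have hnc : ∀ z₀ ∈ ball (0 : ℂ) 1, ¬ ∀ᶠ z in 𝓝 z₀, f z = f z₀ := fun z₀ hz₀ =>
    Pool.Agent.MP_1a2790_an.not_eventually_const isOpen_ball
      (convex_ball (0 : ℂ) 1).isPreconnected hfd hhalf hzero hfne hz₀
  refine ⟨f, hfd, Pool.Agent.MP_1a2790_an.limit_injOn isOpen_ball hd hlim hnc
    fun n => (hP _ (s n).2.1).2.1, fun z hz hE => Pool.Agent.MP_1a2790_an.limit_ne isOpen_ball hd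
      hlim hnc (a := f z) (fun n w hw e => (hP _ (s n).2.1).2.2 w hw (e ▸ hE)) z hz rfl, fun M => ?_⟩
  obtain ⟨n, hn⟩ := exists_nat_ge M
  obtain ⟨z, hz, h1, h2⟩ := (hT n (s n)).2.2.2
  have hz1 : ‖z‖ < 1 := hz.trans_lt (s (n + 1)).2.2
  have hc : ∀ x : ℂ, ‖x‖ ≤ ‖z‖ → ‖f x - (s (n + 1)).1.1 x‖ ≤ 1 := fun x hx =>
    (hclose (n + 1) x (hx.trans hz)).trans (hη1 _)
  have a1 := av_Iter hfd (hd (n + 1)) hz1 hc
  have a2 := hc z le_rfl
  change ‖Av (s (n + 1)).1.1 z‖ ≤ 1 at h1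
  change (n : ℝ) + 1 ≤ (1 - ‖z‖ ^ 2) * ‖(s (n + 1)).1.1 z‖ at h2
  refine ⟨z, mem_ball_zero_iff.2 hz1, ?_, ?_⟩
  · have := norm_le_norm_add_norm_sub' (Av f z) (Av (s (n + 1)).1.1 z)
    linarith
  · have a3 := norm_le_norm_add_norm_sub (f z) ((s (n + 1)).1.1 z)
    have h0 := norm_nonneg z
    have q0 : 0 ≤ 1 - ‖z‖ ^ 2 := by nlinarith
    have q1 : 1 - ‖z‖ ^ 2 ≤ 1 := by nlinarith
    have a4 : (1 - ‖z‖ ^ 2) * ‖(s (n + 1)).1.1 z‖ ≤ (1 - ‖z‖ ^ 2) * (‖f z‖ + 1) :=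
      mul_le_mul_of_nonneg_left (by linarith) q0
    rw [mul_add, mul_one] at a4
    linarith

end Pool.Agent.MP_32357e_an.Sec

end

section

/-! Growth of functions with positive real part, and primitives on the disc. -/

set_option autoImplicit false

open Complex Set Filter Topology Metric MeasureTheory
open scoped ComplexConjugate

noncomputable section

namespace Pool.Agent.MP_32357e_an.Sec

lemma ne_Grow {a b : ℂ} (ha : 0 < a.re) (hb : 0 < b.re) : a + conj b ≠ 0 := fun h => by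
  have := congrArg re h
  simp only [add_re, conj_re, zero_re] at this
  linarith

lemma le_Grow {a b : ℂ} (ha : 0 < a.re) (hb : 0 < b.re) : ‖(a - b) / (a + conj b)‖ ≤ 1 := by
  rw [norm_div, div_le_one (norm_pos_iff.2 (ne_Grow ha hb)),
    ← sq_le_sq₀ (norm_nonneg _) (norm_nonneg _), ← normSq_eq_norm_sq, ← normSq_eq_norm_sq]
  simp only [normSq_apply, sub_re, sub_im, add_re, add_im, conj_re, conj_im]
  nlinarith [mul_pos ha hb]

theorem grow_pf : GrowStmt := by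
  intro p hp hpos z hz
  have hd : ∀ b : ℂ, 0 < b.re →
      DifferentiableOn ℂ (fun w => (p w - b) / (p w + conj b)) (ball 0 1) := fun b hb =>
    (hp.sub_const b).div (hp.add_const _) fun w hw => ne_Grow (hpos w hw) hb
  have h0 := hpos 0 (mem_ball_self one_pos)
  have hz' := hpos z hz
  have hz1 : ‖z‖ < 1 := mem_ball_zero_iff.1 hz
  constructor
  · have h1 := norm_le_norm_of_mapsTo_ball (hd _ h0)
      (fun w hw => mem_closedBall_zero_iff.2 (le_Grow (hpos w hw) h0)) (by simp) hz1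
    rw [norm_div, div_le_iff₀ (norm_pos_iff.2 (ne_Grow hz' h0))] at h1
    have h2 := norm_sub_norm_le (p z) (p 0)
    have h3 := norm_add_le (p z) (conj (p 0))
    rw [norm_conj] at h3
    have h4 := mul_le_mul_of_nonneg_left h3 (norm_nonneg z)
    have h5 := mul_le_mul_of_nonneg_right hz1.le (norm_nonneg (p 0))
    linarith
  · have hs : ball z (1 - ‖z‖) ⊆ ball 0 1 := ball_subset_ball' (by simp)
    have h1 := norm_deriv_le_div_of_mapsTo_ball (R₂ := 1) ((hd _ hz').mono hs)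
      (fun w hw => by simpa using le_Grow (hpos w (hs hw)) hz') (by linarith)
    have h2 := (hp.differentiableAt (isOpen_ball.mem_nhds hz)).hasDerivAt
    have h3 := ((h2.sub_const (p z)).fun_div (h2.add_const (conj (p z))) (ne_Grow hz' hz')).deriv
    have h4 : (0 : ℝ) < 2 * (p z).re := by linarith
    rw [h3, sub_self, zero_mul, sub_zero, pow_two, mul_div_mul_right _ _ (ne_Grow hz' hz'),
      add_conj, norm_div, norm_real, Real.norm_of_nonneg h4.le,
      div_le_div_iff₀ h4 (by linarith)] at h1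
    linarith

theorem prim_pf : PrimStmt := by
  intro f hf
  refine ⟨?_, fun F h0 hF z hz => ?_⟩
  · obtain ⟨G, hG⟩ := hf.isExactOn_ball
    exact ⟨fun z => G z - G 0, sub_self _, fun z hz => (hG z hz).sub_const _⟩
  have hm : ∀ t ∈ uIcc (0 : ℝ) 1, (t : ℂ) * z ∈ ball (0 : ℂ) 1 := fun t ht => by
    rw [uIcc_of_le zero_le_one] at ht
    rw [mem_ball_zero_iff] at hz ⊢
    rw [norm_mul, norm_real, Real.norm_of_nonneg ht.1]
    exact (mul_le_of_le_one_left (norm_nonneg _) ht.2).trans_lt hz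
  have h1 := intervalIntegral.integral_eq_sub_of_hasDerivAt (f := fun t : ℝ => F (t * z))
    (f' := fun t : ℝ => z * f (t * z)) (a := 0) (b := 1) (fun t ht => by
      have h2 : HasDerivAt (fun s : ℂ => s * z) z t := by
        simpa using (hasDerivAt_id (t : ℂ)).mul_const z
      have h3 := ((hF _ (hm t ht)).comp (t : ℂ) h2).comp_ofReal
      rw [mul_comm (f _)] at h3
      exact h3)
    ((continuousOn_const.mul (hf.continuousOn.comp (f := fun t : ℝ => (t : ℂ) * z) (by fun_prop)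
      hm)).intervalIntegrable)
  rw [intervalIntegral.integral_const_mul] at h1
  simp only [ofReal_one, ofReal_zero, one_mul, zero_mul, h0, sub_zero] at h1
  exact h1.symm

end Pool.Agent.MP_32357e_an.Sec

end
end

section

/-! The spiral example. -/

set_option autoImplicit false

open Complex Set Filter Topology Metric MeasureTheory
open scoped ComplexConjugate

noncomputable section

namespace Pool.Agent.MP_32357e_an.Sec

lemma pert_Spir {b : ℝ} (hb : |b| ≤ 1) (k : ℂ) {x : ℂ} (hx : |x.im| < Real.pi / 2) :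
    ‖k * exp (b * I * x)‖ ≤ 8 * ‖k‖ := by
  rw [norm_mul, Complex.norm_exp, mul_comm]
  refine mul_le_mul_of_nonneg_right ?_ (norm_nonneg _)
  have h1 : ((b : ℂ) * I * x).re = -(b * x.im) := by simp
  have h2 : -(b * x.im) ≤ 1 + 1 := by
    have a1 := neg_abs_le (b * x.im)
    have a2 : |b * x.im| ≤ 1 * |x.im| := by
      rw [abs_mul]
      exact mul_le_mul_of_nonneg_right hb (abs_nonneg _)
    have a3 := Real.pi_lt_four
    linarith
  have h3 := Real.exp_le_exp.mpr h2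
  have h4 := Real.exp_one_lt_d9
  have h5 := Real.exp_pos 1
  rw [Real.exp_add] at h3
  rw [h1]
  nlinarith

lemma half_Spir {u : ℂ} (hu : ‖u‖ ≤ 1 / 2) :
    1 - u ∈ slitPlane ∧ ‖log (1 - u)‖ ≤ 2 * ‖u‖ ∧ 1 / 2 ≤ ‖1 - u‖ := by
  have h1 := Complex.re_le_norm u
  have h2 : 1 / 2 ≤ (1 - u).re := by
    rw [sub_re, one_re]
    linarith
  refine ⟨Or.inl (by linarith), ?_, le_trans h2 (Complex.re_le_norm _)⟩
  have h3 := Complex.norm_log_one_add_half_le_self (z := -u) (by rwa [norm_neg])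
  rw [norm_neg, ← sub_eq_add_neg] at h3
  linarith [norm_nonneg u]

lemma strip_Spir : Convex ℝ {x : ℂ | |x.im| < Real.pi / 2} := by
  have h : {x : ℂ | |x.im| < Real.pi / 2}
      = {x : ℂ | -(Real.pi / 2) < x.im} ∩ {x : ℂ | x.im < Real.pi / 2} := by
    ext x
    simp [abs_lt]
  rw [h]
  exact (convex_halfSpace_im_gt _).inter (convex_halfSpace_im_lt _)

lemma lip_Spir {b : ℝ} (hb : |b| ≤ 1) {k : ℂ} (hk : 16 * ‖k‖ ≤ 1) {x y : ℂ}
    (hx : |x.im| < Real.pi / 2) (hy : |y.im| < Real.pi / 2) :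
    ‖log (1 - k * exp (b * I * x)) - log (1 - k * exp (b * I * y))‖ ≤ 16 * ‖k‖ * ‖x - y‖ := by
  refine strip_Spir.norm_image_sub_le_of_norm_hasDerivWithin_le
    (f := fun x => log (1 - k * exp (b * I * x)))
    (f' := fun x => -(k * (exp (b * I * x) * (b * I))) / (1 - k * exp (b * I * x)))
    (fun u hu => ?_) (fun u hu => ?_) hy hx
  · have h0 := half_Spir (le_trans (pert_Spir hb k hu) (by linarith))
    have h1 : HasDerivAt (fun x : ℂ => b * I * x) (b * I) u := by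
      simpa using (hasDerivAt_id u).const_mul ((b : ℂ) * I)
    exact (((h1.cexp.const_mul k).const_sub 1).clog h0.1).hasDerivWithinAt
  · have h1 := pert_Spir hb k hu
    have h0 := half_Spir (le_trans h1 (by linarith))
    have h2 : ‖(b : ℂ) * I‖ ≤ 1 := by
      rwa [norm_mul, norm_I, mul_one, Complex.norm_real, Real.norm_eq_abs]
    have h3 := mul_le_mul h1 h2 (norm_nonneg _) (by positivity)
    have h4 := mul_le_mul_of_nonneg_left h0.2.2 (by positivity : 0 ≤ 16 * ‖k‖)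
    rw [norm_div, norm_neg, ← mul_assoc, norm_mul, div_le_iff₀ (by linarith [h0.2.2])]
    linarith

/-- The logarithm of the lifted function. -/
def lam_Spir (c k : ℂ) (s b : ℝ) (x : ℂ) : ℂ := s * x + log (1 - k * exp (b * I * x)) / c

lemma inj_Spir {c k : ℂ} {s b : ℝ} (hc : 1 ≤ ‖c‖) (hb : |b| ≤ 1) (hs : 1 / 2 < s)
    (hk : 16 * ‖k‖ ≤ 1 - s) {x y : ℂ} (hx : |x.im| < Real.pi / 2) (hy : |y.im| < Real.pi / 2)
    (h : lam_Spir c k s b x = lam_Spir c k s b y) : x = y := by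
  have h1 := lip_Spir hb (k := k) (by linarith) hx hy
  have h2 : (s : ℂ) * (x - y) =
      -((log (1 - k * exp (b * I * x)) - log (1 - k * exp (b * I * y))) / c) := by
    simp only [lam_Spir] at h
    linear_combination h
  have h3 := congrArg norm h2
  rw [norm_mul, norm_neg, norm_div, Complex.norm_real, Real.norm_eq_abs,
    abs_of_pos (by linarith)] at h3
  have h4 := div_le_self (norm_nonneg
    (log (1 - k * exp (b * I * x)) - log (1 - k * exp (b * I * y)))) hc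
  have h5 := mul_le_mul_of_nonneg_right hk (norm_nonneg (x - y))
  have h6 : (2 * s - 1) * ‖x - y‖ ≤ 0 := by linarith
  have h7 : ‖x - y‖ ≤ 0 := by
    by_contra hn
    have := mul_pos (by linarith : 0 < 2 * s - 1) (not_le.mp hn)
    linarith
  exact sub_eq_zero.mp (norm_le_zero_iff.mp h7)

lemma im_Spir {c k : ℂ} {s b : ℝ} (hc : 1 ≤ ‖c‖) (hb : |b| ≤ 1) (hs : 1 / 2 < s)
    (hk : 16 * ‖k‖ ≤ 1 - s) {x : ℂ} (hx : |x.im| < Real.pi / 2) :
    |(lam_Spir c k s b x).im| < Real.pi / 2 := by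
  have h1 := pert_Spir hb k hx
  have h0 := half_Spir (le_trans h1 (by linarith))
  have h2 := div_le_self (norm_nonneg (log (1 - k * exp (b * I * x)))) hc
  have h3 := abs_im_le_norm (log (1 - k * exp (b * I * x)) / c)
  rw [norm_div] at h3
  have h4 : (lam_Spir c k s b x).im = s * x.im + (log (1 - k * exp (b * I * x)) / c).im := by
    simp only [lam_Spir, add_im, mul_im, ofReal_re, ofReal_im, zero_mul, add_zero]
  have h5 := abs_add_le (s * x.im) (log (1 - k * exp (b * I * x)) / c).im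
  rw [abs_mul, abs_of_pos (by linarith : 0 < s)] at h5
  have h6 := mul_lt_mul_of_pos_left hx (by linarith : 0 < s)
  have h7 : (1 - s) * 1 ≤ (1 - s) * (Real.pi / 2) :=
    mul_le_mul_of_nonneg_left (by linarith [Real.pi_gt_three]) (by linarith [norm_nonneg k])
  rw [h4]
  linarith [h0.2.1]

lemma expinj_Spir {c u v : ℂ} (hc : normSq c ≤ 2 * c.re) (hc1 : 0 < c.re)
    (hu : |u.im| < Real.pi / 2) (hv : |v.im| < Real.pi / 2) (h : exp (c * u) = exp (c * v)) :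
    u = v := by
  obtain ⟨n, hn⟩ := Complex.exp_eq_exp_iff_exists_int.mp h
  have hc0 : c ≠ 0 := fun e => by rw [e] at hc1; simp at hc1
  have h1 : (normSq c : ℂ) * (u - v) = conj c * (n * (2 * Real.pi * I)) := by
    rw [normSq_eq_conj_mul_self]
    linear_combination (conj c) * hn
  have h2 : normSq c * (u.im - v.im) = c.re * (n * (2 * Real.pi)) := by
    have := congrArg Complex.im h1
    simpa using this
  have hpi := Real.pi_pos
  have h3 : |u.im - v.im| < Real.pi := by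
    have := abs_sub u.im v.im
    linarith
  have h4 : c.re * (|(n : ℝ)| * (2 * Real.pi)) < c.re * (1 * (2 * Real.pi)) := by
    have a1 := congrArg abs h2
    rw [abs_mul, abs_mul, abs_mul, abs_of_nonneg (normSq_nonneg c), abs_of_pos hc1,
      abs_of_pos (by linarith : 0 < 2 * Real.pi)] at a1
    have a2 := mul_le_mul_of_nonneg_right hc (abs_nonneg (u.im - v.im))
    have a3 := mul_lt_mul_of_pos_left h3 hc1
    linarith
  have h5 : |(n : ℝ)| < 1 := lt_of_mul_lt_mul_right (lt_of_mul_lt_mul_left h4 hc1.le) (by linarith)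
  have h6 : n = 0 := by
    have : |n| < 1 := by exact_mod_cast h5
    have := abs_lt.mp this
    omega
  rw [h6] at hn
  simp only [Int.cast_zero, zero_mul, add_zero] at hn
  exact mul_left_cancel₀ hc0 hn

lemma log_Spir {z : ℂ} (hz : z ∈ ball (0 : ℂ) 1) :
    |(-log (1 - z)).im| < Real.pi / 2 ∧ exp (log (1 - z)) = 1 - z ∧
      HasDerivAt (fun z : ℂ => -log (1 - z)) (exp (-log (1 - z))) z := by
  have h0 : 0 < (1 - z).re := by
    rw [mem_ball_zero_iff] at hz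
    have := Complex.re_le_norm z
    rw [sub_re, one_re]
    linarith
  have h1 : 1 - z ∈ slitPlane := Or.inl h0
  have h2 := Complex.exp_log (slitPlane_ne_zero h1)
  refine ⟨?_, h2, ?_⟩
  · rw [neg_im, abs_neg, log_im]
    exact abs_arg_lt_pi_div_two_iff.mpr (Or.inl h0)
  · have h3 : HasDerivAt (fun z : ℂ => 1 - z) (-1) z := by
      simpa using (hasDerivAt_id z).const_sub 1
    refine HasDerivAt.congr_deriv (h3.clog h1).neg ?_
    rw [Complex.exp_neg, h2]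
    ring

lemma unb_Spir {a b : ℝ} {k : ℂ} (ha : 0 < a) (hb0 : b ≠ 0) (hb : |b| ≤ 1) (hk : ‖k‖ ≤ 1 / 2)
    (C : ℝ) : ∃ z ∈ ball (0 : ℂ) 1,
      exp ((a - b * I) * -log (1 - z)) - exp (a * -log (1 - z)) = 0 ∧
      C < (1 - ‖z‖ ^ 2) *
        ‖exp ((1 + a - b * I) * -log (1 - z)) * (1 - k * exp (b * I * -log (1 - z)))‖ := by
  obtain ⟨n, hn⟩ := exists_nat_gt (2 * C / a)
  obtain ⟨σ, hσ⟩ : ∃ σ : ℤ, (σ : ℝ) * |b| = b := by
    rcases abs_choice b with h | h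
    · exact ⟨1, by rw [h]; simp⟩
    · exact ⟨-1, by rw [h]; simp⟩
  have hb1 : 0 < |b| := abs_pos.mpr hb0
  obtain ⟨t, ht⟩ : ∃ t : ℝ, t = 2 * Real.pi * n / |b| := ⟨_, rfl⟩
  have hpi := Real.pi_gt_three
  have hn0 : (0 : ℝ) ≤ n := Nat.cast_nonneg n
  have ht0 : (n : ℝ) ≤ t := by
    rw [ht, le_div_iff₀ hb1]
    nlinarith
  have hbt : b * t = σ * n * (2 * Real.pi) := by
    have : t * |b| = 2 * Real.pi * n := by rw [ht, div_mul_cancel₀ _ hb1.ne']
    linear_combination (-t) * hσ + σ * this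
  have he0 : 0 < Real.exp (-t) := Real.exp_pos _
  have he1 : Real.exp (-t) ≤ 1 := Real.exp_le_one_iff.mpr (by linarith)
  have hnorm : ‖((1 - Real.exp (-t) : ℝ) : ℂ)‖ = 1 - Real.exp (-t) := by
    rw [Complex.norm_real, Real.norm_eq_abs, abs_of_nonneg (by linarith)]
  have hlog : -log (1 - ((1 - Real.exp (-t) : ℝ) : ℂ)) = (t : ℂ) := by
    have : (1 - ((1 - Real.exp (-t) : ℝ) : ℂ)) = ((Real.exp (-t) : ℝ) : ℂ) := by
      push_cast
      ring
    rw [this, ← Complex.ofReal_log he0.le, Real.log_exp, ofReal_neg, neg_neg]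
  have hrot : exp (b * I * (t : ℂ)) = 1 := by
    have h1 : (b : ℂ) * t = σ * n * (2 * Real.pi) := by exact_mod_cast hbt
    have h2 : b * I * (t : ℂ) = ((σ * n : ℤ) : ℂ) * (2 * Real.pi * I) := by
      push_cast
      linear_combination I * h1
    rw [h2]
    exact Complex.exp_int_mul_two_pi_mul_I _
  refine ⟨((1 - Real.exp (-t) : ℝ) : ℂ), ?_, ?_, ?_⟩
  · rw [mem_ball_zero_iff, hnorm]
    linarith
  · rw [hlog, sub_mul, Complex.exp_sub, hrot, div_one, sub_self]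
  · have h2 : (1 + (a : ℂ)) * t = (((1 + a) * t : ℝ) : ℂ) := by push_cast; ring
    rw [hlog, sub_mul (1 + (a : ℂ)), Complex.exp_sub, hrot, div_one, mul_one, hnorm, norm_mul, h2,
      Complex.norm_exp_ofReal]
    have h3 := (half_Spir hk).2.2
    have h4 : Real.exp (-t) * Real.exp ((1 + a) * t) = Real.exp (a * t) := by
      rw [← Real.exp_add]
      congr 1
      ring
    have h5 : a * t + 1 ≤ Real.exp (a * t) := Real.add_one_le_exp _
    have h6 : Real.exp (-t) ≤ 1 - (1 - Real.exp (-t)) ^ 2 := by nlinarith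
    have h7 : 0 < Real.exp ((1 + a) * t) := Real.exp_pos _
    have h8 := mul_le_mul h6 (mul_le_mul_of_nonneg_left h3 h7.le) (by positivity) (by linarith)
    have h9 := mul_le_mul_of_nonneg_left ht0 ha.le
    rw [div_lt_iff₀ ha] at hn
    rw [← mul_assoc, h4] at h8
    linarith

lemma core_Spir {c k : ℂ} {s a b : ℝ} (hc : 1 ≤ ‖c‖) (hc1 : normSq c ≤ 2 * c.re) (hc2 : 0 < c.re)
    (hsc : s * c = 1 + a - b * I) (ha : 0 < a) (hb0 : b ≠ 0) (hb : |b| ≤ 1) (hs : 1 / 2 < s)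
    (hka : k * (a - b * I) = a) (hk : 16 * ‖k‖ ≤ 1 - s) :
    ∃ f F : ℂ → ℂ, DifferentiableOn ℂ f (ball 0 1) ∧ InjOn f (ball 0 1) ∧
      (∀ z ∈ ball (0 : ℂ) 1, ∃ w : ℂ, 0 < w.re ∧ f z = w ^ c) ∧ F 0 = 0 ∧
      (∀ z ∈ ball (0 : ℂ) 1, HasDerivAt F (f z) z) ∧ ¬ Nrm f F := by
  have hc0 : c ≠ 0 := fun e => by rw [e] at hc2; simp at hc2
  have hab : (a : ℂ) - b * I ≠ 0 := fun e => by
    have := congrArg Complex.re e
    simp at this
    exact ha.ne' this
  have key : ∀ x : ℂ, |x.im| < Real.pi / 2 →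
      exp ((1 + a - b * I) * x) * (1 - k * exp (b * I * x)) = exp (c * lam_Spir c k s b x) := by
    intro x hx
    have h0 := half_Spir (le_trans (pert_Spir hb k hx) (by linarith))
    have h1 : c * lam_Spir c k s b x = (1 + a - b * I) * x + log (1 - k * exp (b * I * x)) := by
      rw [lam_Spir, mul_add, mul_div_cancel₀ _ hc0, ← hsc]
      ring
    rw [h1, Complex.exp_add, Complex.exp_log (slitPlane_ne_zero h0.1)]
  refine ⟨fun z => exp ((1 + a - b * I) * -log (1 - z)) * (1 - k * exp (b * I * -log (1 - z))),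
    fun z => (exp ((a - b * I) * -log (1 - z)) - exp (a * -log (1 - z))) / (a - b * I),
    fun z hz => ?_, fun z hz w hw h => ?_, fun z hz => ?_, by simp, fun z hz => ?_, ?_⟩
  · have h := (log_Spir hz).2.2
    exact ((h.const_mul _).cexp.mul (((h.const_mul _).cexp.const_mul k).const_sub 1)).differentiableAt
      |>.differentiableWithinAt
  · have h1 := log_Spir hz
    have h2 := log_Spir hw
    simp only [key _ h1.1, key _ h2.1] at h
    have h3 := inj_Spir hc hb hs hk h1.1 h2.1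
      (expinj_Spir hc1 hc2 (im_Spir hc hb hs hk h1.1) (im_Spir hc hb hs hk h2.1) h)
    have h4 := congrArg exp (neg_injective h3)
    rw [h1.2.1, h2.2.1] at h4
    exact sub_right_injective h4
  · have h1 := (log_Spir hz).1
    have h2 := abs_lt.mp (im_Spir hc hb hs hk h1)
    have hpi := Real.pi_pos
    refine ⟨exp (lam_Spir c k s b (-log (1 - z))), ?_, ?_⟩
    · rw [exp_re]
      exact mul_pos (Real.exp_pos _) (Real.cos_pos_of_mem_Ioo h2)
    · rw [cpow_def_of_ne_zero (exp_ne_zero _), Complex.log_exp (by linarith [h2.1])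
        (by linarith [h2.2]), mul_comm _ c]
      exact key _ h1
  · have h := (log_Spir hz).2.2
    refine HasDerivAt.congr_deriv
      ((((h.const_mul _).cexp).sub (h.const_mul _).cexp).div_const _) ?_
    beta_reduce
    generalize -log (1 - z) = x
    have e1 : exp ((1 + a - b * I) * x) = exp ((a - b * I) * x) * exp x := by
      rw [← Complex.exp_add]
      congr 1
      ring
    have e2 : exp (a * x) = exp ((a - b * I) * x) * exp (b * I * x) := by
      rw [← Complex.exp_add]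
      congr 1
      ring
    rw [div_eq_iff hab, e1, e2]
    linear_combination (exp ((a - b * I) * x) * exp (b * I * x) * exp x) * hka
  · rintro ⟨C, hC⟩
    obtain ⟨z, hz, h1, h2⟩ := unb_Spir (k := k) ha hb0 hb (by linarith) C
    have h3 := hC z hz
    simp only [h1, zero_div, norm_zero] at h3
    norm_num at h3 h2
    linarith

theorem spir_pf : SpirStmt := by
  intro c h1 h2 h3
  have hre : c.re ≤ 2 := by
    have := Complex.re_le_norm (c - 1)
    rw [sub_re, one_re] at this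
    linarith
  have him : |c.im| ≤ 1 := by
    have := abs_im_le_norm (c - 1)
    rw [sub_im, one_im, sub_zero] at this
    linarith
  have hq : normSq c ≤ 2 * c.re := by
    have a1 : ‖c - 1‖ ^ 2 ≤ 1 := pow_le_one₀ (norm_nonneg _) h1
    rw [← normSq_eq_norm_sq, normSq_apply, sub_re, sub_im, one_re, one_im] at a1
    rw [normSq_apply]
    linarith
  have hi : 0 < |c.im| := abs_pos.mpr h3
  have hr : 0 < c.re := by linarith
  obtain ⟨a, ha⟩ : ∃ a : ℝ, a = (c.re - 1) * |c.im| / 100 := ⟨_, rfl⟩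
  have ha0 : 0 < a := by
    rw [ha]
    have : 0 < c.re - 1 := by linarith
    positivity
  have ha1 : a ≤ (c.re - 1) / 100 := by
    have := mul_le_mul_of_nonneg_left him (by linarith : 0 ≤ c.re - 1)
    linarith
  obtain ⟨s, hs⟩ : ∃ s : ℝ, s * c.re = 1 + a := ⟨(1 + a) / c.re, div_mul_cancel₀ _ hr.ne'⟩
  have hs1 : 1 / 2 < s := by
    by_contra hn
    have := mul_le_mul_of_nonneg_right (not_lt.mp hn) hr.le
    linarith
  have hs2 : (c.re - 1) * (2 / 5) ≤ 1 - s := by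
    by_contra hn
    have a1 := mul_lt_mul_of_pos_right (not_le.mp hn) hr
    have a2 := mul_le_mul_of_nonneg_left hre (by linarith : 0 ≤ c.re - 1)
    linarith
  have hb : |-(s * c.im)| = s * |c.im| := by rw [abs_neg, abs_mul, abs_of_pos (by linarith)]
  have hab : s * |c.im| ≤ ‖(a : ℂ) - (-(s * c.im) : ℝ) * I‖ := by
    have := abs_im_le_norm ((a : ℂ) - (-(s * c.im) : ℝ) * I)
    rwa [sub_im, ofReal_im, mul_I_im, ofReal_re, zero_sub, abs_neg, hb] at this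
  have hab0 : 0 < s * |c.im| := by positivity
  refine core_Spir (s := s) (a := a) (b := -(s * c.im)) (k := a / (a - (-(s * c.im) : ℝ) * I))
    (le_trans h2.le (Complex.re_le_norm c)) hq hr ?_ ha0
    (neg_ne_zero.mpr (mul_ne_zero (by linarith) h3)) ?_ hs1
    (div_mul_cancel₀ _ (norm_pos_iff.mp (lt_of_lt_of_le hab0 hab))) ?_
  · apply Complex.ext
    · simpa using hs
    · simp
  · rw [hb]
    exact mul_le_one₀ (by linarith) hi.le him
  · rw [norm_div, Complex.norm_real, Real.norm_eq_abs, abs_of_pos ha0]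
    have a1 : a / ‖(a : ℂ) - (-(s * c.im) : ℝ) * I‖ ≤ (c.re - 1) / 50 := by
      rw [div_le_iff₀ (lt_of_lt_of_le hab0 hab)]
      have b1 := mul_le_mul_of_nonneg_right hs1.le hi.le
      have b2 := mul_le_mul_of_nonneg_left (le_trans b1 hab) (by linarith : 0 ≤ (c.re - 1) / 50)
      linarith
    linarith

end Pool.Agent.MP_32357e_an.Sec

end
end

section

set_option autoImplicit false

open Complex Set Filter Topology Metric MeasureTheory
open scoped ComplexConjugate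

noncomputable section

namespace Pool.Agent.MP_32357e_an.Sec

lemma red_Pos {f F : ℂ → ℂ} {C : ℝ}
    (h : ∀ z ∈ ball (0 : ℂ) 1, (1 - ‖z‖) * ‖f z‖ ≤ C * (1 + ‖F z‖)) : Nrm f F := by
  refine ⟨4 * |C|, fun z hz => ?_⟩
  have h1 := h z hz
  have h2 : ‖z‖ < 1 := by simpa using hz
  have h3 := norm_nonneg z
  have h4 := norm_nonneg (f z)
  have h5 := norm_nonneg (F z)
  have h6 : C * (1 + ‖F z‖) ≤ |C| * (2 * (1 + ‖F z‖ ^ 2)) :=
    mul_le_mul (le_abs_self C) (by nlinarith [sq_nonneg (‖F z‖ - 1)]) (by positivity) (abs_nonneg C)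
  have h7 : (1 - ‖z‖ ^ 2) * ‖f z‖ ≤ 2 * ((1 - ‖z‖) * ‖f z‖) := by
    nlinarith [mul_nonneg (sq_nonneg (1 - ‖z‖)) h4]
  rw [div_le_iff₀ (by positivity)]
  linarith

lemma pow_Pos {c w : ℂ} (h0 : 0 ≤ c.re) (h1 : c.re ≤ 1) (hw : 0 < w.re) :
    ‖w ^ c‖ ≤ Real.exp (Real.pi * |c.im|) * (1 + ‖w‖) := by
  have hw0 : w ≠ 0 := fun h => by simp [h] at hw
  have a1 : ‖w‖ ^ c.re ≤ 1 + ‖w‖ := by
    rcases le_total ‖w‖ 1 with h | h
    · linarith [Real.rpow_le_one (norm_nonneg w) h h0, norm_nonneg w]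
    · have := Real.rpow_le_rpow_of_exponent_le h h1
      rw [Real.rpow_one] at this
      linarith
  have a2 : -(arg w * c.im) ≤ Real.pi * |c.im| := by
    refine (neg_le_abs _).trans ?_
    rw [abs_mul]
    exact mul_le_mul_of_nonneg_right (abs_arg_le_pi w) (abs_nonneg _)
  rw [norm_cpow_of_ne_zero hw0, div_eq_mul_inv, ← Real.exp_neg, mul_comm]
  exact mul_le_mul (Real.exp_le_exp.2 a2) a1 (by positivity) (by positivity)

theorem pos_pf (hL : LiftStmt) (hG : GrowStmt) (hR : RealStmt) : PosStmt := by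
  intro c hc hc' f F a b hf hw hF0 hF
  have hz1 : ∀ z ∈ ball (0 : ℂ) 1, 0 ≤ 1 - ‖z‖ ∧ ‖z‖ ≤ 1 := fun z hz => by
    have h2 : ‖z‖ < 1 := by simpa using hz
    exact ⟨by linarith, h2.le⟩
  by_cases h0 : c = 0 ∨ b = 0
  · refine red_Pos (C := ‖a‖ + ‖b‖) fun z hz => ?_
    obtain ⟨w, -, e⟩ := hw z hz
    have h1 : ‖f z‖ ≤ ‖a‖ + ‖b‖ := by
      rw [e]
      rcases h0 with h | h
      · rw [h, cpow_zero, mul_one]
        exact norm_add_le _ _
      · simp [h]
    nlinarith [norm_nonneg z, norm_nonneg (f z), norm_nonneg (F z), norm_nonneg a, norm_nonneg b,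
      mul_nonneg (norm_nonneg z) (norm_nonneg (f z)),
      mul_nonneg (add_nonneg (norm_nonneg a) (norm_nonneg b)) (norm_nonneg (F z))]
  obtain ⟨c0, b0⟩ := not_or.1 h0
  obtain ⟨p, hp, hp'⟩ := hL c hc c0 (fun z => (f z - a) / b) ((hf.sub_const a).div_const b)
    fun z hz => by
      obtain ⟨w, h1, e⟩ := hw z hz
      refine ⟨w, h1, ?_⟩
      rw [e]
      field_simp
      ring
  have hfz : ∀ z ∈ ball (0 : ℂ) 1, ‖f z‖ ≤ ‖a‖ + ‖b‖ * ‖p z ^ c‖ := fun z hz => by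
    have e : f z = a + b * p z ^ c := by
      rw [← (hp' z hz).2]
      field_simp
      ring
    rw [e, ← norm_mul]
    exact norm_add_le _ _
  have key : ∀ C : ℝ, (∀ z ∈ ball (0 : ℂ) 1, (1 - ‖z‖) * ‖p z ^ c‖ ≤ C * (1 + ‖F z‖)) →
      Nrm f F := fun C h => by
    refine red_Pos (C := ‖a‖ + ‖b‖ * C) fun z hz => ?_
    have h1 := mul_le_mul_of_nonneg_left (hfz z hz) (hz1 z hz).1
    have h2 := mul_le_mul_of_nonneg_left (h z hz) (norm_nonneg b)
    nlinarith [mul_nonneg (norm_nonneg a) (norm_nonneg z),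
      mul_nonneg (norm_nonneg a) (norm_nonneg (F z))]
  by_cases h1 : c.re ≤ 1
  · have h2 : 0 ≤ c.re := by
      have := (abs_re_le_norm (c - 1)).trans hc
      simp only [sub_re, one_re] at this
      linarith [(abs_le.1 this).1]
    refine key (Real.exp (Real.pi * |c.im|) * (1 + 2 * ‖p 0‖)) fun z hz => ?_
    have h3 := (hG p hp (fun z hz => (hp' z hz).1) z hz).1
    have h4 := mul_le_mul_of_nonneg_left (pow_Pos h2 h1 (hp' z hz).1) (hz1 z hz).1
    have h5 : (1 - ‖z‖) * (1 + ‖p z‖) ≤ 1 + 2 * ‖p 0‖ := by linarith [norm_nonneg z]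
    have h6 := mul_le_mul_of_nonneg_left h5 (Real.exp_pos (Real.pi * |c.im|)).le
    refine le_trans ?_ (le_mul_of_one_le_right (by positivity) (by linarith [norm_nonneg (F z)]))
    linarith
  · obtain ⟨h2, h3⟩ := hc'.resolve_left h1
    have e : c = (c.re : ℂ) := Complex.ext rfl (by simp [h2])
    obtain ⟨C, hC⟩ := hR c.re p (fun z => (F z - a * z) / b) (not_le.1 h1) h3 hp
      (fun z hz => (hp' z hz).1) (by simp [hF0]) fun z hz => by
        rw [← e, ← (hp' z hz).2]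
        simpa using ((hF z hz).sub ((hasDerivAt_id z).const_mul a)).div_const b
    rw [← e] at hC
    refine key (|C| * (1 + (1 + ‖a‖) / ‖b‖)) fun z hz => (hC z hz).trans ?_
    have b1 : 0 < ‖b‖ := norm_pos_iff.2 b0
    have h4 : ‖(F z - a * z) / b‖ ≤ (1 + ‖a‖) / ‖b‖ * (1 + ‖F z‖) := by
      rw [norm_div, div_mul_eq_mul_div]
      refine div_le_div_of_nonneg_right ((norm_sub_le _ _).trans ?_) b1.le
      rw [norm_mul]
      nlinarith [mul_le_mul_of_nonneg_left (hz1 z hz).2 (norm_nonneg a),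
        mul_nonneg (norm_nonneg a) (norm_nonneg (F z))]
    rw [mul_assoc]
    exact mul_le_mul (le_abs_self C) (by nlinarith [norm_nonneg (F z)]) (by positivity)
      (abs_nonneg C)

end Pool.Agent.MP_32357e_an.Sec

end
end

section

/-! Straight sectors of opening less than a full turn. -/

set_option autoImplicit false

open Complex Set Filter Topology Metric MeasureTheory
open scoped ComplexConjugate

noncomputable section

namespace Pool.Agent.MP_32357e_an.Sec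

lemma norm_mul_le_Real {z : ℂ} (hz : z ∈ ball (0 : ℂ) 1) {t : ℝ} (h0 : 0 ≤ t) :
    ‖(t : ℂ) * z‖ ≤ t := by
  rw [norm_mul, Complex.norm_real, Real.norm_of_nonneg h0]
  exact mul_le_of_le_one_right h0 (mem_ball_zero_iff.1 hz).le

lemma mem_Real {z : ℂ} (hz : z ∈ ball (0 : ℂ) 1) {t : ℝ} (h0 : 0 ≤ t) (h1 : t ≤ 1) :
    (t : ℂ) * z ∈ ball (0 : ℂ) 1 := by
  rw [mem_ball_zero_iff, norm_mul, Complex.norm_real, Real.norm_of_nonneg h0]
  exact (mul_le_of_le_one_left (norm_nonneg z) h1).trans_lt (mem_ball_zero_iff.1 hz)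

lemma int_Real {f : ℂ → ℂ} (hf : DifferentiableOn ℂ f (ball 0 1)) {z : ℂ}
    (hz : z ∈ ball (0 : ℂ) 1) : IntervalIntegrable (fun t : ℝ => f (t * z)) volume 0 1 := by
  refine ContinuousOn.intervalIntegrable_of_Icc zero_le_one ?_
  exact hf.continuousOn.comp (f := fun t : ℝ => (t : ℂ) * z) (by fun_prop)
    fun t ht => mem_Real hz ht.1 ht.2

lemma av_sq_Real {q : ℂ → ℂ} (hq : DifferentiableOn ℂ q (ball 0 1)) (c : ℂ) {z : ℂ}
    (hz : z ∈ ball (0 : ℂ) 1) :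
    Av (fun w => (q w + c) ^ 2) z = Av (fun w => q w ^ 2) z + (2 * c * Av q z + c ^ 2) := by
  have h1 := int_Real (f := fun w => q w ^ 2) (hq.pow 2) hz
  have h2 := (int_Real hq hz).const_mul (2 * c)
  have h3 : IntervalIntegrable (fun _ : ℝ => c ^ 2) volume 0 1 := intervalIntegrable_const
  have e : ∀ t : ℝ, (q (t * z) + c) ^ 2 = q (t * z) ^ 2 + (2 * c * q (t * z) + c ^ 2) :=
    fun t => by ring
  simp only [Av, e]
  rw [intervalIntegral.integral_add h1 (h2.add h3), intervalIntegral.integral_add h2 h3,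
    intervalIntegral.integral_const_mul]
  simp

lemma av_bd_Real {q : ℂ → ℂ} {A a : ℝ} (ha : a < 1)
    (h : ∀ z ∈ ball (0 : ℂ) 1, ∀ t : ℝ, ‖z‖ ≤ t → t < 1 → ‖q z‖ ≤ A * (1 - t) ^ (-a)) :
    ∃ K : ℝ, ∀ z ∈ ball (0 : ℂ) 1, ‖Av q z‖ ≤ K := by
  refine ⟨∫ t in (0 : ℝ)..1, A * (1 - t) ^ (-a), fun z hz => ?_⟩
  have h1 : IntervalIntegrable (fun t : ℝ => (1 - t) ^ (-a)) volume 0 1 := by
    have := (intervalIntegral.intervalIntegrable_rpow' (a := 1) (b := 0)
      (by linarith : -1 < -a)).comp_sub_left 1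
    simpa using this
  refine intervalIntegral.norm_integral_le_of_norm_le zero_le_one ?_ (h1.const_mul A)
  filter_upwards [compl_mem_ae_iff.2 (measure_singleton (1 : ℝ))] with t ht hm
  exact h _ (mem_Real hz hm.1.le hm.2) t (norm_mul_le_Real hz hm.1.le) (lt_of_le_of_ne hm.2 ht)

theorem real_pf (hK : KerStmt) (hG : GrowStmt) (hP : PrimStmt) : RealStmt := by
  intro γ p G h1 h2 hp hre hG0 hd
  have hs : ∀ z ∈ ball (0 : ℂ) 1, p z ∈ slitPlane := fun z hz => Or.inl (hre z hz)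
  obtain ⟨q, hq⟩ : ∃ q : ℂ → ℂ, q = fun z => p z ^ ((γ / 2 : ℝ) : ℂ) := ⟨_, rfl⟩
  have hqd : DifferentiableOn ℂ q (ball 0 1) := hq ▸ hp.cpow (differentiableOn_const _) hs
  have hq2 : ∀ z ∈ ball (0 : ℂ) 1, q z ^ 2 = p z ^ (γ : ℂ) := fun z hz => by
    rw [hq, sq, ← cpow_add _ _ (slitPlane_ne_zero (hs z hz))]
    congr 1
    push_cast
    ring
  have hqr : ∀ z ∈ ball (0 : ℂ) 1, 0 < (q z).re := fun z hz => by
    have a1 : 0 < ‖p z‖ := norm_pos_iff.2 (slitPlane_ne_zero (hs z hz))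
    have a2 := abs_lt.1 (abs_arg_lt_pi_div_two_iff.2 (Or.inl (hre z hz)))
    have a3 := Real.pi_pos
    simp only [hq, cpow_ofReal_re]
    exact mul_pos (Real.rpow_pos_of_pos a1 _)
      (Real.cos_pos_of_mem_Ioo ⟨by nlinarith [a2.1, a2.2], by nlinarith [a2.1, a2.2]⟩)
  have hpb : ∀ z ∈ ball (0 : ℂ) 1, ∀ t : ℝ, ‖z‖ ≤ t → t < 1 → ‖p z‖ ≤ 2 * ‖p 0‖ / (1 - t) :=
    fun z hz t ht ht1 => by
      rw [le_div_iff₀ (by linarith)]
      nlinarith [(hG p hp hre z hz).1, norm_nonneg (p z)]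
  obtain ⟨K1, hK1⟩ := av_bd_Real (q := q) (A := (2 * ‖p 0‖) ^ (γ / 2)) (a := γ / 2) (by linarith)
    fun z hz t ht ht1 => by
      have a1 : 0 ≤ 1 - t := by linarith
      simp only [hq, norm_cpow_real]
      rw [Real.rpow_neg a1, ← div_eq_mul_inv, ← Real.div_rpow (by positivity) a1]
      exact Real.rpow_le_rpow (norm_nonneg _) (hpb z hz t ht ht1) (by linarith)
  have h0 : (0 : ℂ) ∈ ball (0 : ℂ) 1 := mem_ball_self one_pos
  have hK0 : 0 ≤ K1 := (norm_nonneg _).trans (hK1 0 h0)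
  obtain ⟨K, hKe⟩ : ∃ K : ℝ, K = 2 * ‖q 0‖ * K1 + ‖q 0‖ ^ 2 := ⟨_, rfl⟩
  have hKp : 0 ≤ K := by rw [hKe]; positivity
  have hav : ∀ z ∈ ball (0 : ℂ) 1, -K ≤ (Av (fun w => q w ^ 2) z).re := fun z hz => by
    have a1 := hK q hqd hqr z hz
    rw [av_sq_Real hqd _ hz, add_re] at a1
    have a2 : ‖2 * conj (q 0) * Av q z + conj (q 0) ^ 2‖ ≤ K := by
      refine (norm_add_le _ _).trans ?_
      rw [hKe, norm_mul, norm_mul, norm_pow, Complex.norm_conj, Complex.norm_ofNat]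
      gcongr
      exact hK1 z hz
    linarith [re_le_norm (2 * conj (q 0) * Av q z + conj (q 0) ^ 2)]
  have hd' : ∀ z ∈ ball (0 : ℂ) 1, HasDerivAt G (q z ^ 2) z := fun z hz => hq2 z hz ▸ hd z hz
  have hGd : DifferentiableOn ℂ G (ball 0 1) :=
    fun z hz => (hd z hz).differentiableAt.differentiableWithinAt
  obtain ⟨Ψ, hΨ⟩ : ∃ Ψ : ℂ → ℂ, Ψ = dslope G 0 := ⟨_, rfl⟩
  have hΨd : DifferentiableOn ℂ Ψ (ball 0 1) :=
    hΨ ▸ (differentiableOn_dslope (isOpen_ball.mem_nhds h0)).2 hGd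
  have hGΨ : G = fun z => z * Ψ z := funext fun z => by
    have := sub_smul_dslope G 0 z
    rw [hG0, sub_zero, sub_zero, smul_eq_mul] at this
    rw [hΨ, this]
  have hΨa : ∀ z ∈ ball (0 : ℂ) 1, Ψ z = Av (fun w => q w ^ 2) z := fun z hz => by
    by_cases hz0 : z = 0
    · rw [hz0, hΨ, dslope_same, (hd' 0 h0).deriv]
      simp [Av]
    · have := (hP _ (hqd.pow 2)).2 G hG0 hd' z hz
      rw [hGΨ] at this
      exact mul_left_cancel₀ hz0 this
  have hH := hG (fun z => Ψ z + ((K + 1 : ℝ) : ℂ)) (hΨd.add_const _) fun z hz => by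
    rw [add_re, ofReal_re, hΨa z hz]
    linarith [hav z hz]
  have hB : 0 ≤ (4 * ‖p 0‖) ^ γ := by positivity
  refine ⟨6 + (2 * K + 2) + (4 * ‖p 0‖) ^ γ, fun z hz => ?_⟩
  have hz1 := mem_ball_zero_iff.1 hz
  have hz0 := norm_nonneg z
  have hGn := norm_nonneg (G z)
  rcases le_total ‖z‖ (1 / 2) with hz2 | hz2
  · have a1 : ‖p z ^ (γ : ℂ)‖ ≤ (4 * ‖p 0‖) ^ γ := by
      rw [norm_cpow_real]
      refine Real.rpow_le_rpow (norm_nonneg _) ?_ (by linarith)
      exact (hpb z hz _ hz2 (by norm_num)).trans_eq (by ring)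
    nlinarith [norm_nonneg (p z ^ (γ : ℂ)), mul_nonneg hB hGn, mul_nonneg hKp hGn]
  · have a1 := (hH z hz).2
    rw [deriv_add_const, add_re, ofReal_re] at a1
    have a2 : HasDerivAt G (1 * Ψ z + z * deriv Ψ z) z :=
      hGΨ ▸ (hasDerivAt_id z).mul (hΨd.differentiableAt (isOpen_ball.mem_nhds hz)).hasDerivAt
    have a3 : ‖p z ^ (γ : ℂ)‖ ≤ ‖Ψ z‖ + ‖deriv Ψ z‖ := by
      rw [(hd z hz).unique a2, one_mul]
      refine (norm_add_le _ _).trans ?_
      rw [norm_mul]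
      nlinarith [norm_nonneg (deriv Ψ z)]
    have a4 : ‖G z‖ = ‖z‖ * ‖Ψ z‖ := by rw [hGΨ, norm_mul]
    have a5 := norm_nonneg (Ψ z)
    have a6 : ‖Ψ z‖ ≤ 2 * ‖G z‖ := by nlinarith
    have a7 : (1 - ‖z‖) * ‖p z ^ (γ : ℂ)‖ ≤ 3 * ‖Ψ z‖ + (2 * K + 2) := by
      have b1 := mul_le_mul_of_nonneg_left a3 (by linarith : 0 ≤ 1 - ‖z‖)
      nlinarith [re_le_norm (Ψ z)]
    nlinarith [mul_nonneg hB hGn, mul_nonneg hKp hGn]

end Pool.Agent.MP_32357e_an.Sec

end
end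

section

set_option autoImplicit false

open Complex Set Filter Topology Metric MeasureTheory
open scoped ComplexConjugate

noncomputable section

namespace Pool.Agent.MP_32357e_an.Sec

theorem schwarz_Ker {q : ℂ → ℂ} (hq : DiffContOnCl ℂ q (ball 0 1)) :
    ∃ β : ℝ, ∀ z ∈ ball (0 : ℂ) 1, q z = (2 * Real.pi)⁻¹ • (∫ θ in (0 : ℝ)..2 * Real.pi,
      herglotzRieszKernel 0 z (circleMap 0 1 θ) * ((q (circleMap 0 1 θ)).re : ℂ)) + β * I := by
  have hc : ContinuousOn q (sphere 0 |1|) := by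
    rw [abs_one]
    exact hq.continuousOn_ball.mono sphere_subset_closedBall
  have hc1 : ContinuousOn (fun ζ => (q ζ).re) (sphere 0 |1|) := continuous_re.comp_continuousOn hc
  have i1 : CircleIntegrable (fun ζ => (q ζ).re) 0 1 := hc1.circleIntegrable'
  have i2 : CircleIntegrable (fun ζ => ((q ζ).re : ℂ)) 0 1 :=
    (continuous_ofReal.comp_continuousOn hc1).circleIntegrable'
  have hd := differentiableOn_circleAverage_herglotzRieszKernel_smul i2
  obtain ⟨β, hβ⟩ := AnalyticOnNhd.eq_re_add_const_mul_I_of_re_eq_const (c₀ := 0)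
    ((hq.differentiableOn.sub hd).analyticOnNhd isOpen_ball) (fun z hz => by
      have a := re_circleAverage_herglotzRieszKernel_smul i1 hz
      have b := hq.circleAverage_re_herglotzRieszKernel_smul hz
      have i3 : CircleIntegrable ((re ∘ herglotzRieszKernel 0 z) • q) 0 1 :=
        ((continuous_re.comp_continuousOn (continuousOn_herglotzRieszKernel_sphere hz)).smul
          hc).circleIntegrable'
      have c := reCLM.circleAverage_comp_comm i3
      rw [b] at c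
      simp only [Pi.sub_apply, sub_re, a]
      rw [sub_eq_zero]
      refine c.symm.trans ?_
      congr 1
      ext ζ
      simp) isOpen_ball (isConnected_ball one_pos)
  refine ⟨β, fun z hz => ?_⟩
  have := hβ z hz
  simp only [Pi.sub_apply, Real.circleAverage_def, smul_eq_mul, ofReal_zero, zero_add] at this
  linear_combination this

theorem swap_Ker {F : ℝ → ℝ → ℂ} (hF : Continuous F.uncurry) (a b c d : ℝ) :
    ∫ x in a..b, ∫ y in c..d, F x y = ∫ y in c..d, ∫ x in a..b, F x y :=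
  intervalIntegral_intervalIntegral_swap
    ((hF.continuousOn.integrableOn_compact (isCompact_uIcc.prod isCompact_uIcc)).mono_set
      (prod_mono uIoc_subset_uIcc uIoc_subset_uIcc))

theorem re_Ker {f : ℝ → ℂ} {a b : ℝ} (hab : a ≤ b) (hf : IntervalIntegrable f volume a b)
    (h : ∀ t ∈ Icc a b, 0 ≤ (f t).re) : 0 ≤ (∫ t in a..b, f t).re := by
  have := reCLM.intervalIntegral_comp_comm hf
  simp only [reCLM_apply] at this
  rw [← this]
  exact intervalIntegral.integral_nonneg hab h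

theorem pos_Ker {g : ℝ → ℂ} (hg : Continuous g) {k : ℝ → ℝ → ℂ} (hk : Continuous k.uncurry)
    {φ : ℝ → ℝ} (hφ : Continuous φ) (h0 : ∀ θ, 0 ≤ φ θ)
    (h : ∀ θ, 0 ≤ (∫ t in (0 : ℝ)..1, k t θ * g t).re) :
    0 ≤ (∫ t in (0 : ℝ)..1, (∫ θ in (0 : ℝ)..2 * Real.pi, k t θ * (φ θ : ℂ)) * g t).re := by
  have hF : Continuous (Function.uncurry fun t θ => k t θ * g t * (φ θ : ℂ)) :=
    (hk.mul (hg.comp continuous_fst)).mul (continuous_ofReal.comp (hφ.comp continuous_snd))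
  have e : ∀ t, (∫ θ in (0 : ℝ)..2 * Real.pi, k t θ * (φ θ : ℂ)) * g t =
      ∫ θ in (0 : ℝ)..2 * Real.pi, k t θ * g t * (φ θ : ℂ) := fun t => by
    rw [← intervalIntegral.integral_mul_const]
    exact intervalIntegral.integral_congr fun θ _ => by ring
  simp only [e]
  rw [swap_Ker hF]
  refine re_Ker Real.two_pi_pos.le (Continuous.intervalIntegrable ?_ _ _) fun θ _ => ?_
  · exact intervalIntegral.continuous_parametric_intervalIntegral_of_continuous'
      (f := fun θ t => k t θ * g t * (φ θ : ℂ)) (hF.comp continuous_swap) 0 1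
  · rw [intervalIntegral.integral_mul_const, re_mul_ofReal]
    exact mul_nonneg (h θ) (h0 θ)

theorem ne_Ker {w : ℂ} (h : 0 < w.re) : w ≠ 0 := fun e => by simp [e] at h

theorem inv_Ker {u v : ℂ} (h : ∀ t ∈ uIcc (0 : ℝ) 1, 0 < (u + t * v).re) :
    ContinuousOn (fun t : ℝ => (u + t * v)⁻¹) (uIcc 0 1) :=
  ContinuousOn.inv₀ (by fun_prop) fun t ht => ne_Ker (h t ht)

theorem log_Ker {u v : ℂ} (h : ∀ t ∈ uIcc (0 : ℝ) 1, 0 < (u + t * v).re) :
    ∫ t in (0 : ℝ)..1, v * (u + t * v)⁻¹ = log (u + v) - log u := by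
  have := intervalIntegral.integral_eq_sub_of_hasDerivAt (f := fun t : ℝ => log (u + t * v))
    (f' := fun t : ℝ => v * (u + t * v)⁻¹) (a := 0) (b := 1) (fun t ht => by
      have h1 : HasDerivAt (fun s : ℂ => u + s * v) v (t : ℂ) := by
        simpa using ((hasDerivAt_id (t : ℂ)).mul_const v).const_add u
      exact (h1.clog (Or.inl (h t ht))).comp_ofReal)
    ((continuousOn_const.mul (inv_Ker h)).intervalIntegrable)
  simpa using this

theorem seg_Ker {u v : ℂ} (hu : 0 < u.re) (hv : 0 < (u + v).re) :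
    ∀ t ∈ uIcc (0 : ℝ) 1, 0 < (u + t * v).re := by
  intro t ht
  rw [uIcc_of_le zero_le_one] at ht
  simp only [add_re, re_ofReal_mul] at hv ⊢
  rcases ht.1.eq_or_lt with rfl | h
  · simpa using hu
  · nlinarith [mul_pos h hv, mul_nonneg (sub_nonneg.2 ht.2) hu.le]

theorem invre_Ker {w : ℂ} (h : 0 < w.re) : 0 ≤ (w⁻¹).re := by
  rw [inv_re]
  exact div_nonneg h.le (normSq_nonneg _)

theorem kern_Ker {a b : ℂ} (ha : 0 < (1 + a).re) (hb : 0 < (1 + b).re) :
    0 ≤ (∫ t in (0 : ℝ)..1, (1 + t * a)⁻¹ * (1 + t * b)⁻¹).re := by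
  have h1 := seg_Ker (u := 1) (by simp) ha
  have h2 := seg_Ker (u := 1) (by simp) hb
  by_cases hab : a = b
  · subst hab
    have := intervalIntegral.integral_eq_sub_of_hasDerivAt
      (f := fun t : ℝ => (t : ℂ) / (1 + t * a))
      (f' := fun t : ℝ => (1 + t * a)⁻¹ * (1 + t * a)⁻¹) (a := 0) (b := 1) (fun t ht => by
        have h3 : HasDerivAt (fun s : ℂ => 1 + s * a) a (t : ℂ) := by
          simpa using ((hasDerivAt_id (t : ℂ)).mul_const a).const_add 1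
        have h4 := ne_Ker (h1 t ht)
        refine HasDerivAt.congr_deriv ((hasDerivAt_id (t : ℂ)).div h3 h4).comp_ofReal ?_
        simp only [id]
        field_simp
        ring)
      (((inv_Ker h1).mul (inv_Ker h1)).intervalIntegrable)
    rw [this]
    simpa using invre_Ker ha
  · have h3 := seg_Ker (u := 1 + b) (v := a - b) hb (by rwa [add_add_sub_cancel])
    have e1 : (a - b) * ∫ t in (0 : ℝ)..1, (1 + t * a)⁻¹ * (1 + t * b)⁻¹ =
        log (1 + a) - log (1 + b) := by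
      have i1 := ((inv_Ker h1).intervalIntegrable (μ := volume)).const_mul a
      have i2 := ((inv_Ker h2).intervalIntegrable (μ := volume)).const_mul b
      have := intervalIntegral.integral_sub i1 i2
      rw [log_Ker h1, log_Ker h2, log_one, sub_zero, sub_zero] at this
      rw [← this, ← intervalIntegral.integral_const_mul]
      refine intervalIntegral.integral_congr fun t ht => ?_
      have a1 := mul_inv_cancel₀ (ne_Ker (h1 t ht))
      have a2 := mul_inv_cancel₀ (ne_Ker (h2 t ht))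
      linear_combination a * (1 + t * a)⁻¹ * a2 - b * (1 + t * b)⁻¹ * a1
    have e2 := log_Ker h3
    rw [add_add_sub_cancel, intervalIntegral.integral_const_mul, ← e1] at e2
    rw [← mul_left_cancel₀ (sub_ne_zero.2 hab) e2]
    exact re_Ker zero_le_one (inv_Ker h3).intervalIntegrable fun t ht =>
      invre_Ker (h3 t (by rwa [uIcc_of_le zero_le_one]))

theorem disc_Ker {Q : ℂ → ℂ} (hQ : DiffContOnCl ℂ Q (ball 0 1))
    (h0 : ∀ ζ, ‖ζ‖ = 1 → 0 ≤ (Q ζ).re) {w : ℂ} (hw : ‖w‖ < 1) :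
    0 ≤ (∫ t in (0 : ℝ)..1, (Q (t * w) + conj (Q 0)) ^ 2).re := by
  obtain ⟨β, hβ⟩ := schwarz_Ker hQ
  have hn : ∀ θ, ‖circleMap 0 1 θ‖ = 1 := fun θ => by simp
  have hn0 : ∀ θ, circleMap 0 1 θ ≠ 0 := fun θ => circleMap_ne_center one_ne_zero
  obtain ⟨φ, hφ⟩ : ∃ φ : ℝ → ℝ, φ = fun θ => (Q (circleMap 0 1 θ)).re := ⟨_, rfl⟩
  have hφ0 : ∀ θ, 0 ≤ φ θ := fun θ => by rw [hφ]; exact h0 _ (hn θ)
  have hφc : Continuous φ := by
    rw [hφ]
    exact continuous_re.comp (hQ.continuousOn_ball.comp_continuous (continuous_circleMap 0 1)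
      fun θ => by simp)
  obtain ⟨a, ha⟩ : ∃ a : ℝ → ℂ, a = fun θ => -(w / circleMap 0 1 θ) := ⟨_, rfl⟩
  have hac : Continuous a := by
    rw [ha]
    exact (continuous_const.div (continuous_circleMap 0 1) hn0).neg
  have ha1 : ∀ θ, 0 < (1 + a θ).re := fun θ => by
    have h1 : ‖a θ‖ < 1 := by rw [ha]; simpa using hw
    have := (abs_lt.1 ((abs_re_le_norm _).trans_lt h1)).1
    simp only [add_re, one_re]
    linarith
  obtain ⟨τ, hτ⟩ : ∃ τ : ℝ → ℝ, τ = fun t => max 0 (min t 1) := ⟨_, rfl⟩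
  have hτc : Continuous τ := by rw [hτ]; fun_prop
  have hτ1 : ∀ t, τ t ∈ uIcc (0 : ℝ) 1 := fun t => by
    rw [hτ, uIcc_of_le zero_le_one]
    exact ⟨le_max_left _ _, max_le zero_le_one (min_le_right _ _)⟩
  have hτ2 : ∀ t ∈ uIcc (0 : ℝ) 1, τ t = t := fun t ht => by
    rw [uIcc_of_le zero_le_one] at ht
    simp only [hτ, min_eq_left ht.2, max_eq_right ht.1]
  obtain ⟨k, hk⟩ : ∃ k : ℝ → ℝ → ℂ, k = fun t θ => (1 + τ t * a θ)⁻¹ := ⟨_, rfl⟩
  have hkc : Continuous k.uncurry := by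
    rw [hk]
    exact Continuous.inv₀ (by fun_prop) fun x =>
      ne_Ker (seg_Ker (u := 1) (by simp) (ha1 x.2) _ (hτ1 x.1))
  have hP : Continuous fun t => ∫ θ in (0 : ℝ)..2 * Real.pi, k t θ * (φ θ : ℂ) :=
    intervalIntegral.continuous_parametric_intervalIntegral_of_continuous'
      (hkc.mul (continuous_ofReal.comp (hφc.comp continuous_snd))) _ _
  have main := pos_Ker hP hkc hφc hφ0 fun θ' => by
    simp only [mul_comm (k _ θ')]
    refine pos_Ker (g := fun t => k t θ') (hkc.comp (Continuous.prodMk_left θ')) hkc hφc hφ0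
      fun θ => ?_
    refine (kern_Ker (ha1 θ) (ha1 θ')).trans_eq ?_
    congr 1
    refine intervalIntegral.integral_congr fun t ht => ?_
    simp only [hk, hτ2 t ht]
  have q0 : conj (Q 0) = (2 * Real.pi)⁻¹ • (∫ θ in (0 : ℝ)..2 * Real.pi, (φ θ : ℂ)) - β * I := by
    have e : ∫ θ in (0 : ℝ)..2 * Real.pi, herglotzRieszKernel 0 0 (circleMap 0 1 θ) *
        ((Q (circleMap 0 1 θ)).re : ℂ) = ∫ θ in (0 : ℝ)..2 * Real.pi, (φ θ : ℂ) :=
      intervalIntegral.integral_congr fun θ _ => by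
        simp only [herglotzRieszKernel_def, sub_zero, add_zero, div_self (hn0 θ), one_mul, hφ]
    rw [hβ 0 (mem_ball_self one_pos), e, intervalIntegral.integral_ofReal]
    simp only [real_smul, map_add, map_mul, conj_ofReal, conj_I]
    ring
  have rep : ∀ t ∈ uIcc (0 : ℝ) 1, Q (t * w) + conj (Q 0) =
      ((Real.pi⁻¹ : ℝ) : ℂ) * ∫ θ in (0 : ℝ)..2 * Real.pi, k t θ * (φ θ : ℂ) := fun t ht => by
    have ht' := ht
    rw [uIcc_of_le zero_le_one] at ht'
    have hm : (t : ℂ) * w ∈ ball (0 : ℂ) 1 := by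
      rw [mem_ball_zero_iff, norm_mul, norm_real, Real.norm_of_nonneg ht'.1]
      exact (mul_le_of_le_one_left (norm_nonneg _) ht'.2).trans_lt hw
    have i1 : IntervalIntegrable (fun θ => k t θ * (φ θ : ℂ)) volume 0 (2 * Real.pi) :=
      ((hkc.comp (Continuous.prodMk_right t)).mul
        (continuous_ofReal.comp hφc)).intervalIntegrable _ _
    have i2 : IntervalIntegrable (fun θ => (φ θ : ℂ)) volume 0 (2 * Real.pi) :=
      (continuous_ofReal.comp hφc).intervalIntegrable _ _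
    have e : ∫ θ in (0 : ℝ)..2 * Real.pi, herglotzRieszKernel 0 (t * w) (circleMap 0 1 θ) *
        ((Q (circleMap 0 1 θ)).re : ℂ) = 2 * (∫ θ in (0 : ℝ)..2 * Real.pi, k t θ * (φ θ : ℂ)) -
          ∫ θ in (0 : ℝ)..2 * Real.pi, (φ θ : ℂ) := by
      rw [← intervalIntegral.integral_const_mul, ← intervalIntegral.integral_sub (i1.const_mul 2) i2]
      refine intervalIntegral.integral_congr fun θ _ => ?_
      have a1 := ne_Ker (seg_Ker (u := 1) (by simp) (ha1 θ) t ht)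
      have a2 := hn0 θ
      have a3 : circleMap 0 1 θ - t * w = circleMap 0 1 θ * (1 + t * a θ) := by
        rw [ha]
        field_simp
        ring
      have a4 : circleMap 0 1 θ + t * w = circleMap 0 1 θ * (1 - t * a θ) := by
        rw [ha]
        field_simp
        ring
      simp only [herglotzRieszKernel_def, sub_zero, hk, hτ2 t ht, hφ, a3, a4]
      field_simp
      ring
    rw [hβ _ hm, q0, e]
    have : (Real.pi : ℂ) ≠ 0 := ofReal_ne_zero.2 Real.pi_ne_zero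
    simp only [real_smul]
    push_cast
    field_simp
    ring
  rw [intervalIntegral.integral_congr (g := fun t => ((Real.pi⁻¹ ^ 2 : ℝ) : ℂ) *
      ((∫ θ in (0 : ℝ)..2 * Real.pi, k t θ * (φ θ : ℂ)) *
        ∫ θ in (0 : ℝ)..2 * Real.pi, k t θ * (φ θ : ℂ))) fun t ht => by
      simp only [rep t ht]; push_cast; ring,
    intervalIntegral.integral_const_mul, re_ofReal_mul]
  exact mul_nonneg (sq_nonneg _) main

theorem ker_pf : KerStmt := by
  intro q hq h0 z hz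
  rw [mem_ball_zero_iff] at hz
  obtain ⟨ρ, h1, h2⟩ := exists_between hz
  have hρ : 0 < ρ := (norm_nonneg z).trans_lt h1
  have hρ' : (ρ : ℂ) ≠ 0 := ofReal_ne_zero.2 hρ.ne'
  have hm : ∀ w : ℂ, ‖w‖ ≤ 1 → (ρ : ℂ) * w ∈ ball (0 : ℂ) 1 := fun w hw => by
    rw [mem_ball_zero_iff, norm_mul, norm_real, Real.norm_of_nonneg hρ.le]
    exact (mul_le_of_le_one_right hρ.le hw).trans_lt h2
  have hQ : DiffContOnCl ℂ (fun w => q (ρ * w)) (ball 0 1) := by
    refine DifferentiableOn.diffContOnCl_ball (U := closedBall 0 1) ?_ Subset.rfl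
    exact hq.comp (by fun_prop) fun w hw => hm w (mem_closedBall_zero_iff.1 hw)
  have := disc_Ker hQ (fun ζ hζ => (h0 _ (hm ζ hζ.le)).le) (w := z / ρ) (by
    rwa [norm_div, norm_real, Real.norm_of_nonneg hρ.le, div_lt_one hρ])
  refine this.trans_eq ?_
  unfold Av
  congr 2
  ext t
  rw [mul_zero, show (ρ : ℂ) * (t * (z / ρ)) = t * z by field_simp]

end Pool.Agent.MP_32357e_an.Sec

end
end

section

/-! Lifting through the power map. -/

set_option autoImplicit false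

open Complex Set Filter Topology Metric MeasureTheory
open scoped ComplexConjugate

noncomputable section

namespace Pool.Agent.MP_32357e_an.Sec

theorem inj_Lift {c : ℂ} (h1 : ‖c - 1‖ ≤ 1) (h0 : c ≠ 0) :
    InjOn (fun w : ℂ => w ^ c) {w | 0 < w.re} := by
  intro w hw v hv e
  have w0 : w ≠ 0 := fun h => by simp [h] at hw
  have v0 : v ≠ 0 := fun h => by simp [h] at hv
  simp only [cpow_def_of_ne_zero w0, cpow_def_of_ne_zero v0] at e
  obtain ⟨n, hn⟩ := exp_eq_exp_iff_exists_int.1 e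
  have a1 := abs_lt.1 (abs_arg_lt_pi_div_two_iff.2 (Or.inl hw))
  have a2 := abs_lt.1 (abs_arg_lt_pi_div_two_iff.2 (Or.inl hv))
  have b1 := congrArg re hn
  have b2 := congrArg im hn
  simp only [mul_re, mul_im, add_re, add_im, log_im, intCast_re, intCast_im, re_ofNat, im_ofNat,
    ofReal_re, ofReal_im, I_re, I_im, mul_zero, zero_mul, add_zero, sub_zero, mul_one,
    zero_add] at b1 b2
  have c1 : 0 < c.re ^ 2 + c.im ^ 2 := by
    have := normSq_pos.2 h0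
    rw [normSq_apply] at this
    nlinarith
  have c2 : c.re ^ 2 + c.im ^ 2 ≤ 2 * c.re := by
    have h2 := pow_le_one₀ (n := 2) (norm_nonneg _) h1
    rw [← normSq_eq_norm_sq, normSq_apply, sub_re, sub_im, one_re, one_im] at h2
    nlinarith
  have d : (c.re ^ 2 + c.im ^ 2) * (arg w - arg v) = n * (2 * Real.pi * c.re) := by
    linear_combination c.re * b2 - c.im * b1
  have hp : 0 < 2 * Real.pi * c.re := by
    have : 0 < c.re := by linarith
    positivity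
  have d0 := mul_le_mul_of_nonneg_left c2 Real.pi_pos.le
  have n1 : (n : ℝ) < 1 := by
    have := mul_lt_mul_of_pos_left (show arg w - arg v < Real.pi by linarith) c1
    refine lt_of_mul_lt_mul_right ?_ hp.le
    linarith
  have n2 : (-1 : ℝ) < n := by
    have := mul_lt_mul_of_pos_left (show -Real.pi < arg w - arg v by linarith) c1
    refine lt_of_mul_lt_mul_right ?_ hp.le
    linarith
  have n0 : n = 0 := by
    have n3 : n < 1 := by exact_mod_cast n1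
    have n4 : -1 < n := by exact_mod_cast n2
    omega
  rw [n0, Int.cast_zero, zero_mul, add_zero] at hn
  rw [← exp_log w0, ← exp_log v0, mul_right_cancel₀ h0 hn]

theorem lift_pf : LiftStmt := by
  intro c h1 h0 g hg hw
  obtain ⟨ψ, hψ, e⟩ := MP_1a2790_an.exists_inverse (U := {w : ℂ | 0 < w.re})
    (f := fun w => w ^ c) (isOpen_lt continuous_const continuous_re)
    (fun w hw => (differentiableAt_id.cpow_const (Or.inl hw)).differentiableWithinAt)
    (inj_Lift h1 h0)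
  refine ⟨ψ ∘ g, hψ.comp hg fun z hz => ?_, fun z hz => ?_⟩
  · obtain ⟨w, h2, h3⟩ := hw z hz
    exact ⟨w, h2, h3.symm⟩
  · obtain ⟨w, h2, h3⟩ := hw z hz
    rw [Function.comp_apply, h3, e w h2]
    exact ⟨h2, rfl⟩

end Pool.Agent.MP_32357e_an.Sec

end
end
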