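import Pool.Agent.Mg.F32357ea.G55a923
import Pool.Agent.Mg.F32357ea.G4fba29

set_option linter.all false

section

set_option autoImplicit false

open Complex Set Filter Topology Metric MeasureTheory
open scoped ComplexConjugate

noncomputable section

namespace Pool.Agent.MP_32357e_an.Sec

lemma loc_Spike {u U : ℂ → ℂ} {ζ : ℂ} {r : ℝ} (h : Arc u U ζ r) :
    ∃ lam r1 c C : ℝ, lam ≠ 0 ∧ 0 < r1 ∧ 0 < c ∧ 0 ≤ C ∧ ∀ t : ℂ, ‖ζ * (1 - t)‖ < 1 →
      (‖t‖ < r1 ∨ ‖ζ * (1 - t)‖ ≤ 1 - r1 / 2) →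
      c * ‖t‖ ≤ ‖u (ζ * (1 - t))‖ ∧ ‖u (ζ * (1 - t)) - lam * t‖ ≤ C * ‖t‖ ^ 2 := by
  have hζ := h.nz
  have hb : ball ζ r ∈ 𝓝 ζ := ball_mem_nhds ζ h.rp
  obtain ⟨lam, hlam⟩ : ∃ lam : ℝ, (lam : ℂ) = -ζ * deriv U ζ := by
    have h1 := arc_deriv h.hY h.im ζ (mem_ball_self h.rp) hζ
    refine ⟨(-ζ * deriv U ζ).re, Complex.ext (by simp) ?_⟩
    rw [mul_assoc, I_mul_re, neg_eq_zero] at h1
    rw [ofReal_im, neg_mul, neg_im, h1, neg_zero]
  have hζ0 : ζ ≠ 0 := by rintro rfl; simp at hζ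
  have hl0 : lam ≠ 0 := by
    rintro rfl
    exact mul_ne_zero (neg_ne_zero.2 hζ0) h.der (by simpa using hlam.symm)
  have hl := abs_pos.2 hl0
  have hd : DifferentiableAt ℂ (dslope U ζ) ζ :=
    ((differentiableOn_dslope hb).2 h.hY).differentiableAt hb
  obtain ⟨C, hC0, hC⟩ := hd.isBigO_sub.exists_pos
  obtain ⟨r0, hr0, hr⟩ := Metric.eventually_nhds_iff.1 (hC.bound.and hb)
  obtain ⟨r1, a1, a2, a3, a4⟩ : ∃ r1 : ℝ, 0 < r1 ∧ r1 ≤ 1 ∧ r1 ≤ r0 ∧ C * r1 ≤ |lam| / 2 := by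
    refine ⟨min 1 (min r0 (|lam| / 2 / C)), by positivity, min_le_left _ _,
      (min_le_right _ _).trans (min_le_left _ _), ?_⟩
    rw [mul_comm, ← le_div_iff₀ hC0]
    exact (min_le_right _ _).trans (min_le_right _ _)
  have hK : closedBall (0 : ℂ) (1 - r1 / 2) ⊆ ball 0 1 := closedBall_subset_ball (by linarith)
  have hc := h.hd.continuousOn.mono hK
  obtain ⟨M, hM⟩ := (isCompact_closedBall (0 : ℂ) (1 - r1 / 2)).exists_bound_of_continuousOn hc
  obtain ⟨m, hm0, hm⟩ := (isCompact_closedBall (0 : ℂ) (1 - r1 / 2)).exists_forall_le'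
    (f := fun z => ‖u z‖) (a := 0) hc.norm fun z hz =>
      norm_pos_iff.2 fun h0 => by simpa [h0] using h.pos z (hK hz)
  have hM0 : 0 ≤ M := (norm_nonneg _).trans (hM 0 (mem_closedBall_self (by linarith)))
  refine ⟨lam, r1, min (|lam| / 2) (m / 2), C + (M + 2 * |lam|) * (4 / r1 ^ 2), hl0, a1,
    by positivity, by positivity, fun t h1 h2 => ?_⟩
  have ht0 := norm_nonneg t
  have b1 := mul_le_mul_of_nonneg_right (min_le_left (|lam| / 2) (m / 2)) ht0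
  have b2 := mul_le_mul_of_nonneg_right (min_le_right (|lam| / 2) (m / 2)) ht0
  have hlt : ‖(lam : ℂ) * t‖ = |lam| * ‖t‖ := by rw [norm_mul, norm_real, Real.norm_eq_abs]
  have b3 : 0 ≤ (M + 2 * |lam|) * (4 / r1 ^ 2) * ‖t‖ ^ 2 := by positivity
  have b4 : 0 ≤ C * ‖t‖ ^ 2 := by positivity
  rw [add_mul]
  rcases h2 with h2 | h2
  · have e1 : ‖ζ * (1 - t) - ζ‖ = ‖t‖ := by
      rw [show ζ * (1 - t) - ζ = -(ζ * t) by ring, norm_neg, norm_mul, hζ, one_mul]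
    obtain ⟨c1, c2⟩ := hr (y := ζ * (1 - t)) (by rw [dist_eq_norm, e1]; linarith)
    rw [e1, dslope_same] at c1
    have e2 := sub_smul_dslope U ζ (ζ * (1 - t))
    rw [h.zero, sub_zero, h.eq _ c2 h1, smul_eq_mul] at e2
    have e3 : ‖u (ζ * (1 - t)) - lam * t‖ ≤ C * ‖t‖ ^ 2 := by
      rw [← e2, hlam, show (ζ * (1 - t) - ζ) * dslope U ζ (ζ * (1 - t)) - -ζ * deriv U ζ * t =
        (ζ * (1 - t) - ζ) * (dslope U ζ (ζ * (1 - t)) - deriv U ζ) by ring, norm_mul, e1]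
      nlinarith [mul_le_mul_of_nonneg_left c1 ht0]
    refine ⟨?_, by linarith⟩
    have e4 := norm_sub_norm_le ((lam : ℂ) * t) (u (ζ * (1 - t)))
    rw [norm_sub_rev, hlt] at e4
    have e5 : C * ‖t‖ ≤ |lam| / 2 := (mul_le_mul_of_nonneg_left h2.le hC0.le).trans a4
    nlinarith [mul_le_mul_of_nonneg_right e5 ht0]
  · have c1 := hM _ (mem_closedBall_zero_iff.2 h2)
    have c2 := hm _ (mem_closedBall_zero_iff.2 h2)
    rw [norm_mul, hζ, one_mul] at h1 h2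
    have c3 : ‖t‖ ≤ 2 := by
      have := norm_sub_norm_le t 1
      rw [norm_sub_rev, norm_one] at this
      linarith
    have c4 : r1 / 2 ≤ ‖t‖ := by
      have := norm_sub_norm_le 1 t
      rw [norm_one] at this
      linarith
    refine ⟨by nlinarith, ?_⟩
    have c5 := norm_sub_le (u (ζ * (1 - t))) (lam * t)
    have c6 : 1 ≤ 4 / r1 ^ 2 * ‖t‖ ^ 2 := by
      rw [div_mul_eq_mul_div, le_div_iff₀ (by positivity)]
      nlinarith
    have c7 := mul_le_mul_of_nonneg_left c6 (show 0 ≤ M + 2 * |lam| by positivity)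
    have c8 := mul_le_mul_of_nonneg_left c3 hl.le
    rw [← mul_assoc] at c7
    linarith

lemma pt_Spike {η s : ℝ} {u : ℂ} (h0 : 0 ≤ η) (hs : 0 < s) (h1 : η + 2 * Real.sqrt s < 1)
    (hs1 : s ≤ 1) (hu : 0 < u.re) :
    ‖hh (JJ η s u) ^ 2 - 4 * s ^ 2 / u ^ 2‖ ≤ 21 * (1 + s / ‖u‖) := by
  have hJ := JJ_mem h0 hs h1 hu
  have hu0 : u ≠ 0 := fun h => by rw [h] at hu; simp at hu
  have hn := norm_pos_iff.2 hu0
  have hq : 0 ≤ s / ‖u‖ := by positivity
  rcases le_total s (‖u‖ ^ 2) with h2 | h2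
  · have h3 : s / ‖u‖ ^ 2 ≤ 1 := (div_le_one (by positivity)).2 h2
    have h4 := norm_hh_le hJ (by rw [JJ_re]; exact mul_nonneg hu.le (by linarith))
    refine (norm_sub_le _ _).trans ?_
    rw [norm_pow, norm_div, norm_mul, norm_pow, norm_pow, norm_real, Real.norm_of_nonneg hs.le,
      Complex.norm_ofNat, show 4 * s ^ 2 / ‖u‖ ^ 2 = 4 * s * (s / ‖u‖ ^ 2) by ring]
    nlinarith [norm_nonneg (hh (JJ η s u))]
  · have h3 : 1 ≤ s / ‖u‖ ^ 2 := (one_le_div (by positivity)).2 h2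
    have h4 := one_le_norm_hh hJ (by
      rw [JJ_re]; exact mul_nonpos_of_nonneg_of_nonpos hu.le (by linarith))
    have h5 : ‖u‖ ≤ 1 := by nlinarith
    have h6 : ‖η * I + u‖ ≤ 2 := by
      have := norm_add_le (η * I) u
      rw [norm_mul, norm_I, norm_real, Real.norm_of_nonneg h0] at this
      linarith [Real.sqrt_nonneg s]
    have h7 : ‖(s : ℂ) / u‖ = s / ‖u‖ := by rw [norm_div, norm_real, Real.norm_of_nonneg hs.le]
    have h8 : ‖JJ η s u‖ ≤ 2 + s / ‖u‖ := by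
      have := norm_sub_le (η * I + u) (s / u)
      rw [JJ]
      linarith
    have h9 : ‖JJ η s u / hh (JJ η s u)‖ ≤ 2 + s / ‖u‖ := by
      rw [norm_div]
      exact (div_le_self (norm_nonneg _) h4).trans h8
    have e : hh (JJ η s u) ^ 2 - 4 * s ^ 2 / u ^ 2 = 1 - 2 * (JJ η s u / hh (JJ η s u)) +
        (4 * (η * I + u) ^ 2 - 8 * ((η * I + u) * (s / u))) := by
      have a1 := hh_quad hJ
      have a2 := hh_ne hJ
      have a3 : JJ η s u / hh (JJ η s u) = JJ η s u * (hh (JJ η s u) + 2 * JJ η s u) := by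
        rw [div_eq_iff a2]
        linear_combination (-JJ η s u) * a1
      have a4 : JJ η s u = η * I + u - s / u := rfl
      rw [a3, show (4 : ℂ) * s ^ 2 / u ^ 2 = 4 * (s / u) ^ 2 by ring]
      linear_combination a1 + 4 * (JJ η s u + (η * I + u - s / u)) * a4
    rw [e]
    refine (norm_add_le _ _).trans ((add_le_add (norm_sub_le _ _) (norm_sub_le _ _)).trans ?_)
    rw [norm_one, norm_mul, norm_mul, norm_mul, norm_mul, norm_pow, h7]
    simp only [Complex.norm_ofNat]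
    have b1 := mul_le_mul_of_nonneg_right h6 hq
    nlinarith [norm_nonneg (η * I + u)]

lemma D_Spike {lam c C : ℝ} (hl : lam ≠ 0) (hc : 0 < c) (hC : 0 ≤ C) :
    ∃ K : ℝ, 0 ≤ K ∧ ∀ (η s : ℝ) (u t : ℂ), 0 ≤ η → 0 < s → η + 2 * Real.sqrt s < 1 → s ≤ 1 →
      0 < u.re → t ≠ 0 → c * ‖t‖ ≤ ‖u‖ → ‖u - lam * t‖ ≤ C * ‖t‖ ^ 2 →
      ‖hh (JJ η s u) ^ 2 - 4 * s ^ 2 / (lam * t) ^ 2‖ ≤ K * (1 + s / ‖t‖) := by
  have hl' := abs_pos.2 hl
  refine ⟨21 + 21 / c + 4 * (C * (|lam| / c ^ 2 + 1 / c) / |lam| ^ 2), by positivity,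
    fun η s u t h0 hs h1 hs1 hu ht h2 h3 => ?_⟩
  have hu0 : u ≠ 0 := fun h => by rw [h] at hu; simp at hu
  have hn := norm_pos_iff.2 hu0
  have htn := norm_pos_iff.2 ht
  have hlc : (lam : ℂ) ≠ 0 := by exact_mod_cast hl
  have a1 := pt_Spike h0 hs h1 hs1 hu
  have a2 : s / ‖u‖ ≤ 1 / c * (s / ‖t‖) := by
    rw [div_mul_div_comm, one_mul]
    exact div_le_div_of_nonneg_left hs.le (by positivity) h2
  have a3 : ‖4 * s ^ 2 / u ^ 2 - 4 * s ^ 2 / (lam * t) ^ 2‖ ≤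
      4 * (C * (|lam| / c ^ 2 + 1 / c) / |lam| ^ 2) * (s / ‖t‖) := by
    rw [show (4 : ℂ) * s ^ 2 / u ^ 2 - 4 * s ^ 2 / (lam * t) ^ 2 =
      -(4 * s ^ 2 * (u - lam * t) / (lam * t) ^ 2 * (lam * t / u ^ 2 + 1 / u)) by
        field_simp; ring, norm_neg, norm_mul]
    have b1 : ‖4 * s ^ 2 * (u - lam * t) / (lam * t) ^ 2‖ ≤ 4 * s * C / |lam| ^ 2 := by
      rw [norm_div, norm_mul, norm_mul, norm_pow, norm_pow, norm_mul, norm_real, norm_real,
        Real.norm_of_nonneg hs.le, Real.norm_eq_abs, Complex.norm_ofNat]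
      calc 4 * s ^ 2 * ‖u - lam * t‖ / (|lam| * ‖t‖) ^ 2
          ≤ 4 * s * (C * ‖t‖ ^ 2) / (|lam| * ‖t‖) ^ 2 := by
            gcongr
            nlinarith
        _ = _ := by field_simp
    have b2 : ‖lam * t / u ^ 2 + 1 / u‖ ≤ (|lam| / c ^ 2 + 1 / c) / ‖t‖ := by
      refine (norm_add_le _ _).trans ?_
      rw [norm_div, norm_div, norm_pow, norm_mul, norm_real, Real.norm_eq_abs, norm_one]
      calc |lam| * ‖t‖ / ‖u‖ ^ 2 + 1 / ‖u‖
          ≤ |lam| * ‖t‖ / (c * ‖t‖) ^ 2 + 1 / (c * ‖t‖) := by gcongr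
        _ = _ := by field_simp
    exact (mul_le_mul b1 b2 (norm_nonneg _) (by positivity)).trans (le_of_eq (by ring))
  have a4 := norm_sub_le_norm_sub_add_norm_sub (hh (JJ η s u) ^ 2) (4 * s ^ 2 / u ^ 2)
    (4 * s ^ 2 / (lam * t) ^ 2)
  have a5 : 0 ≤ s / ‖t‖ := by positivity
  have a6 : 0 ≤ 4 * (C * (|lam| / c ^ 2 + 1 / c) / |lam| ^ 2) := by positivity
  have a7 : 0 ≤ 1 / c := by positivity
  rw [show 21 / c = 21 * (1 / c) by ring]
  generalize 4 * (C * (|lam| / c ^ 2 + 1 / c) / |lam| ^ 2) = Q at *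
  generalize 1 / c = c' at *
  nlinarith

lemma re_Spike (σ s : ℝ) (τ : ℂ) : (1 - σ + σ * (s ^ 2 * τ) : ℂ).re = 1 - σ + σ * (s ^ 2 * τ.re) := by
  simp [pow_two]

lemma bd_Spike {σ s : ℝ} {τ : ℂ} (hρ : 0 < τ.re) (h0 : 0 ≤ σ) (h1 : σ < 1) (hs : 0 < s)
    (hs1 : s ≤ 1) : s / ‖(1 - σ + σ * (s ^ 2 * τ) : ℂ)‖ ≤
      (Real.sqrt (min 1 (2 * τ.re)))⁻¹ * (1 - σ) ^ (-(1 / 2) : ℝ) := by
  have hm : 0 < min 1 (2 * τ.re) := by positivity
  have m1 := min_le_left 1 (2 * τ.re)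
  have m2 := min_le_right 1 (2 * τ.re)
  generalize min 1 (2 * τ.re) = m at *
  have h2 : 0 < 1 - σ := by linarith
  have h3 := re_le_norm (1 - σ + σ * (s ^ 2 * τ) : ℂ)
  rw [re_Spike] at h3
  have h4 : 0 ≤ σ * (s ^ 2 * τ.re) := by positivity
  rw [Real.rpow_neg h2.le, ← Real.sqrt_eq_rpow, ← mul_inv, ← Real.sqrt_mul hm.le, ← one_div,
    div_le_div_iff₀ (by linarith) (Real.sqrt_pos.2 (by positivity)), one_mul]
  refine le_trans ?_ h3
  rw [← Real.sqrt_sq hs.le, ← Real.sqrt_mul (sq_nonneg s), Real.sqrt_sq hs.le]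
  refine Real.sqrt_le_iff.2 ⟨by linarith, ?_⟩
  have h5 : s ^ 2 ≤ 1 := by nlinarith
  have h6 : s ^ 2 * m ≤ 1 - σ + 2 * (σ * (s ^ 2 * τ.re)) := by
    have b1 : (1 - σ) * (s ^ 2 * m) ≤ (1 - σ) * 1 :=
      mul_le_mul_of_nonneg_left (by nlinarith [sq_nonneg s]) h2.le
    have b2 : σ * (s ^ 2 * m) ≤ σ * (s ^ 2 * (2 * τ.re)) := by gcongr
    nlinarith
  nlinarith [mul_le_mul_of_nonneg_left h6 h2.le, sq_nonneg (σ * (s ^ 2 * τ.re))]

lemma ftc_Spike {a t : ℂ} (ht : 0 < t.re) :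
    ContinuousOn (fun σ : ℝ => a / (1 - σ + σ * t) ^ 2) (uIcc 0 1) ∧
      ∫ σ in (0 : ℝ)..1, a / (1 - σ + σ * t) ^ 2 = a / t := by
  have hne : ∀ σ ∈ uIcc (0 : ℝ) 1, (1 - σ + σ * t : ℂ) ≠ 0 := by
    intro σ hσ h
    rw [uIcc_of_le zero_le_one] at hσ
    have h1 := congrArg re h
    simp only [add_re, sub_re, one_re, ofReal_re, re_ofReal_mul, zero_re] at h1
    rcases hσ.1.eq_or_lt with h2 | h2
    · rw [← h2] at h1; simp at h1
    · nlinarith [mul_pos h2 ht, hσ.2]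
  have hc : ContinuousOn (fun σ : ℝ => a / (1 - σ + σ * t) ^ 2) (uIcc 0 1) :=
    continuousOn_const.div (by fun_prop) fun σ hσ => pow_ne_zero _ (hne σ hσ)
  refine ⟨hc, ?_⟩
  rw [intervalIntegral.integral_eq_sub_of_hasDerivAt
    (f := fun σ : ℝ => a * σ / (1 - σ + σ * t)) (fun σ hσ => ?_) hc.intervalIntegrable]
  · simp
  · have h1 : HasDerivAt (fun z : ℂ => a * z / (1 - z + z * t)) (a / (1 - σ + σ * t) ^ 2) σ := by
      refine (((hasDerivAt_id (σ : ℂ)).const_mul a).fun_div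
        (((hasDerivAt_id (σ : ℂ)).const_sub 1).fun_add ((hasDerivAt_id (σ : ℂ)).mul_const t))
        (hne σ hσ)).congr_deriv ?_
      simp only [id]
      congr 1
      ring
    exact h1.comp_ofReal

theorem spike_pf : SpikeStmt := by
  intro u U ζ r η h h0 h1 hV ε hε
  obtain ⟨lam, r1, c, C, hl, hr1, hc, hC, hloc⟩ := loc_Spike h
  obtain ⟨K, hK, hD⟩ := D_Spike hl hc hC
  have hζ := h.nz
  have hlc : (lam : ℂ) ≠ 0 := by exact_mod_cast hl
  have hl2 : 0 < lam ^ 2 := by positivity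
  set V := Av (fun z => hh (η * I + u z) ^ 2) ζ with hVd
  have hV0 : V ≠ 0 := fun h => by simp [h] at hV
  obtain ⟨τ, hρ, hτ⟩ : ∃ τ : ℂ, 0 < τ.re ∧ V = -(((4 / lam ^ 2 : ℝ) : ℂ) * τ⁻¹) := by
    refine ⟨-(((4 / lam ^ 2 : ℝ) : ℂ) * V⁻¹), ?_, ?_⟩
    · rw [neg_re, re_ofReal_mul, inv_re, neg_pos]
      exact mul_neg_of_pos_of_neg (by positivity) (div_neg_of_neg_of_pos hV (normSq_pos.2 hV0))
    · push_cast
      field_simp
  have hτ0 : τ ≠ 0 := fun h => by simp [h] at hρ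
  have hτn := norm_pos_iff.2 hτ0
  have hVre : -V.re = 4 / lam ^ 2 * (τ.re / ‖τ‖ ^ 2) := by
    rw [hτ, neg_re, neg_neg, re_ofReal_mul, inv_re, normSq_eq_norm_sq]
  have hnz : ∀ s : ℝ, 1 - ‖ζ * (1 - s ^ 2 * τ)‖ ^ 2 = s ^ 2 * (2 * τ.re - s ^ 2 * ‖τ‖ ^ 2) := by
    intro s
    rw [norm_mul, hζ, one_mul, Complex.sq_norm, Complex.sq_norm]
    simp [normSq_apply, pow_two]
    ring
  have lim0 : ∀ {f : ℝ → ℝ} {a : ℝ}, Continuous f → f 0 < a → ∀ᶠ s in 𝓝[>] (0 : ℝ), f s < a :=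
    fun hf ha => nhdsWithin_le_nhds (hf.continuousAt.eventually_lt continuousAt_const ha)
  have good : ∀ᶠ s : ℝ in 𝓝[>] 0, 0 < s ∧ s ≤ 1 ∧ η + 2 * Real.sqrt s < 1 ∧
      ‖ζ * (1 - s ^ 2 * τ)‖ < 1 ∧ ∀ σ ∈ Icc (0 : ℝ) 1,
        ‖hh (JJ η s (u (σ * (ζ * (1 - s ^ 2 * τ))))) ^ 2 -
          4 * s ^ 2 / lam ^ 2 / (1 - σ + σ * (s ^ 2 * τ)) ^ 2‖ ≤
          K * (1 + s / ‖(1 - σ + σ * (s ^ 2 * τ) : ℂ)‖) := by
    filter_upwards [self_mem_nhdsWithin, lim0 (f := fun s => s) (a := 1) continuous_id one_pos,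
      lim0 (f := fun s => η + 2 * Real.sqrt s) (a := 1) (by fun_prop) (by simpa using h1),
      lim0 (f := fun s => s ^ 2 * ‖τ‖ ^ 2) (a := 2 * τ.re) (by fun_prop) (by simpa using hρ),
      lim0 (f := fun s => s ^ 2 * ‖τ‖) (a := r1 / 2) (by fun_prop) (by simpa using hr1)]
      with s s0 s1 s2 s3 s4
    have s0' : 0 < s := s0
    have z1 : ‖ζ * (1 - s ^ 2 * τ)‖ < 1 := by
      have a1 := hnz s
      have a2 : 0 < s ^ 2 * (2 * τ.re - s ^ 2 * ‖τ‖ ^ 2) := mul_pos (by positivity) (by linarith)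
      nlinarith [norm_nonneg (ζ * (1 - s ^ 2 * τ))]
    refine ⟨s0', s1.le, s2, z1, fun σ hσ => ?_⟩
    have e : (σ : ℂ) * (ζ * (1 - s ^ 2 * τ)) = ζ * (1 - (1 - σ + σ * (s ^ 2 * τ))) := by ring
    have n1 : ‖(σ : ℂ) * (ζ * (1 - s ^ 2 * τ))‖ = σ * ‖ζ * (1 - s ^ 2 * τ)‖ := by
      rw [norm_mul, norm_real, Real.norm_of_nonneg hσ.1]
    have n2 : ‖(σ : ℂ) * (ζ * (1 - s ^ 2 * τ))‖ < 1 := by
      rw [n1]; nlinarith [hσ.1, hσ.2, norm_nonneg (ζ * (1 - s ^ 2 * τ))]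
    have n3 : (1 - σ + σ * (s ^ 2 * τ) : ℂ) ≠ 0 := fun h2 => by
      rw [e, h2, sub_zero, mul_one, hζ] at n2
      exact lt_irrefl _ n2
    obtain ⟨l1, l2⟩ := hloc (1 - σ + σ * (s ^ 2 * τ)) (e ▸ n2) (by
      refine (lt_or_ge _ _).imp_right fun h2 => ?_
      have a1 := norm_add_le (1 - σ : ℂ) (σ * (s ^ 2 * τ))
      rw [← ofReal_one, ← ofReal_sub, norm_real, norm_mul, norm_mul, norm_real, norm_pow, norm_real,
        Real.norm_of_nonneg hσ.1, Real.norm_of_nonneg s0'.le,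
        Real.norm_of_nonneg (by linarith [hσ.2]), ofReal_sub, ofReal_one] at a1
      have a2 := mul_le_mul_of_nonneg_right hσ.2 (show 0 ≤ s ^ 2 * ‖τ‖ by positivity)
      have a3 := mul_le_mul_of_nonneg_left z1.le hσ.1
      rw [← e, n1]
      linarith)
    rw [div_div, ← mul_pow, e]
    exact hD η s _ _ h0 s0' s2 s1.le (h.pos _ (mem_ball_zero_iff.2 (e ▸ n2))) n3 l1 l2
  have hcont : ∀ᶠ s : ℝ in 𝓝[>] 0, ContinuousOn
      (fun σ : ℝ => hh (JJ η s (u (σ * (ζ * (1 - s ^ 2 * τ))))) ^ 2) (uIcc 0 1) := by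
    filter_upwards [good] with s ⟨s0, _, s2, z1, _⟩
    rw [uIcc_of_le zero_le_one]
    intro σ hσ
    have n2 : (σ : ℂ) * (ζ * (1 - s ^ 2 * τ)) ∈ ball (0 : ℂ) 1 := by
      rw [mem_ball_zero_iff, norm_mul, norm_real, Real.norm_of_nonneg hσ.1]
      nlinarith [hσ.1, hσ.2, norm_nonneg (ζ * (1 - s ^ 2 * τ))]
    have p1 := h.pos _ n2
    have c1 : ContinuousAt (fun σ : ℝ => u (σ * (ζ * (1 - s ^ 2 * τ)))) σ :=
      ContinuousAt.comp (f := fun σ : ℝ => (σ : ℂ) * (ζ * (1 - s ^ 2 * τ)))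
        (h.hd.differentiableAt (isOpen_ball.mem_nhds n2)).continuousAt (by fun_prop)
    have c2 : ContinuousAt (fun σ : ℝ => JJ η s (u (σ * (ζ * (1 - s ^ 2 * τ))))) σ :=
      (continuousAt_const.add c1).sub (continuousAt_const.div c1 fun h2 => by simp [h2] at p1)
    exact ((ContinuousAt.comp (f := fun σ : ℝ => JJ η s (u (σ * (ζ * (1 - s ^ 2 * τ)))))
      (differentiableAt_hh (JJ_mem h0 s0 s2 p1)).continuousAt c2).pow 2).continuousWithinAt
  have hre : ∀ s : ℝ, 0 < s → 0 < ((s : ℂ) ^ 2 * τ).re := fun s hs => by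
    rw [← ofReal_pow, re_ofReal_mul]; positivity
  have hne1 : ∀ᵐ σ : ℝ, σ ≠ 1 := compl_mem_ae_iff.2 (measure_singleton 1)
  have hlim : Tendsto (fun s : ℝ => ∫ σ in (0 : ℝ)..1,
      (hh (JJ η s (u (σ * (ζ * (1 - s ^ 2 * τ))))) ^ 2 -
        4 * s ^ 2 / lam ^ 2 / (1 - σ + σ * (s ^ 2 * τ)) ^ 2)) (𝓝[>] 0) (𝓝 V) := by
    refine intervalIntegral.tendsto_integral_filter_of_dominated_convergence
      (fun σ => K * (1 + (Real.sqrt (min 1 (2 * τ.re)))⁻¹ * (1 - σ) ^ (-(1 / 2) : ℝ))) ?_ ?_ ?_ ?_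
    · filter_upwards [good, hcont] with s hs hs'
      exact ((hs'.sub (ftc_Spike (hre s hs.1)).1).mono uIoc_subset_uIcc).aestronglyMeasurable
        measurableSet_uIoc
    · filter_upwards [good] with s ⟨s0, s1, _, _, hs⟩
      filter_upwards [hne1] with σ hσ1 hσ
      rw [uIoc_of_le zero_le_one] at hσ
      refine (hs σ ⟨hσ.1.le, hσ.2⟩).trans ?_
      have := bd_Spike hρ hσ.1.le (lt_of_le_of_ne hσ.2 hσ1) s0 s1
      gcongr
    · have a1 := (intervalIntegral.intervalIntegrable_rpow' (a := 1) (b := 0)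
        (show (-1 : ℝ) < -(1 / 2) by norm_num)).comp_sub_left 1
      rw [sub_self, sub_zero] at a1
      exact (intervalIntegrable_const.add (a1.const_mul _)).const_mul _
    · filter_upwards [hne1] with σ hσ1 hσ
      rw [uIoc_of_le zero_le_one] at hσ
      have hσ2 : σ < 1 := lt_of_le_of_ne hσ.2 hσ1
      have n2 : (σ : ℂ) * (ζ * (1 - ((0 : ℝ) : ℂ) ^ 2 * τ)) ∈ ball (0 : ℂ) 1 := by
        simpa [hζ, abs_of_pos hσ.1] using hσ2
      have p1 := h.pos _ n2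
      have c1 : ContinuousAt (fun s : ℝ => u (σ * (ζ * (1 - s ^ 2 * τ)))) 0 :=
        ContinuousAt.comp (f := fun s : ℝ => (σ : ℂ) * (ζ * (1 - s ^ 2 * τ)))
          (h.hd.differentiableAt (isOpen_ball.mem_nhds n2)).continuousAt (by fun_prop)
      have c2 : ContinuousAt (fun s : ℝ => JJ η s (u (σ * (ζ * (1 - s ^ 2 * τ))))) 0 :=
        (continuousAt_const.add c1).sub
          (continuous_ofReal.continuousAt.div c1 fun h2 => by rw [h2] at p1; simp at p1)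
      have c3 : ContinuousAt (fun s : ℝ => hh (JJ η s (u (σ * (ζ * (1 - s ^ 2 * τ))))) ^ 2 -
          4 * s ^ 2 / lam ^ 2 / (1 - σ + σ * (s ^ 2 * τ)) ^ 2) 0 := by
        refine ((ContinuousAt.comp (f := fun s : ℝ => JJ η s (u (σ * (ζ * (1 - s ^ 2 * τ)))))
          (differentiableAt_hh (mem_SS_of_re ?_)).continuousAt c2).pow 2).sub
          (ContinuousAt.div (by fun_prop) (by fun_prop) ?_)
        · rw [JJ_re, zero_div, sub_zero, mul_one]; exact p1.ne'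
        · have : (1 - σ : ℂ) ≠ 0 := by exact_mod_cast (sub_pos.2 hσ2).ne'
          simpa using this
      have c4 := c3.tendsto.mono_left (nhdsWithin_le_nhds (s := Ioi 0))
      simpa [JJ] using c4
  have hfin := lim0 (f := fun s => -((2 * τ.re - s ^ 2 * ‖τ‖ ^ 2) *
    (4 / lam ^ 2 / ‖τ‖ ^ 2 - K * (s ^ 2 + s / ‖τ‖)))) (a := V.re) (by fun_prop) (by
      have : 0 < 4 / lam ^ 2 * (τ.re / ‖τ‖ ^ 2) := by positivity
      have e : (2 * τ.re - 0 ^ 2 * ‖τ‖ ^ 2) * (4 / lam ^ 2 / ‖τ‖ ^ 2 - K * (0 ^ 2 + 0 / ‖τ‖)) =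
        2 * (4 / lam ^ 2 * (τ.re / ‖τ‖ ^ 2)) := by ring
      rw [e]
      linarith)
  filter_upwards [good, hcont, hfin, Metric.tendsto_nhds.1 hlim ε hε]
    with s ⟨s0, _, _, z1, hs⟩ hs' s5 s6
  have hsc : (s : ℂ) ≠ 0 := by exact_mod_cast s0.ne'
  refine ⟨ζ * (1 - s ^ 2 * τ), mem_ball_zero_iff.2 z1, ?_, ?_⟩
  · obtain ⟨f1, f2⟩ := ftc_Spike (a := 4 * s ^ 2 / lam ^ 2) (hre s s0)
    rw [intervalIntegral.integral_sub hs'.intervalIntegrable f1.intervalIntegrable, f2,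
      dist_eq_norm, show (4 : ℂ) * s ^ 2 / lam ^ 2 / (s ^ 2 * τ) = -V by
        rw [hτ]; push_cast; field_simp, sub_neg_eq_add, add_sub_cancel_right] at s6
    exact s6.le
  · have a1 := hs 1 ⟨zero_le_one, le_rfl⟩
    rw [ofReal_one, one_mul, sub_self, zero_add, one_mul] at a1
    have a2 := norm_sub_norm_le (4 * s ^ 2 / lam ^ 2 / (s ^ 2 * τ) ^ 2 : ℂ)
      (hh (JJ η s (u (ζ * (1 - s ^ 2 * τ)))) ^ 2)
    rw [norm_sub_rev] at a2
    have a3 : ‖(s : ℂ) ^ 2 * τ‖ = s ^ 2 * ‖τ‖ := by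
      rw [norm_mul, norm_pow, norm_real, Real.norm_of_nonneg s0.le]
    have a4 : ‖(4 * s ^ 2 / lam ^ 2 / (s ^ 2 * τ) ^ 2 : ℂ)‖ =
        4 * s ^ 2 / lam ^ 2 / (s ^ 2 * ‖τ‖) ^ 2 := by
      rw [norm_div, norm_pow, a3, norm_div, norm_mul, norm_pow, norm_pow, norm_real, norm_real,
        Real.norm_of_nonneg s0.le, Real.norm_eq_abs, sq_abs, Complex.norm_ofNat]
    rw [a3] at a1
    have a5 : 4 / lam ^ 2 / ‖τ‖ ^ 2 - K * (s ^ 2 + s / ‖τ‖) ≤
        s ^ 2 * ‖hh (JJ η s (u (ζ * (1 - s ^ 2 * τ)))) ^ 2‖ := by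
      rw [show 4 / lam ^ 2 / ‖τ‖ ^ 2 - K * (s ^ 2 + s / ‖τ‖) = s ^ 2 *
        (4 * s ^ 2 / lam ^ 2 / (s ^ 2 * ‖τ‖) ^ 2 - K * (1 + s / (s ^ 2 * ‖τ‖))) by field_simp]
      exact mul_le_mul_of_nonneg_left (by linarith) (sq_nonneg s)
    have a6 : 0 ≤ 2 * τ.re - s ^ 2 * ‖τ‖ ^ 2 := by
      have b1 := hnz s
      have b2 : 0 ≤ s ^ 2 * (2 * τ.re - s ^ 2 * ‖τ‖ ^ 2) := by
        nlinarith [norm_nonneg (ζ * (1 - s ^ 2 * τ))]
      exact nonneg_of_mul_nonneg_right b2 (by positivity) |> fun t => t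
    have a7 := mul_le_mul_of_nonneg_left a5 a6
    rw [hnz s]
    linarith

end Pool.Agent.MP_32357e_an.Sec

end
end

section

/-! The invariant after one step. -/

set_option autoImplicit false

open Complex Set Filter Topology Metric MeasureTheory
open scoped ComplexConjugate

noncomputable section

namespace Pool.Agent.MP_32357e_an.Sec

lemma mem_New {w : ℂ} (h : ‖w‖ < 1) : w ∈ SS := Or.inr ((abs_im_le_norm w).trans_lt h)

lemma one_New {w : ℂ} (h : ‖w‖ < 1) : 1 < ‖1 + rt w‖ := by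
  have h1 := re_le_norm (1 + rt w)
  have h2 := rt_re_pos (mem_New h)
  rw [add_re, one_re] at h1
  linarith

lemma ne_New {w : ℂ} (h : ‖w‖ < 1) : 1 + rt w ≠ 0 :=
  norm_pos_iff.1 (one_pos.trans (one_New h))

lemma root_New {w J : ℂ} (h : ‖w‖ < 1) (e : w * J = 1) (hJ : J ∈ SS) (h0 : J.re ≤ 0) :
    -w / (1 + rt w) = gg J := by
  by_contra hne
  obtain ⟨g, hg⟩ : ∃ g, g = -w / (1 + rt w) := ⟨_, rfl⟩
  have h1 : g * (1 + rt w) = -w := by rw [hg, div_mul_cancel₀ _ (ne_New h)]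
  have h2 : g ^ 2 - 2 * J * g - 1 = 0 :=
    (mul_eq_zero.1 (show _ * (1 + rt w) ^ 2 = 0 by
      linear_combination (g * (1 + rt w) - w - 2 * J * (1 + rt w)) * h1 +
        2 * (1 + rt w) * e - rt_sq (mem_New h))).resolve_right (pow_ne_zero 2 (ne_New h))
  have h3 := gg_mul_hh hJ
  have h4 : g = -hh J := sub_eq_zero.1 ((mul_eq_zero.1 (show (g - gg J) * _ = 0 by
    linear_combination h2 - h3 - g * gg_eq J)).resolve_left (sub_ne_zero.2 (hg ▸ hne)))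
  have h5 := congrArg norm h1
  rw [h4, norm_mul, norm_neg, norm_neg] at h5
  nlinarith [one_le_norm_hh hJ h0, one_New h]

lemma der_New {W : ℂ → ℂ} {w z : ℂ} (R : ℂ) (d : HasDerivAt W w z) (h : ‖W z‖ < 1) :
    HasDerivAt (fun z => -W z / (1 + rt (W z)) / R)
      ((-w * (1 + rt (W z)) - -W z * (W z / rt (W z) * w)) / (1 + rt (W z)) ^ 2 / R) z :=
  (d.neg.div (((hasDerivAt_rt (mem_New h)).comp z d).const_add 1) (ne_New h)).div_const R

lemma re_New {a b : ℂ} (ha : a.re = 0) (hb : b.im = 0) : (a / b).re = 0 := by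
  rw [div_re, ha, hb]
  simp

theorem new_pf : NewStmt := by
  intro u U ζ r η s R A hu h0 hs h1 hR
  have hR' : (R : ℂ) ≠ 0 := ofReal_ne_zero.2 hR.ne'
  have hs' : (s : ℂ) ≠ 0 := ofReal_ne_zero.2 hs.ne'
  have m : ∀ z ∈ ball (0 : ℂ) 1, JJ η s (u z) ∈ SS := fun z hz => JJ_mem h0 hs h1 (A.pos z hz)
  have u0 : ∀ z ∈ ball (0 : ℂ) 1, u z ≠ 0 := fun z hz h => by simpa [h] using A.pos z hz
  refine ⟨fun x hx y hy e => hu hx hy (JJ_inj hs (A.pos x hx) (A.pos y hy)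
    (injOn_gg (m x hx) (m y hy) ((div_left_inj' hR').1 e))), ?_⟩
  have dU := (A.hY.differentiableAt (ball_mem_nhds ζ A.rp)).hasDerivAt
  have cU := dU.continuousAt
  have d0 : (η * I + U ζ) * U ζ - s ≠ 0 := by simpa [A.zero] using hs.ne'
  have dW : HasDerivAt (fun z => U z / ((η * I + U z) * U z - s)) (-deriv U ζ / s) ζ := by
    refine (dU.div (((dU.const_add (η * I)).mul dU).sub_const (s : ℂ)) d0).congr_deriv ?_
    simp only [Pi.mul_apply, A.zero, mul_zero, zero_mul, zero_sub, sub_zero]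
    field_simp
  have w0 : U ζ / ((η * I + U ζ) * U ζ - s) = 0 := by rw [A.zero, zero_div]
  have ev : ∀ᶠ z in 𝓝 ζ, z ∈ ball ζ r ∧ ‖U z‖ ^ 2 < s ∧ (η * I + U z) * U z - s ≠ 0 ∧
      ‖U z / ((η * I + U z) * U z - s)‖ < 1 :=
    (isOpen_ball.eventually_mem (mem_ball_self A.rp)).and
      (((cU.norm.pow 2).eventually_lt continuousAt_const (by simpa [A.zero] using hs)).and
        ((ContinuousAt.eventually_ne (g := fun z => (η * I + U z) * U z - s) (by fun_prop) d0).and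
          (dW.continuousAt.norm.eventually_lt continuousAt_const (by simp [w0]))))
  obtain ⟨r', hr, H⟩ := Metric.eventually_nhds_iff_ball.1 ev
  refine ⟨fun z => -(U z / ((η * I + U z) * U z - s)) /
    (1 + rt (U z / ((η * I + U z) * U z - s))) / R, r', fun z hz => ?_, fun z hz => ?_, A.nz, hr,
    fun z hz => ?_, fun z hz hz1 => ?_, by simp [w0], ?_, fun z hz hz1 => ?_⟩
  · have d := A.hd.differentiableAt (isOpen_ball.mem_nhds hz)
    exact (((differentiableAt_gg (m z hz)).comp z ((d.const_add _).sub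
      ((differentiableAt_const _).div d (u0 z hz)))).div_const _).differentiableWithinAt
  · rw [div_ofReal_re]
    exact div_pos (gg_re_pos (m z hz)) hR
  · obtain ⟨k1, -, k3, k4⟩ := H z hz
    have d := A.hY.differentiableAt (isOpen_ball.mem_nhds k1)
    have d' : DifferentiableAt ℂ (fun z => U z / ((η * I + U z) * U z - s)) z :=
      d.div (((d.const_add (η * I)).mul d).sub_const (s : ℂ)) k3
    exact (der_New R d'.hasDerivAt k4).differentiableAt.differentiableWithinAt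
  · obtain ⟨k1, k2, k3, k4⟩ := H z hz
    have hz' := mem_ball_zero_iff.2 hz1
    rw [A.eq z k1 hz1] at k2 k3 k4 ⊢
    rw [root_New k4 ?_ (m z hz') ?_]
    · have := u0 z hz'
      rw [JJ, div_mul_eq_mul_div, div_eq_one_iff_eq k3]
      field_simp
    · rw [JJ_re]
      exact mul_nonpos_of_nonneg_of_nonpos (A.pos z hz').le (sub_nonpos.2
        ((one_le_div (pow_pos (norm_pos_iff.2 (u0 z hz')) 2)).2 k2.le))
  · have k : ‖U ζ / ((η * I + U ζ) * U ζ - s)‖ < 1 := by simp [w0]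
    have r0 : rt 0 = 1 := by simp [rt]
    rw [(der_New R dW k).deriv, w0, r0]
    have := A.der
    refine div_ne_zero (div_ne_zero ?_ (by norm_num)) hR'
    rw [neg_zero, zero_mul, sub_zero]
    exact mul_ne_zero (neg_ne_zero.2 (div_ne_zero (neg_ne_zero.2 this) hs')) (by norm_num)
  · obtain ⟨k1, -, -, k4⟩ := H z hz
    have a1 := A.im z k1 hz1
    have a2 := re_New a1 (b := (η * I + U z) * U z - s) (by simp [a1])
    have a3 := congrArg Complex.im (rt_sq (mem_New k4))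
    simp only [pow_two, mul_im, add_im, one_im, a2, zero_mul, mul_zero, add_zero] at a3
    refine re_New (re_New (by rw [neg_re, a2, neg_zero]) ?_) (ofReal_im R)
    rw [add_im, one_im, zero_add]
    exact mul_left_cancel₀ (mul_pos two_pos (rt_re_pos (mem_New k4))).ne'
      (by linear_combination a3)

end Pool.Agent.MP_32357e_an.Sec

end
end

section

/-! One step changes little on a compact set. -/

set_option autoImplicit false

open Complex Set Filter Topology Metric MeasureTheory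
open scoped ComplexConjugate

noncomputable section

namespace Pool.Agent.MP_32357e_an.Sec

lemma inv_Close {a b : ℂ} {m ε : ℝ} (hm : 0 < m) (hb : m ≤ ‖b‖) (h : ‖a - b‖ ≤ ε)
    (hε : ε ≤ m / 2) : ‖(a ^ 2)⁻¹ - (b ^ 2)⁻¹‖ ≤ ε * (2 / m) * (1 / m) * (3 / m) := by
  have ha : m / 2 ≤ ‖a‖ := by
    have := norm_sub_norm_le b a
    rw [norm_sub_rev] at this
    linarith
  have ha0 : a ≠ 0 := norm_pos_iff.1 (by linarith)
  have hb0 : b ≠ 0 := norm_pos_iff.1 (by linarith)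
  have h1 : ‖a⁻¹‖ ≤ 2 / m := by
    rw [norm_inv, ← inv_div]
    exact inv_anti₀ (by linarith) ha
  have h2 : ‖b⁻¹‖ ≤ 1 / m := by
    rw [norm_inv, one_div]
    exact inv_anti₀ hm hb
  have h3 : ‖a⁻¹ + b⁻¹‖ ≤ 3 / m := by
    have := norm_add_le a⁻¹ b⁻¹
    have e : 3 / m = 2 / m + 1 / m := by ring
    linarith
  have e : (a ^ 2)⁻¹ - (b ^ 2)⁻¹ = -(a - b) * a⁻¹ * b⁻¹ * (a⁻¹ + b⁻¹) := by
    field_simp
    ring
  have h0 : 0 ≤ ε := (norm_nonneg _).trans h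
  rw [e, norm_mul, norm_mul, norm_mul, norm_neg]
  gcongr

lemma step_Close {y : ℂ} {R η s : ℝ} (hR : 0 < R) (hy : 2 ≤ R * y.re) (h0 : 0 ≤ η) (hs : 0 < s)
    (hs1 : s ≤ 1) (h1 : η + 2 * Real.sqrt s < 1) :
    ‖gg (JJ η s (R * y / 2 - η * I)) / R - y‖ ≤ 3 / R := by
  obtain ⟨u, hu⟩ : ∃ u : ℂ, u = R * y / 2 - η * I := ⟨_, rfl⟩
  have hre : 1 ≤ u.re := by
    rw [hu]
    simp only [sub_re, div_ofNat_re, mul_re, ofReal_re, ofReal_im, I_re, I_im]
    linarith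
  have hn : 1 ≤ ‖u‖ := hre.trans (re_le_norm u)
  have hJ : JJ η s u ∈ SS := JJ_mem h0 hs h1 (by linarith)
  have hJr : 0 ≤ (JJ η s u).re := by
    rw [JJ_re]
    refine mul_nonneg (by linarith) (sub_nonneg.2 ?_)
    exact div_le_one_of_le₀ (hs1.trans (one_le_pow₀ hn)) (by positivity)
  have hh1 := norm_hh_le hJ hJr
  have hR' : (R : ℂ) ≠ 0 := ofReal_ne_zero.2 hR.ne'
  have e : gg (JJ η s u) / R - y = (hh (JJ η s u) - 2 * (s / u)) / R := by
    have e1 : 2 * JJ η s u = R * y - 2 * (s / u) := by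
      rw [JJ]
      linear_combination 2 * hu
    rw [gg_eq, e1, div_sub' hR']
    congr 1
    ring
  have h2 : ‖(s : ℂ) / u‖ ≤ 1 := by
    rw [norm_div, Complex.norm_real, Real.norm_eq_abs, abs_of_pos hs]
    exact div_le_one_of_le₀ (hs1.trans hn) (norm_nonneg _)
  rw [← hu, e, norm_div, Complex.norm_real, Real.norm_eq_abs, abs_of_pos hR]
  refine div_le_div_of_nonneg_right ((norm_sub_le _ _).trans ?_) hR.le
  rw [norm_mul, Complex.norm_ofNat]
  linarith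

theorem close_pf : CloseStmt := by
  intro y hy hp r δ hr hδ
  have hsub : closedBall (0 : ℂ) r ⊆ ball 0 1 := closedBall_subset_ball hr
  obtain ⟨m, hm, hmy⟩ : ∃ m : ℝ, 0 < m ∧ ∀ z ∈ closedBall (0 : ℂ) r, m ≤ (y z).re :=
    (isCompact_closedBall (0 : ℂ) r).exists_forall_le'
      (continuous_re.comp_continuousOn (hy.continuousOn.mono hsub)) fun z hz => hp z (hsub hz)
  filter_upwards [eventually_ge_atTop (6 / m), eventually_ge_atTop (18 / (m ^ 3 * δ))] with R h1 h2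
    η s h0 _ hs hs1 h3 z hz
  have hR : 0 < R := lt_of_lt_of_le (by positivity) h1
  have h4 := hmy z (mem_closedBall_zero_iff.2 hz)
  have h5 : 6 ≤ R * m := (div_le_iff₀ hm).1 h1
  have h6 : 2 ≤ R * (y z).re := by
    have := mul_le_mul_of_nonneg_left h4 hR.le
    linarith
  refine (inv_Close hm (h4.trans (re_le_norm _)) (step_Close hR h6 h0 hs hs1 h3) ?_).trans ?_
  · rw [div_le_iff₀ hR]
    linarith
  · have h7 : 18 ≤ R * (m ^ 3 * δ) := (div_le_iff₀ (by positivity)).1 h2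
    have e : 3 / R * (2 / m) * (1 / m) * (3 / m) = 18 / (R * m ^ 3) := by
      field_simp
      ring
    rw [e, div_le_iff₀ (by positivity)]
    linarith

end Pool.Agent.MP_32357e_an.Sec

end
end

section

/-! A univalent function omitting a half-line whose primitive is not normal. -/

set_option autoImplicit false

open Complex Set Filter Topology Metric MeasureTheory
open scoped ComplexConjugate

noncomputable section

namespace Pool.Agent.MP_32357e_an.Sec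

/-- The class that the iteration preserves. -/
def Cls (f : ℂ → ℂ) : Prop :=
  ∃ (y Y : ℂ → ℂ) (ζ : ℂ) (r : ℝ), Arc y Y ζ r ∧ InjOn y (ball 0 1) ∧ f = fun z => (y z ^ 2)⁻¹

lemma ne_of_re_Slit {w : ℂ} (h : 0 < w.re) : w ≠ 0 := fun h0 => by rw [h0] at h; simp at h

lemma sq_slit_Slit {w : ℂ} (h : 0 < w.re) : (w ^ 2)⁻¹ ∈ slitPlane := by
  have h1 : 0 < (w⁻¹).re := by
    rw [inv_re]; exact div_pos h (normSq_pos.mpr (ne_of_re_Slit h))
  rw [← inv_pow]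
  generalize w⁻¹ = v at h1
  rw [mem_slitPlane_iff]
  by_cases hi : v.im = 0
  · left
    have : (v ^ 2).re = v.re ^ 2 - v.im ^ 2 := by simp [pow_two]
    rw [this, hi]
    nlinarith
  · right
    have : (v ^ 2).im = 2 * v.re * v.im := by simp [pow_two]; ring
    rw [this]
    exact mul_ne_zero (mul_ne_zero two_ne_zero h1.ne') hi

lemma cls_basic_Slit (f : ℂ → ℂ) (hf : Cls f) : DifferentiableOn ℂ f (ball 0 1) ∧
    InjOn f (ball 0 1) ∧ ∀ z ∈ ball (0 : ℂ) 1, f z ∉ slitPlaneᶜ := by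
  obtain ⟨y, Y, ζ, r, h, hi, rfl⟩ := hf
  refine ⟨(h.hd.pow 2).inv fun z hz => pow_ne_zero 2 (ne_of_re_Slit (h.pos z hz)), ?_,
    fun z hz hc => hc (sq_slit_Slit (h.pos z hz))⟩
  intro z hz w hw e
  have e1 : y z ^ 2 = y w ^ 2 := inv_injective e
  rcases sq_eq_sq_iff_eq_or_eq_neg.mp e1 with h1 | h1
  · exact hi hz hw h1
  · have a := h.pos z hz
    have b := h.pos w hw
    rw [h1, neg_re] at a
    linarith

lemma cls_start_Slit : ∃ f, Cls f := by
  have hne : ∀ z ∈ ball (1 : ℂ) 1, 1 + z ≠ 0 := by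
    intro z hz h0
    have : z = -1 := by linear_combination h0
    rw [this, mem_ball_iff_norm] at hz
    norm_num at hz
  have hne0 : ∀ z ∈ ball (0 : ℂ) 1, 1 + z ≠ 0 := by
    intro z hz h0
    have : z = -1 := by linear_combination h0
    rw [this, mem_ball_zero_iff] at hz
    norm_num at hz
  have hre : ∀ z : ℂ, ((1 - z) / (1 + z)).re = (1 - ‖z‖ ^ 2) / normSq (1 + z) := by
    intro z
    rw [div_re, Complex.sq_norm, normSq_apply z]
    simp only [sub_re, one_re, add_re, sub_im, one_im, add_im]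
    ring
  refine ⟨_, fun z => (1 - z) / (1 + z), fun z => (1 - z) / (1 + z), 1, 1,
    ⟨?_, ?_, norm_one, one_pos, ?_, fun _ _ _ => rfl, by simp, ?_, ?_⟩, ?_, rfl⟩
  · exact (differentiableOn_id.const_sub 1).div (differentiableOn_id.const_add 1) hne0
  · intro z hz
    rw [hre]
    have := mem_ball_zero_iff.mp hz
    exact div_pos (by nlinarith [norm_nonneg z]) (normSq_pos.mpr (hne0 z hz))
  · exact (differentiableOn_id.const_sub 1).div (differentiableOn_id.const_add 1) hne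
  · have d : HasDerivAt (fun z : ℂ => (1 - z) / (1 + z))
        ((-1 * (1 + 1) - (1 - 1) * 1) / (1 + 1) ^ 2) 1 :=
      ((hasDerivAt_id (1 : ℂ)).const_sub 1).div ((hasDerivAt_id (1 : ℂ)).const_add 1) (by norm_num)
    rw [d.deriv]
    norm_num
  · intro z _ hz
    rw [hre, hz]
    simp
  · intro z hz w hw e
    have e1 := (div_eq_div_iff (hne0 z hz) (hne0 w hw)).mp e
    linear_combination (-1 / 2 : ℂ) * e1

lemma cls_step_Slit (f : ℂ → ℂ) (hf : Cls f) (r δ M : ℝ) (hr : r < 1) (hδ : 0 < δ) :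
    ∃ g, Cls g ∧ (∀ z : ℂ, ‖z‖ ≤ r → ‖g z - f z‖ ≤ δ) ∧
      ∃ z ∈ ball (0 : ℂ) 1, ‖Av g z‖ ≤ 1 ∧ M ≤ (1 - ‖z‖ ^ 2) * ‖g z‖ := by
  obtain ⟨y, Y, ζ, ρ, h, hi, rfl⟩ := hf
  obtain ⟨R, ⟨ζ', η, hn, hb, h0, h1, he, hd, hV⟩, hcl, hR⟩ :=
    ((cap_pf y Y ζ ρ h (max M 0)).and ((close_pf y h.hd h.pos r δ hr hδ).and
      (eventually_gt_atTop 0))).exists
  have hRc : (R : ℂ) ≠ 0 := ofReal_ne_zero.mpr hR.ne'
  obtain ⟨ρ', hρ', hsub⟩ := Metric.isOpen_iff.mp isOpen_ball ζ' hb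
  have dY := (h.hY.differentiableAt (isOpen_ball.mem_nhds hb)).hasDerivAt
  have hre : ∀ w : ℂ, (R * w / 2 - η * I).re = R * w.re / 2 := by
    intro w
    rw [sub_re, div_ofNat_re, re_ofReal_mul]
    simp
  have hA : Arc (fun z => R * y z / 2 - η * I) (fun z => R * Y z / 2 - η * I) ζ' ρ' := by
    refine ⟨((h.hd.const_mul _).div_const _).sub_const _, fun z hz => ?_, hn, hρ',
      ((((h.hY.mono hsub).const_mul _).div_const _).sub_const _), fun z hz hz1 => ?_,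
      by simp only [he, sub_self], ?_, fun z hz hz1 => ?_⟩
    · rw [hre]
      have := h.pos z hz
      positivity
    · simp only [h.eq z (hsub hz) hz1]
    · rw [(((dY.const_mul (R : ℂ)).div_const 2).sub_const _).deriv]
      exact div_ne_zero (mul_ne_zero hRc hd) two_ne_zero
    · rw [hre, h.im z (hsub hz) hz1]
      simp
  have hiu : InjOn (fun z => R * y z / 2 - η * I) (ball 0 1) := by
    intro z hz w hw e
    apply hi hz hw
    have e1 : (R : ℂ) * y z = R * y w := by linear_combination 2 * e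
    exact mul_left_cancel₀ hRc e1
  have hAv : ∀ (k : ℂ → ℂ) (z : ℂ), Av (fun w => (R * k w) ^ 2) z =
      ((R ^ 2 : ℝ) : ℂ) * Av (fun w => k w ^ 2) z := by
    intro k z
    simp only [Av, mul_pow]
    rw [intervalIntegral.integral_const_mul]
    push_cast
    rfl
  have e0 : (fun z => hh (η * I + (R * y z / 2 - η * I)) ^ 2) = fun z => hh (R * y z / 2) ^ 2 := by
    funext z
    rw [add_sub_cancel]
  rw [hAv (fun z => hh (R * y z / 2)), re_ofReal_mul] at hV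
  have hR2 : 0 < R ^ 2 := by positivity
  have hneg : (Av (fun z => hh (R * y z / 2) ^ 2) ζ').re < 0 := by
    by_contra hc
    have := mul_nonneg hR2.le (not_lt.mp hc)
    linarith [le_max_right M 0]
  have hsp := spike_pf _ _ ζ' ρ' η hA h0 h1 (by rw [e0]; exact hneg) (1 / R ^ 2) (by positivity)
  have hs1 : ∀ᶠ s : ℝ in 𝓝[>] 0, η + 2 * Real.sqrt s < 1 := by
    apply Eventually.filter_mono nhdsWithin_le_nhds
    have : ContinuousAt (fun s : ℝ => η + 2 * Real.sqrt s) 0 := by fun_prop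
    exact this.eventually (gt_mem_nhds (by simpa using h1))
  obtain ⟨s, ⟨z, hz, k1, k2⟩, hs, hs0, hsl⟩ :=
    (hsp.and (hs1.and (Ioc_mem_nhdsGT (zero_lt_one' ℝ)))).exists
  obtain ⟨hinj, Y', r', hA'⟩ := new_pf _ _ ζ' ρ' η s R hA hiu h0 hs0 hs hR
  have eg : ∀ w ∈ ball (0 : ℂ) 1, ((gg (JJ η s (R * y w / 2 - η * I)) / R) ^ 2)⁻¹ =
      (R * hh (JJ η s (R * y w / 2 - η * I))) ^ 2 := by
    intro w hw
    have hm := JJ_mem h0 hs0 hs (hA.pos w hw)
    have := hh_ne hm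
    rw [gg_eq_inv hm]
    field_simp
  refine ⟨_, ⟨_, Y', ζ', r', hA', hinj, rfl⟩, fun w hw => hcl η s h0 h1 hs0 hsl hs w hw, z, hz,
    ?_, ?_⟩
  · have e1 : Av (fun w => ((gg (JJ η s (R * y w / 2 - η * I)) / R) ^ 2)⁻¹) z =
        Av (fun w => (R * hh (JJ η s (R * y w / 2 - η * I))) ^ 2) z := by
      refine intervalIntegral.integral_congr fun t ht => eg _ ?_
      rw [uIcc_of_le zero_le_one] at ht
      rw [mem_ball_zero_iff] at hz ⊢
      rw [norm_mul, Complex.norm_real, Real.norm_eq_abs, abs_of_nonneg ht.1]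
      nlinarith [ht.2, norm_nonneg z]
    rw [e1, hAv (fun w => hh (JJ η s (R * y w / 2 - η * I))), norm_mul, Complex.norm_real,
      Real.norm_eq_abs, abs_of_pos hR2]
    calc _ ≤ R ^ 2 * (1 / R ^ 2) := by gcongr
      _ = 1 := by field_simp
  · rw [e0] at k2
    simp only [eg z hz]
    rw [mul_pow, norm_mul, norm_pow (R : ℂ), Complex.norm_real, Real.norm_eq_abs, abs_of_pos hR]
    have := mul_le_mul_of_nonneg_left k2 hR2.le
    nlinarith [le_max_left M 0]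

theorem slit_pf : ∃ f F : ℂ → ℂ, DifferentiableOn ℂ f (ball 0 1) ∧ InjOn f (ball 0 1) ∧
    (∀ z ∈ ball (0 : ℂ) 1, ∃ w : ℂ, 0 < w.re ∧ f z = w ^ (2 : ℂ)) ∧ F 0 = 0 ∧
    (∀ z ∈ ball (0 : ℂ) 1, HasDerivAt F (f z) z) ∧ ¬ Nrm f F := by
  obtain ⟨f, hd, hi, hE, hM⟩ := iter_pf Cls slitPlaneᶜ cls_basic_Slit cls_start_Slit cls_step_Slit
  obtain ⟨⟨F, hF0, hF⟩, hform⟩ := prim_pf f hd
  refine ⟨f, F, hd, hi, fun z hz => ?_, hF0, hF, ?_⟩
  · have hs : f z ∈ slitPlane := not_not.mp (hE z hz)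
    refine ⟨exp (log (f z) / 2), ?_, ?_⟩
    · rw [exp_re]
      apply mul_pos (Real.exp_pos _)
      have e : (log (f z) / 2).im = arg (f z) / 2 := by rw [← log_im]; simp
      rw [e]
      have h1 := neg_pi_lt_arg (f z)
      have h2 : arg (f z) < Real.pi := lt_of_le_of_ne (arg_le_pi _) (slitPlane_arg_ne_pi hs)
      exact Real.cos_pos_of_mem_Ioo ⟨by linarith, by linarith⟩
    · rw [cpow_ofNat, ← Complex.exp_nat_mul]
      have : ((2 : ℕ) : ℂ) * (log (f z) / 2) = log (f z) := by push_cast; ring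
      rw [this, exp_log (slitPlane_ne_zero hs)]
  · rintro ⟨C, hC⟩
    obtain ⟨z, hz, h1, h2⟩ := hM (5 * |C| + 1)
    have h3 := hC z hz
    have h4 : ‖F z‖ ≤ 2 := by
      rw [hform F hF0 hF z hz, norm_mul]
      have := mem_ball_zero_iff.mp hz
      nlinarith [norm_nonneg z, norm_nonneg (Av f z)]
    rw [div_le_iff₀ (by positivity)] at h3
    have h5 : ‖F z‖ ^ 2 ≤ 4 := by nlinarith [norm_nonneg (F z)]
    have h6 : C * (1 + ‖F z‖ ^ 2) ≤ |C| * 5 :=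
      mul_le_mul (le_abs_self C) (by linarith) (by positivity) (abs_nonneg C)
    linarith

end Pool.Agent.MP_32357e_an.Sec

end
end
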